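import Pool.Agent.T9h84.CP.Tensor

/-!
# The behaviour of the Ricci tensor under changes of coordinates
-/

set_option autoImplicit false

open scoped BigOperators ContDiff Topology
open Filter MeasureTheory

namespace Pool.Agent.T9h84.CP

variable {n : ℕ} {U : Set (Pt n)} {τ : Pt n → Pt n} {g' g : Met n}

/-- The curvature matrices `∂_i Γ_j - ∂_j Γ_i + [Γ_i, Γ_j]`. -/
noncomputable def om (g : Met n) (i j m k : Fin n) (x : Pt n) : ℝ :=
  pd i (chr g m j k) x - pd j (chr g m i k) x +
    ∑ p, (chr g m i p x * chr g p j k x - chr g m j p x * chr g p i k x)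

theorem ricF_eq (g : Met n) (j k : Fin n) (x : Pt n) : ricF g j k x = ∑ i, om g i j i k x := rfl

theorem gauge {R : Type*} [Ring R] (J : R) (JJ G A : Fin n → R) (dG dA JJ2 : Fin n → Fin n → R)
    (E1 : ∀ i, J * G i = A i * J + JJ i)
    (E2 : ∀ j i, JJ j * G i + J * dG j i = dA j i * J + A i * JJ j + JJ2 j i)
    (hs : ∀ i j, JJ2 i j = JJ2 j i) (i j : Fin n) :
    J * (dG i j - dG j i + (G i * G j - G j * G i)) =
      (dA i j - dA j i + (A i * A j - A j * A i)) * J := by
  have h1 : ∀ i j, J * dG i j = dA i j * J + A j * JJ i + JJ2 i j - JJ i * G j := fun i j => by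
    rw [← E2 i j]; noncomm_ring
  have h2 : ∀ i j, J * (G i * G j) = A i * (A j * J + JJ j) + JJ i * G j := fun i j => by
    rw [← mul_assoc, E1 i, add_mul, mul_assoc, E1 j]
  rw [mul_add, mul_sub, mul_sub, h1, h1, h2, h2, hs i j]
  noncomm_ring

theorem Change.smooth_inv (h : Change U τ g' g) {y : Pt n} (hy : y ∈ U) :
    ∀ a b, ContDiffAt ℝ ∞ (fun z => g' z a b) y := by
  intro a b
  have h1 : (fun z => g' z a b) =ᶠ[𝓝 y] fun z =>
      ∑ c, ∑ d, g (τ z) c d * jac τ c a z * jac τ d b z := by
    filter_upwards [eventually_mem h.isOpen hy] with z hz using h.eq z hz a b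
  refine ContDiffAt.congr_of_eventuallyEq ?_ h1
  refine ContDiffAt.sum fun c _ => ContDiffAt.sum fun d _ => ?_
  exact ((ContDiffAt.comp y (h.metric_smooth y hy c d) (h.smooth y hy)).mul
    (smooth_jac h.smooth hy c a)).mul (smooth_jac h.smooth hy d b)

theorem smooth_chr {g : Met n} {x : Pt n} (hA : ∀ a b, ContDiffAt ℝ ∞ (fun y => g y a b) x)
    (h0 : (g x).det ≠ 0) (k i j : Fin n) : ContDiffAt ℝ ∞ (chr g k i j) x :=
  (JS.chr (W := ℝ) (G := fun _ => g) (z := (0, x))
    (fun i j => JS.of_contDiff (hA i j)) h0 k i j).contDiffAt_right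

theorem om_alg (J : Fin n → Fin n → ℝ) (H : Fin n → Fin n → Fin n → ℝ)
    (hH : ∀ a i j, H a i j = H a j i) (C : Fin n → Fin n → Fin n → ℝ)
    (dC : Fin n → Fin n → Fin n → Fin n → ℝ) (i j c d : Fin n) :
    (∑ a, (H a i j * C c a d + J a j * ∑ b, dC b c a d * J b i)) -
      (∑ a, (H a j i * C c a d + J a i * ∑ b, dC b c a d * J b j)) +
      ((∑ p, (∑ a, J a i * C c a p) * (∑ b, J b j * C p b d)) -
        ∑ p, (∑ a, J a j * C c a p) * (∑ b, J b i * C p b d)) =
    ∑ a, ∑ b, J a i * J b j * (dC a c b d - dC b c a d +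
      ∑ p, (C c a p * C p b d - C c b p * C p a d)) := by
  have h1 : ∑ a, J a j * ∑ b, dC b c a d * J b i = ∑ a, ∑ b, J a i * J b j * dC a c b d := by
    simp only [Finset.mul_sum]
    rw [Finset.sum_comm]
    refine Finset.sum_congr rfl fun a _ => Finset.sum_congr rfl fun b _ => ?_
    ring
  have h2 : ∑ a, J a i * ∑ b, dC b c a d * J b j = ∑ a, ∑ b, J a i * J b j * dC b c a d := by
    simp only [Finset.mul_sum]
    refine Finset.sum_congr rfl fun a _ => Finset.sum_congr rfl fun b _ => ?_
    ring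
  have h3 : ∑ p, (∑ a, J a i * C c a p) * (∑ b, J b j * C p b d) =
      ∑ a, ∑ b, J a i * J b j * ∑ p, C c a p * C p b d := by
    simp only [Finset.sum_mul_sum]
    simp only [Finset.mul_sum]
    rw [Finset.sum_comm]
    refine Finset.sum_congr rfl fun a _ => ?_
    rw [Finset.sum_comm]
    refine Finset.sum_congr rfl fun b _ => Finset.sum_congr rfl fun p _ => ?_
    ring
  have h4 : ∑ p, (∑ a, J a j * C c a p) * (∑ b, J b i * C p b d) =
      ∑ a, ∑ b, J a i * J b j * ∑ p, C c b p * C p a d := by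
    simp only [Finset.sum_mul_sum]
    simp only [Finset.mul_sum]
    have : ∀ p : Fin n, ∑ a, ∑ b, J a j * C c a p * (J b i * C p b d) =
        ∑ b, ∑ a, J a j * C c a p * (J b i * C p b d) := fun p => Finset.sum_comm
    simp only [this]
    rw [Finset.sum_comm]
    refine Finset.sum_congr rfl fun a _ => ?_
    rw [Finset.sum_comm]
    refine Finset.sum_congr rfl fun b _ => Finset.sum_congr rfl fun p _ => ?_
    ring
  rw [Finset.sum_add_distrib, Finset.sum_add_distrib, h1, h2, h3, h4]
  have h5 : ∀ a, H a j i = H a i j := fun a => hH a j i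
  simp only [h5, Finset.sum_sub_distrib, mul_add, mul_sub, Finset.sum_add_distrib]
  ring
/-- The transformation law of the curvature. -/
theorem Change.om (h : Change U τ g' g) {y : Pt n} (hy : y ∈ U) (i j c k : Fin n) :
    ∑ m, jac τ c m y * CP.om g' i j m k y =
      ∑ d, (∑ a, ∑ b, jac τ a i y * jac τ b j y * CP.om g a b c d (τ y)) * jac τ d k y := by
  -- the matrices
  set J : Matrix (Fin n) (Fin n) ℝ := Matrix.of fun c m => jac τ c m y with hJ
  set JJ : Fin n → Matrix (Fin n) (Fin n) ℝ := fun i => Matrix.of fun c m => pd i (jac τ c m) y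
  set G : Fin n → Matrix (Fin n) (Fin n) ℝ := fun i => Matrix.of fun m k => CP.chr g' m i k y
  set dG : Fin n → Fin n → Matrix (Fin n) (Fin n) ℝ := fun j i =>
    Matrix.of fun m k => pd j (CP.chr g' m i k) y
  set A : Fin n → Matrix (Fin n) (Fin n) ℝ := fun i =>
    Matrix.of fun c d => ∑ a, jac τ a i y * CP.chr g c a d (τ y)
  set dA : Fin n → Fin n → Matrix (Fin n) (Fin n) ℝ := fun j i =>
    Matrix.of fun c d => ∑ a, (pd j (jac τ a i) y * CP.chr g c a d (τ y) +
      jac τ a i y * ∑ b, pd b (CP.chr g c a d) (τ y) * jac τ b j y)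
  set JJ2 : Fin n → Fin n → Matrix (Fin n) (Fin n) ℝ := fun j i =>
    Matrix.of fun c k => pd j (pd i (jac τ c k)) y
  have hch : ∀ z ∈ U, ∀ c i k, ∑ m, jac τ c m z * CP.chr g' m i k z =
      (∑ d, (∑ a, jac τ a i z * CP.chr g c a d (τ z)) * jac τ d k z) + pd i (jac τ c k) z := by
    intro z hz c i k
    rw [h.chr hz c i k]
    congr 1
    simp only [Finset.sum_mul]
    rw [Finset.sum_comm]
    refine Finset.sum_congr rfl fun d _ => Finset.sum_congr rfl fun a _ => ?_
    ring
  have E1 : ∀ i, J * G i = A i * J + JJ i := by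
    intro i
    ext c k
    rw [Matrix.add_apply, Matrix.mul_apply, Matrix.mul_apply]
    exact hch y hy c i k
  have dj : ∀ a i, DifferentiableAt ℝ (jac τ a i) y := fun a i => diffAt (smooth_jac h.smooth hy a i)
  have ddj : ∀ a i j, DifferentiableAt ℝ (pd j (jac τ a i)) y := fun a i j =>
    diffAt_pd (smooth_jac h.smooth hy a i) j
  have dτ : DifferentiableAt ℝ τ y := (h.smooth y hy).differentiableAt (by simp)
  have sc : ∀ c a d, ContDiffAt ℝ ∞ (CP.chr g c a d) (τ y) := fun c a d =>
    smooth_chr (h.metric_smooth y hy) (h.det y hy) c a d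
  have dc : ∀ c a d, DifferentiableAt ℝ (fun z => CP.chr g c a d (τ z)) y := fun c a d =>
    DifferentiableAt.comp y (g := CP.chr g c a d) (diffAt (sc c a d)) dτ
  have dc' : ∀ c a d, DifferentiableAt ℝ (CP.chr g' c a d) y := fun c a d =>
    diffAt (smooth_chr (h.smooth_inv hy) (h.det_ne hy) c a d)
  have dAs : ∀ i c d, DifferentiableAt ℝ (fun z => ∑ a, jac τ a i z * CP.chr g c a d (τ z)) y :=
    fun i c d => DifferentiableAt.fun_sum fun a _ => (dj a i).fun_mul (dc c a d)
  have E2 : ∀ j i, JJ j * G i + J * dG j i = dA j i * J + A i * JJ j + JJ2 j i := by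
    intro j i
    ext c k
    simp only [Matrix.add_apply, Matrix.mul_apply]
    have e1 : pd j (fun z => ∑ m, jac τ c m z * CP.chr g' m i k z) y =
        pd j (fun z => (∑ d, (∑ a, jac τ a i z * CP.chr g c a d (τ z)) * jac τ d k z) +
          pd i (jac τ c k) z) y := by
      refine pd_congr ?_ j
      filter_upwards [eventually_mem h.isOpen hy] with z hz using hch z hz c i k
    rw [pd_sum _ fun m _ => (dj c m).fun_mul (dc' m i k),
      pd_add (DifferentiableAt.fun_sum fun d _ => (dAs i c d).fun_mul (dj d k)) (ddj c k i),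
      pd_sum _ fun d _ => (dAs i c d).fun_mul (dj d k)] at e1
    have e2 : ∀ m, pd j (fun z => jac τ c m z * CP.chr g' m i k z) y =
        pd j (jac τ c m) y * CP.chr g' m i k y + jac τ c m y * pd j (CP.chr g' m i k) y :=
      fun m => pd_mul (dj c m) (dc' m i k) j
    have e3 : ∀ d, pd j (fun z => (∑ a, jac τ a i z * CP.chr g c a d (τ z)) * jac τ d k z) y =
        (∑ a, (pd j (jac τ a i) y * CP.chr g c a d (τ y) +
          jac τ a i y * ∑ b, pd b (CP.chr g c a d) (τ y) * jac τ b j y)) * jac τ d k y +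
        (∑ a, jac τ a i y * CP.chr g c a d (τ y)) * pd j (jac τ d k) y := by
      intro d
      rw [pd_mul (dAs i c d) (dj d k), pd_sum _ fun a _ => (dj a i).fun_mul (dc c a d)]
      congr 2
      refine Finset.sum_congr rfl fun a _ => ?_
      rw [pd_mul (dj a i) (dc c a d), pd_comp dτ (diffAt (sc c a d))]
    have e4 := Finset.sum_congr (rfl : (Finset.univ : Finset (Fin n)) = Finset.univ)
      fun m _ => e2 m
    have e5 := Finset.sum_congr (rfl : (Finset.univ : Finset (Fin n)) = Finset.univ)
      fun d _ => e3 d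
    rw [e4, e5, Finset.sum_add_distrib, Finset.sum_add_distrib] at e1
    exact e1
  have hs : ∀ i j, JJ2 i j = JJ2 j i := by
    intro i j
    ext c k
    exact pd_comm (smooth_jac h.smooth hy c k) i j
  have key := gauge J JJ G A dG dA JJ2 E1 E2 hs i j
  have hk := congrFun (congrFun key c) k
  rw [Matrix.mul_apply, Matrix.mul_apply] at hk
  have hl : ∀ m, (dG i j - dG j i + (G i * G j - G j * G i)) m k = CP.om g' i j m k y := by
    intro m
    simp only [Matrix.add_apply, Matrix.sub_apply, Matrix.mul_apply]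
    rw [← Finset.sum_sub_distrib]
    rfl
  have hr : ∀ d, (dA i j - dA j i + (A i * A j - A j * A i)) c d =
      ∑ a, ∑ b, jac τ a i y * jac τ b j y * CP.om g a b c d (τ y) := by
    intro d
    simp only [Matrix.add_apply, Matrix.sub_apply, Matrix.mul_apply]
    exact om_alg (fun a i => jac τ a i y) (fun a i j => pd i (jac τ a j) y)
      (fun a i j => jac_symm h.smooth hy a i j) (fun c a d => CP.chr g c a d (τ y))
      (fun b c a d => pd b (CP.chr g c a d) (τ y)) i j c d
  simp only [hl, hr] at hk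
  exact hk

/-- The transformation law of the Ricci tensor. -/
theorem Change.ricF (h : Change U τ g' g) {y : Pt n} (hy : y ∈ U) (j k : Fin n) :
    CP.ricF g' j k y = ∑ b, ∑ d, jac τ b j y * jac τ d k y * CP.ricF g b d (τ y) := by
  have hJ := isUnit_iff_ne_zero.2 (h.jac_det y hy)
  set J : Matrix (Fin n) (Fin n) ℝ := Matrix.of fun c m => jac τ c m y with hJd
  set R : Fin n → Fin n → ℝ := fun i c =>
    ∑ d, (∑ a, ∑ b, jac τ a i y * jac τ b j y * CP.om g a b c d (τ y)) * jac τ d k y with hR
  have h1 : ∀ i m, CP.om g' i j m k y = ∑ c, J⁻¹ m c * R i c := by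
    intro i m
    have h2 : ∀ c, R i c = ∑ m, J c m * CP.om g' i j m k y := fun c => (h.om hy i j c k).symm
    simp only [h2]
    exact (sum_inv_mul (h.jac_det y hy) m fun m => CP.om g' i j m k y).symm
  have h3 : ∀ a c, ∑ i, J a i * J⁻¹ i c = dl a c := fun a c => mul_inv_cancel' (h.jac_det y hy) a c
  rw [ricF_eq]
  simp only [h1]
  calc ∑ i, ∑ c, J⁻¹ i c * R i c
      = ∑ c, ∑ a, (∑ i, J a i * J⁻¹ i c) * ∑ b, ∑ d,
          jac τ b j y * jac τ d k y * CP.om g a b c d (τ y) := by
        rw [Finset.sum_comm]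
        refine Finset.sum_congr rfl fun c _ => ?_
        simp only [Finset.sum_mul]
        rw [Finset.sum_comm]
        refine Finset.sum_congr rfl fun i _ => ?_
        rw [hR]
        simp only [Finset.sum_mul, Finset.mul_sum]
        rw [Finset.sum_comm]
        refine Finset.sum_congr rfl fun a _ => ?_
        rw [Finset.sum_comm]
        refine Finset.sum_congr rfl fun b _ => Finset.sum_congr rfl fun d _ => ?_
        simp only [hJd, Matrix.of_apply]
        ring
    _ = ∑ a, ∑ b, ∑ d, jac τ b j y * jac τ d k y * CP.om g a b a d (τ y) := by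
        simp only [h3]
        refine Finset.sum_congr rfl fun c _ => ?_
        exact sum_dl' (fun a => ∑ b, ∑ d, jac τ b j y * jac τ d k y * CP.om g a b c d (τ y)) c
    _ = _ := by
        simp only [ricF_eq, Finset.mul_sum]
        rw [Finset.sum_comm]
        refine Finset.sum_congr rfl fun b _ => ?_
        rw [Finset.sum_comm]

theorem ricSq_trace {g : Met n} {x : Pt n} (h0 : (g x).det ≠ 0) (a : Fin 0 → Fin n) :
    ricSq.eval g a x = ((g x)⁻¹ * (Matrix.of fun i j => CP.ricF g i j x).transpose *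
      ((g x)⁻¹).transpose * (Matrix.of fun i j => CP.ricF g i j x)).trace := by
  rw [ricSq_eval h0]
  simp only [Matrix.trace, Matrix.diag, Matrix.mul_apply, Matrix.transpose_apply, Matrix.of_apply,
    Finset.sum_mul, Finset.mul_sum]
  refine Finset.sum_congr rfl fun i _ => ?_
  rw [Finset.sum_comm]
  refine Finset.sum_congr rfl fun k _ => ?_
  rw [Finset.sum_comm]
  refine Finset.sum_congr rfl fun l _ => Finset.sum_congr rfl fun j _ => ?_
  ring

/-- The scalar `|Ric|²` does not depend on the coordinates. -/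
theorem Change.ricSq (h : Change U τ g' g) {y : Pt n} (hy : y ∈ U) (a : Fin 0 → Fin n) :
    CP.ricSq.eval g' a y = CP.ricSq.eval g a (τ y) := by
  rw [ricSq_trace (h.det_ne hy), ricSq_trace (h.det y hy)]
  have hinv := h.inv_eq hy
  set J : Matrix (Fin n) (Fin n) ℝ := Matrix.of fun c m => jac τ c m y with hJd
  have hR : (Matrix.of fun i j => CP.ricF g' i j y) =
      J.transpose * (Matrix.of fun i j => CP.ricF g i j (τ y)) * J := by
    ext i j
    rw [Matrix.of_apply, h.ricF hy i j, Matrix.mul_apply]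
    simp only [Matrix.mul_apply, Matrix.transpose_apply, Matrix.of_apply, Finset.sum_mul, hJd]
    rw [Finset.sum_comm]
    refine Finset.sum_congr rfl fun a _ => Finset.sum_congr rfl fun b _ => ?_
    ring
  set B := (g' y)⁻¹
  set R : Matrix (Fin n) (Fin n) ℝ := Matrix.of fun i j => CP.ricF g i j (τ y)
  have hinv' : J * B.transpose * J.transpose = ((g (τ y))⁻¹).transpose := by
    rw [← hinv, Matrix.transpose_mul, Matrix.transpose_mul, Matrix.transpose_transpose,
      Matrix.mul_assoc]
  rw [hR, Matrix.transpose_mul, Matrix.transpose_mul, Matrix.transpose_transpose]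
  have e1 : B * (J.transpose * (R.transpose * J)) * B.transpose * (J.transpose * R * J) =
      (B * J.transpose * R.transpose * (J * B.transpose * J.transpose) * R) * J := by
    simp only [Matrix.mul_assoc]
  rw [e1, Matrix.trace_mul_comm, hinv']
  congr 1
  rw [← hinv]
  simp only [Matrix.mul_assoc]

end Pool.Agent.T9h84.CP
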