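import Pool.Agent.T9h84.CP.Pos
import Pool.Agent.T9h84.CP.Tensor2

/-!
# The integral of `Δ |Ric|² dv` over closed manifolds
-/

set_option autoImplicit false
set_option linter.unusedSectionVars false

open scoped BigOperators ContDiff Topology Manifold
open Filter MeasureTheory

namespace Pool.Agent.T9h84.CP

variable {n : ℕ}

theorem smooth_indicator {T K : Set (Pt n)} (hT : IsOpen T) (hK : IsClosed K) (hKT : K ⊆ T)
    {u : Pt n → ℝ} (hu : ∀ y ∈ T, ContDiffAt ℝ ∞ u y) (h0 : ∀ y ∈ T, y ∉ K → u y = 0) :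
    ContDiff ℝ ∞ (T.indicator u) := by
  rw [contDiff_iff_contDiffAt]
  intro y
  by_cases hy : y ∈ T
  · refine (hu y hy).congr_of_eventuallyEq ?_
    filter_upwards [hT.mem_nhds hy] with z hz
    exact Set.indicator_of_mem hz u
  · have hyK : y ∉ K := fun h => hy (hKT h)
    refine (contDiffAt_const (c := (0 : ℝ))).congr_of_eventuallyEq ?_
    filter_upwards [hK.isOpen_compl.mem_nhds hyK] with z hz
    by_cases hzT : z ∈ T
    · rw [Set.indicator_of_mem hzT, h0 z hzT hz]
    · exact Set.indicator_of_notMem hzT u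

theorem integral_div_compact {Y : Fin n → Pt n → ℝ} (hY : ∀ i, ContDiff ℝ ∞ (Y i))
    {K : Set (Pt n)} (hK : IsCompact K) (h0 : ∀ i x, x ∉ K → Y i x = 0) :
    ∫ x, ∑ i, pd i (Y i) x = 0 := by
  cases n with
  | zero => simp
  | succ m =>
    obtain ⟨R, hR⟩ := hK.isBounded.subset_closedBall (0 : Pt (m + 1))
    set R' : ℝ := max R 0 + 1 with hR'
    have hR0 : 0 < R' := by positivity
    have hout : ∀ x : Pt (m + 1), R' ≤ ‖x‖ → x ∉ K := by
      intro x hx h
      have := hR h
      rw [mem_closedBall_zero_iff] at this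
      have h2 : R ≤ max R 0 := le_max_left _ _
      linarith
    have hbox := integral_div_box hY (a := fun _ => -R') (b := fun _ => R')
      (fun _ => by linarith) (fun i y => by
        have e1 : Y i (i.insertNth R' y) = 0 := h0 i _ (hout _ (by
          have := norm_le_pi_norm (i.insertNth R' y : Pt (m + 1)) i
          simp only [Fin.insertNth_apply_same, Real.norm_eq_abs, abs_of_pos hR0] at this
          exact this))
        have e2 : Y i (i.insertNth (-R') y) = 0 := h0 i _ (hout _ (by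
          have := norm_le_pi_norm (i.insertNth (-R') y : Pt (m + 1)) i
          simp only [Fin.insertNth_apply_same, Real.norm_eq_abs, abs_neg, abs_of_pos hR0] at this
          exact this))
        rw [e1, e2])
    rw [← hbox]
    refine (setIntegral_eq_integral_of_forall_compl_eq_zero fun x hx => ?_).symm
    have hxK : x ∉ K := by
      intro h
      apply hx
      have h2 := hR h
      rw [mem_closedBall_zero_iff] at h2
      have h3 : R ≤ max R 0 := le_max_left _ _
      have h4 : ∀ i, |x i| ≤ R' := fun i => (norm_le_pi_norm x i).trans (by linarith)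
      exact ⟨fun i => (abs_le.1 (h4 i)).1, fun i => (abs_le.1 (h4 i)).2⟩
    refine Finset.sum_eq_zero fun i _ => ?_
    have h5 : Y i =ᶠ[𝓝 x] fun _ => 0 := by
      filter_upwards [hK.isClosed.isOpen_compl.mem_nhds hxK] with z hz using h0 i z hz
    rw [pd_congr h5, pd_const]

/-- The density `⟨du, dh⟩ dv`. -/
noncomputable def bb (g : Met n) (u h : Pt n → ℝ) : Pt n → ℝ := fun y =>
  √(g y).det * ∑ a, ∑ b, (g y)⁻¹ a b * pd a u y * pd b h y

/-- The determinant of the Jacobian matrix. -/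
theorem det_fderiv {τ : Pt n → Pt n} {y : Pt n} (hτ : DifferentiableAt ℝ τ y) :
    (fderiv ℝ τ y).det = (Matrix.of fun a i => jac τ a i y).det := by
  rw [ContinuousLinearMap.det, ← LinearMap.det_toMatrix']
  congr 1
  ext a i
  rw [LinearMap.toMatrix'_apply, Matrix.of_apply]
  unfold jac pd
  have h := (hasFDerivAt_pi'.1 hτ.hasFDerivAt) a
  rw [h.fderiv]
  simp

theorem quad_eq (A : Matrix (Fin n) (Fin n) ℝ) (p q : Fin n → ℝ) :
    ∑ a, ∑ b, A a b * p a * q b = p ⬝ᵥ (A.mulVec q) := by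
  simp only [dotProduct, Matrix.mulVec, Finset.mul_sum]
  refine Finset.sum_congr rfl fun a _ => Finset.sum_congr rfl fun b _ => ?_
  ring

theorem Change.bb {U : Set (Pt n)} {τ : Pt n → Pt n} {g' g : Met n} (h : Change U τ g' g)
    {y : Pt n} (hy : y ∈ U) {u' v' u v : Pt n → ℝ}
    (hu : DifferentiableAt ℝ u (τ y)) (hv : DifferentiableAt ℝ v (τ y))
    (hu' : u' =ᶠ[𝓝 y] fun z => u (τ z)) (hv' : v' =ᶠ[𝓝 y] fun z => v (τ z)) :
    CP.bb g' u' v' y = |(fderiv ℝ τ y).det| * CP.bb g u v (τ y) := by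
  have dτ : DifferentiableAt ℝ τ y := (h.smooth y hy).differentiableAt (by simp)
  rw [det_fderiv dτ]
  have hinv := h.inv_eq hy
  set J : Matrix (Fin n) (Fin n) ℝ := Matrix.of fun c m => jac τ c m y with hJd
  have hdet : √(g' y).det = |J.det| * √(g (τ y)).det := by
    rw [h.matrix_eq hy, Matrix.det_mul, Matrix.det_mul, Matrix.det_transpose]
    rw [show J.det * (g (τ y)).det * J.det = J.det ^ 2 * (g (τ y)).det by ring,
      Real.sqrt_mul (sq_nonneg _), Real.sqrt_sq_eq_abs]
  have h1 : ∀ a, pd a u' y = ∑ c, pd c u (τ y) * J c a := fun a => by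
    rw [pd_congr hu', pd_comp dτ hu]
    rfl
  have h2 : ∀ a, pd a v' y = ∑ c, pd c v (τ y) * J c a := fun a => by
    rw [pd_congr hv', pd_comp dτ hv]
    rfl
  unfold CP.bb
  rw [hdet, mul_assoc]
  congr 2
  rw [quad_eq, quad_eq, ← hinv]
  have e1 : (fun a => pd a u' y) = Matrix.vecMul (fun c => pd c u (τ y)) J := by
    funext a
    rw [h1]
    rfl
  have e2 : (fun a => pd a v' y) = J.transpose.mulVec (fun c => pd c v (τ y)) := by
    rw [Matrix.mulVec_transpose]
    funext a
    rw [h2]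
    rfl
  rw [e1, e2, ← Matrix.dotProduct_mulVec, Matrix.mulVec_mulVec, Matrix.mulVec_mulVec,
    Matrix.mul_assoc]

/-! ### Manifolds -/

section manifold

variable {M : Type} [TopologicalSpace M] [ChartedSpace (Pt n) M] [IsManifold 𝓘(ℝ, Pt n) ∞ M]

theorem smooth_co {φ : OpenPartialHomeomorph M (Pt n)} (hφ : φ ∈ atlas (Pt n) M) {u : M → ℝ}
    (hu : ContMDiff 𝓘(ℝ, Pt n) 𝓘(ℝ, ℝ) ∞ u) {y : Pt n} (hy : y ∈ φ.target) :
    ContDiffAt ℝ ∞ (fun z => u (φ.symm z)) y := by
  have h1 : ContMDiffOn 𝓘(ℝ, Pt n) 𝓘(ℝ, Pt n) ∞ φ.symm φ.target :=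
    contMDiffOn_symm_of_mem_maximalAtlas (IsManifold.subset_maximalAtlas hφ)
  have h2 : ContMDiffOn 𝓘(ℝ, Pt n) 𝓘(ℝ, ℝ) ∞ (fun z => u (φ.symm z)) φ.target :=
    hu.comp_contMDiffOn h1
  exact (contMDiffOn_iff_contDiffOn.1 h2).contDiffAt (φ.open_target.mem_nhds hy)

theorem smooth_tr {φ ψ : OpenPartialHomeomorph M (Pt n)} (hφ : φ ∈ atlas (Pt n) M)
    (hψ : ψ ∈ atlas (Pt n) M) {y : Pt n} (hy : y ∈ φ.target ∩ φ.symm ⁻¹' ψ.source) :
    ContDiffAt ℝ ∞ (fun z => ψ (φ.symm z)) y := by
  have h1 : ContMDiffOn 𝓘(ℝ, Pt n) 𝓘(ℝ, Pt n) ∞ φ.symm φ.target :=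
    contMDiffOn_symm_of_mem_maximalAtlas (IsManifold.subset_maximalAtlas hφ)
  have h2 : ContMDiffOn 𝓘(ℝ, Pt n) 𝓘(ℝ, Pt n) ∞ ψ ψ.source :=
    contMDiffOn_of_mem_maximalAtlas (IsManifold.subset_maximalAtlas hψ)
  have h3 : ContMDiffOn 𝓘(ℝ, Pt n) 𝓘(ℝ, Pt n) ∞ (fun z => ψ (φ.symm z))
      (φ.target ∩ φ.symm ⁻¹' ψ.source) := h2.comp' h1
  exact (contMDiffOn_iff_contDiffOn.1 h3).contDiffAt
    ((φ.isOpen_inter_preimage_symm ψ.open_source).mem_nhds hy)

variable {G : OpenPartialHomeomorph M (Pt n) → Met n}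

omit [IsManifold 𝓘(ℝ, Pt n) ∞ M] in
theorem IsRiemannian.symm (hG : IsRiemannian n M G) {φ : OpenPartialHomeomorph M (Pt n)}
    (hφ : φ ∈ atlas (Pt n) M) {y : Pt n} (hy : y ∈ φ.target) (i j : Fin n) :
    G φ y i j = G φ y j i := by
  simpa using ((hG.posDef φ hφ y hy).1.apply i j).symm

omit [IsManifold 𝓘(ℝ, Pt n) ∞ M] in
theorem IsRiemannian.smoothAt (hG : IsRiemannian n M G) {φ : OpenPartialHomeomorph M (Pt n)}
    (hφ : φ ∈ atlas (Pt n) M) {y : Pt n} (hy : y ∈ φ.target) (i j : Fin n) :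
    ContDiffAt ℝ ∞ (fun y => G φ y i j) y :=
  (hG.smooth φ hφ i j).contDiffAt (φ.open_target.mem_nhds hy)

theorem IsRiemannian.change (hG : IsRiemannian n M G) {φ ψ : OpenPartialHomeomorph M (Pt n)}
    (hφ : φ ∈ atlas (Pt n) M) (hψ : ψ ∈ atlas (Pt n) M) :
    Change (φ.target ∩ φ.symm ⁻¹' ψ.source) (fun z => ψ (φ.symm z)) (G φ) (G ψ) := by
  have hmem : ∀ y ∈ φ.target ∩ φ.symm ⁻¹' ψ.source, ψ (φ.symm y) ∈ ψ.target := fun y hy =>
    ψ.map_source hy.2
  have heq : ∀ y ∈ φ.target ∩ φ.symm ⁻¹' ψ.source, ∀ i j, G φ y i j =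
      ∑ a, ∑ b, G ψ (ψ (φ.symm y)) a b * jac (fun z => ψ (φ.symm z)) a i y *
        jac (fun z => ψ (φ.symm z)) b j y := fun y hy i j => hG.compat φ hφ ψ hψ y hy.1 hy.2 i j
  refine ⟨φ.isOpen_inter_preimage_symm ψ.open_source, fun y hy => smooth_tr hφ hψ hy,
    fun y hy a b => hG.smoothAt hψ (hmem y hy) a b, fun y hy => ?_,
    fun y hy => (hG.posDef ψ hψ _ (hmem y hy)).det_pos.ne', fun y hy h0 => ?_, heq⟩
  · filter_upwards [ψ.open_target.mem_nhds (hmem y hy)] with z hz a b using hG.symm hψ hz a b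
  · have h1 := (hG.posDef φ hφ y hy.1).det_pos.ne'
    apply h1
    have h2 : G φ y = (Matrix.of fun a i => jac (fun z => ψ (φ.symm z)) a i y).transpose *
        G ψ (ψ (φ.symm y)) * (Matrix.of fun a i => jac (fun z => ψ (φ.symm z)) a i y) := by
      ext i j
      rw [heq y hy i j, Matrix.mul_apply]
      simp only [Matrix.mul_apply, Matrix.transpose_apply, Matrix.of_apply, Finset.sum_mul]
      rw [Finset.sum_comm]
      refine Finset.sum_congr rfl fun a _ => Finset.sum_congr rfl fun b _ => ?_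
      ring
    rw [h2, Matrix.det_mul, h0, mul_zero]

/-- Change of variables between two charts. -/
theorem integral_change {φ ψ : OpenPartialHomeomorph M (Pt n)} (hφ : φ ∈ atlas (Pt n) M)
    (hψ : ψ ∈ atlas (Pt n) M) {F' F : Pt n → ℝ}
    (hF : ∀ y ∈ φ.target ∩ φ.symm ⁻¹' ψ.source,
      F' y = |(fderiv ℝ (fun z => ψ (φ.symm z)) y).det| * F (ψ (φ.symm y))) :
    ∫ y in φ.target ∩ φ.symm ⁻¹' ψ.source, F' y = ∫ y in ψ.target ∩ ψ.symm ⁻¹' φ.source, F y := by
  set e : OpenPartialHomeomorph (Pt n) (Pt n) := φ.symm.trans ψ with he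
  have hs : e.source = φ.target ∩ φ.symm ⁻¹' ψ.source := by
    rw [he, OpenPartialHomeomorph.trans_source]
    rfl
  have ht : e.target = ψ.target ∩ ψ.symm ⁻¹' φ.source := by
    rw [he, OpenPartialHomeomorph.trans_target]
    rfl
  have hcoe : ∀ y, e y = ψ (φ.symm y) := fun y => rfl
  rw [← ht, ← hs, ← e.image_source_eq_target]
  have hd : ∀ y ∈ e.source, HasFDerivWithinAt e (fderiv ℝ (fun z => ψ (φ.symm z)) y) e.source y :=
    fun y hy => ((smooth_tr hφ hψ (hs ▸ hy)).differentiableAt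
      (by simp)).hasFDerivAt.hasFDerivWithinAt
  rw [integral_image_eq_integral_abs_det_fderiv_smul volume e.open_source.measurableSet hd
    e.injOn F]
  refine setIntegral_congr_fun e.open_source.measurableSet fun y hy => ?_
  rw [hF y (hs ▸ hy)]
  rfl

theorem intOn {T K : Set (Pt n)} (hT : IsOpen T) (hK : IsCompact K) (hKT : K ⊆ T) {f : Pt n → ℝ}
    (hf : ContinuousOn f T) (h0 : ∀ y ∈ T, y ∉ K → f y = 0) : IntegrableOn f T :=
  ((hf.mono hKT).integrableOn_compact hK).of_forall_sdiff_eq_zero hT.measurableSet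
    fun y hy => h0 y hy.1 hy.2

omit [IsManifold 𝓘(ℝ, Pt n) ∞ M] in
/-- smoothness of the scalar in a chart -/
theorem IsRiemannian.smooth_scal (hG : IsRiemannian n M G) {φ : OpenPartialHomeomorph M (Pt n)}
    (hφ : φ ∈ atlas (Pt n) M) {y : Pt n} (hy : y ∈ φ.target) :
    ContDiffAt ℝ ∞ (ricSq.eval (G φ) ![]) y :=
  contDiffAt_eval (fun a b => hG.smoothAt hφ hy a b) (hG.posDef φ hφ y hy).det_pos.ne' _ _

/-- the components of the gradient density in a chart -/
noncomputable def gr (g : Met n) (a : Fin n) : Pt n → ℝ := fun y =>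
  √(g y).det * ∑ b, (g y)⁻¹ a b * pd b (ricSq.eval g ![]) y

omit [IsManifold 𝓘(ℝ, Pt n) ∞ M] in
theorem IsRiemannian.smooth_gr (hG : IsRiemannian n M G) {φ : OpenPartialHomeomorph M (Pt n)}
    (hφ : φ ∈ atlas (Pt n) M) {y : Pt n} (hy : y ∈ φ.target) (a : Fin n) :
    ContDiffAt ℝ ∞ (gr (G φ) a) y := by
  have hA := fun a b => hG.smoothAt hφ hy a b
  have hd := (hG.posDef φ hφ y hy).det_pos.ne'
  exact ((contDiffAt_det hA).sqrt hd).mul (ContDiffAt.sum fun j _ =>
    (contDiffAt_inv hA hd a j).mul (contDiffAt_pd (hG.smooth_scal hφ hy) j))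

omit [TopologicalSpace M] [ChartedSpace (Pt n) M] [IsManifold 𝓘(ℝ, Pt n) ∞ M] in
theorem bb_eq (g : Met n) (u : Pt n → ℝ) (y : Pt n) :
    bb g u (ricSq.eval g ![]) y = ∑ a, pd a u y * gr g a y := by
  unfold bb gr
  simp only [Finset.mul_sum]
  refine Finset.sum_congr rfl fun a _ => Finset.sum_congr rfl fun b _ => ?_
  ring

omit [IsManifold 𝓘(ℝ, Pt n) ∞ M] in
theorem IsRiemannian.form_eq (hG : IsRiemannian n M G) {φ : OpenPartialHomeomorph M (Pt n)}
    (hφ : φ ∈ atlas (Pt n) M) {y : Pt n} (hy : y ∈ φ.target) :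
    form lapRicSq (G φ) y = ∑ a, pd a (gr (G φ) a) y :=
  form_lap_at ricSq (fun a b => hG.smoothAt hφ hy a b) (hG.symm hφ hy)
    (hG.posDef φ hφ y hy).det_pos

section partition

variable [T2Space M] [CompactSpace M] {ι : Type} [Fintype ι]
  {φ : ι → OpenPartialHomeomorph M (Pt n)} {ρ : ι → M → ℝ}

/-- the compact support in the chart -/
def supK (φ : ι → OpenPartialHomeomorph M (Pt n)) (ρ : ι → M → ℝ) (k : ι) : Set (Pt n) :=
  φ k '' tsupport (ρ k)

theorem isCompact_supK (h : IsPartition n M φ ρ) (k : ι) : IsCompact (supK φ ρ k) :=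
  (isClosed_tsupport (ρ k)).isCompact.image_of_continuousOn
    ((φ k).continuousOn.mono (h.supp k))

theorem supK_subset (h : IsPartition n M φ ρ) (k : ι) : supK φ ρ k ⊆ (φ k).target := by
  rintro _ ⟨p, hp, rfl⟩
  exact (φ k).map_source (h.supp k hp)

theorem notMem_supK (k : ι) {y : Pt n} (hy : y ∈ (φ k).target) (hyK : y ∉ supK φ ρ k) :
    (φ k).symm y ∉ tsupport (ρ k) := fun h =>
  hyK ⟨(φ k).symm y, h, (φ k).right_inv hy⟩

/-- vanishing near a point outside the support -/
theorem ev_zero (j k : ι) {y : Pt n} (hy : y ∈ (φ j).target)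
    (hyK : (φ j).symm y ∉ tsupport (ρ k)) :
    (fun z => ρ k ((φ j).symm z)) =ᶠ[𝓝 y] fun _ => 0 := by
  have hc : ContinuousAt (φ j).symm y := (φ j).symm.continuousAt hy
  have h1 : ∀ᶠ z in 𝓝 y, (φ j).symm z ∈ (tsupport (ρ k))ᶜ :=
    hc.eventually ((isClosed_tsupport (ρ k)).isOpen_compl.mem_nhds hyK)
  filter_upwards [h1] with z hz using image_eq_zero_of_notMem_tsupport hz

theorem bb_zero {g : Met n} {u v : Pt n → ℝ} {y : Pt n} (hu : u =ᶠ[𝓝 y] fun _ => 0) :
    bb g u v y = 0 := by
  unfold bb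
  simp only [pd_congr hu, pd_const]
  simp

/-- The integral of `Δ |Ric|² dv` over a closed manifold vanishes. -/
theorem mint_lapRicSq (hG : IsRiemannian n M G) (h : IsPartition n M φ ρ) :
    mint lapRicSq G φ ρ = 0 := by
  set u : ι → ι → Pt n → ℝ := fun k j y => ρ j ((φ k).symm y) with hu
  set s : ι → Pt n → ℝ := fun k => ricSq.eval (G (φ k)) ![] with hs
  have su : ∀ k j, ∀ y ∈ (φ k).target, ContDiffAt ℝ ∞ (u k j) y := fun k j y hy =>
    smooth_co (h.mem k) (h.smooth j) hy
  have ss : ∀ k, ∀ y ∈ (φ k).target, ContDiffAt ℝ ∞ (s k) y := fun k y hy =>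
    hG.smooth_scal (h.mem k) hy
  have sg : ∀ k a, ∀ y ∈ (φ k).target, ContDiffAt ℝ ∞ (gr (G (φ k)) a) y := fun k a y hy =>
    hG.smooth_gr (h.mem k) hy a
  have hu0 : ∀ k, ∀ y ∈ (φ k).target, y ∉ supK φ ρ k → u k k =ᶠ[𝓝 y] fun _ => 0 :=
    fun k y hy hyK => ev_zero k k hy (notMem_supK k hy hyK)
  have cb : ∀ k j, ContinuousOn (bb (G (φ k)) (u k j) (s k)) (φ k).target := by
    intro k j y hy
    have h1 : ContDiffAt ℝ ∞ (fun y => ∑ a, pd a (u k j) y * gr (G (φ k)) a y) y :=
      ContDiffAt.sum fun a _ => (contDiffAt_pd (su k j y hy) a).mul (sg k a y hy)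
    have h2 : bb (G (φ k)) (u k j) (s k) = fun y => ∑ a, pd a (u k j) y * gr (G (φ k)) a y :=
      funext fun y => bb_eq _ _ y
    rw [h2]
    exact h1.continuousAt.continuousWithinAt
  -- integration by parts
  have hA : ∀ k, ∫ y in (φ k).target, ρ k ((φ k).symm y) * form lapRicSq (G (φ k)) y =
      - ∫ y in (φ k).target, bb (G (φ k)) (u k k) (s k) y := by
    intro k
    set Y : Fin n → Pt n → ℝ := fun a => (φ k).target.indicator fun y => u k k y * gr (G (φ k)) a y
    have hYs : ∀ a, ContDiff ℝ ∞ (Y a) := fun a =>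
      smooth_indicator (φ k).open_target (isCompact_supK h k).isClosed (supK_subset h k)
        (fun y hy => (su k k y hy).mul (sg k a y hy)) fun y hy hyK => by
          rw [(hu0 k y hy hyK).eq_of_nhds, zero_mul]
    have hY0 : ∀ a x, x ∉ supK φ ρ k → Y a x = 0 := by
      intro a x hx
      by_cases hxT : x ∈ (φ k).target
      · simp only [Y, Set.indicator_of_mem hxT]
        rw [(hu0 k x hxT hx).eq_of_nhds, zero_mul]
      · exact Set.indicator_of_notMem hxT _
    have h1 := integral_div_compact hYs (isCompact_supK h k) hY0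
    have h2 : ∫ y in (φ k).target, ∑ a, pd a (Y a) y = 0 := by
      rw [← h1]
      refine setIntegral_eq_integral_of_forall_compl_eq_zero fun x hx => ?_
      have hxK : x ∉ supK φ ρ k := fun hK => hx (supK_subset h k hK)
      refine Finset.sum_eq_zero fun a _ => ?_
      have h5 : Y a =ᶠ[𝓝 x] fun _ => 0 := by
        filter_upwards [(isCompact_supK h k).isClosed.isOpen_compl.mem_nhds hxK] with z hz
          using hY0 a z hz
      rw [pd_congr h5, pd_const]
    have h3 : ∀ y ∈ (φ k).target, ∑ a, pd a (Y a) y =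
        bb (G (φ k)) (u k k) (s k) y + ρ k ((φ k).symm y) * form lapRicSq (G (φ k)) y := by
      intro y hy
      rw [hs, bb_eq, hG.form_eq (h.mem k) hy, Finset.mul_sum, ← Finset.sum_add_distrib]
      refine Finset.sum_congr rfl fun a _ => ?_
      have h4 : Y a =ᶠ[𝓝 y] fun y => u k k y * gr (G (φ k)) a y := by
        filter_upwards [(φ k).open_target.mem_nhds hy] with z hz
        exact Set.indicator_of_mem hz _
      rw [pd_congr h4, pd_mul (diffAt (su k k y hy)) (diffAt (sg k a y hy))]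
    have i1 : IntegrableOn (bb (G (φ k)) (u k k) (s k)) (φ k).target :=
      intOn (φ k).open_target (isCompact_supK h k) (supK_subset h k) (cb k k)
        fun y hy hyK => bb_zero (hu0 k y hy hyK)
    have i2 : IntegrableOn (fun y => ρ k ((φ k).symm y) * form lapRicSq (G (φ k)) y)
        (φ k).target := by
      refine intOn (φ k).open_target (isCompact_supK h k) (supK_subset h k) ?_ ?_
      · intro y hy
        have hA := fun a b => hG.smoothAt (h.mem k) hy a b
        have hd := (hG.posDef (φ k) (h.mem k) y hy).det_pos.ne'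
        exact ((su k k y hy).mul (contDiffAt_form hA hd lapRicSq)).continuousAt.continuousWithinAt
      · intro y hy hyK
        have := (hu0 k y hy hyK).eq_of_nhds
        simp only [hu] at this
        rw [this, zero_mul]
    rw [setIntegral_congr_fun (φ k).open_target.measurableSet h3, integral_add i1 i2] at h2
    linarith
  -- insert the partition of unity
  have hone : ∀ k, ∀ y, ∑ j, u k j y = 1 := fun k y => h.sum_one _
  have hB : ∀ k, ∫ y in (φ k).target, bb (G (φ k)) (u k k) (s k) y =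
      ∑ j, ∫ y in (φ k).target, u k j y * bb (G (φ k)) (u k k) (s k) y := by
    intro k
    rw [← integral_finsetSum]
    · refine setIntegral_congr_fun (φ k).open_target.measurableSet fun y _ => ?_
      simp only [← Finset.sum_mul]
      rw [hone, one_mul]
    · intro j _
      refine intOn (φ k).open_target (isCompact_supK h k) (supK_subset h k) ?_ ?_
      · intro y hy
        exact (su k j y hy).continuousAt.continuousWithinAt.mul (cb k k y hy)
      · intro y hy hyK
        rw [bb_zero (hu0 k y hy hyK), mul_zero]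
  -- change the chart
  have hC : ∀ k j, ∫ y in (φ k).target, u k j y * bb (G (φ k)) (u k k) (s k) y =
      ∫ y in (φ j).target, u j j y * bb (G (φ j)) (u j k) (s j) y := by
    intro k j
    have hch := hG.change (h.mem k) (h.mem j)
    have e1 : ∫ y in (φ k).target, u k j y * bb (G (φ k)) (u k k) (s k) y =
        ∫ y in (φ k).target ∩ (φ k).symm ⁻¹' (φ j).source,
          u k j y * bb (G (φ k)) (u k k) (s k) y := by
      refine (setIntegral_eq_of_subset_of_forall_sdiff_eq_zero (φ k).open_target.measurableSet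
        Set.inter_subset_left fun y hy => ?_)
      have : (φ k).symm y ∉ (φ j).source := fun hh => hy.2 ⟨hy.1, hh⟩
      have h0 : u k j y = 0 := image_eq_zero_of_notMem_tsupport (f := ρ j) (x := (φ k).symm y)
        fun hh => this (h.supp j hh)
      rw [h0, zero_mul]
    have e2 : ∫ y in (φ j).target, u j j y * bb (G (φ j)) (u j k) (s j) y =
        ∫ y in (φ j).target ∩ (φ j).symm ⁻¹' (φ k).source,
          u j j y * bb (G (φ j)) (u j k) (s j) y := by
      refine (setIntegral_eq_of_subset_of_forall_sdiff_eq_zero (φ j).open_target.measurableSet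
        Set.inter_subset_left fun y hy => ?_)
      have h1 : (φ j).symm y ∉ (φ k).source := fun hh => hy.2 ⟨hy.1, hh⟩
      have h0 : bb (G (φ j)) (u j k) (s j) y = 0 :=
        bb_zero (ev_zero j k hy.1 fun hh => h1 (h.supp k hh))
      rw [h0, mul_zero]
    rw [e1, e2]
    refine integral_change (h.mem k) (h.mem j) fun y hy => ?_
    have hmem : φ j ((φ k).symm y) ∈ (φ j).target := (φ j).map_source hy.2
    have hev : ∀ᶠ z in 𝓝 y, z ∈ (φ k).target ∩ (φ k).symm ⁻¹' (φ j).source :=
      ((φ k).isOpen_inter_preimage_symm (φ j).open_source).mem_nhds hy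
    have hinv : ∀ z ∈ (φ k).target ∩ (φ k).symm ⁻¹' (φ j).source,
        (φ j).symm (φ j ((φ k).symm z)) = (φ k).symm z := fun z hz => (φ j).left_inv hz.2
    have hbb := hch.bb hy (u := u j k) (v := s j) (u' := u k k) (v' := s k)
      (diffAt (su j k _ hmem)) (diffAt (ss j _ hmem))
      (by
        filter_upwards [hev] with z hz
        simp only [hu]
        rw [hinv z hz])
      (by
        filter_upwards [hev] with z hz
        exact hch.ricSq hz _)
    rw [hbb]
    have h7 : u j j (φ j ((φ k).symm y)) = u k j y := by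
      simp only [hu]
      rw [hinv y hy]
    rw [h7]
    ring
  have hD : ∀ j, ∑ k, ∫ y in (φ j).target, u j j y * bb (G (φ j)) (u j k) (s j) y = 0 := by
    intro j
    rw [← integral_finsetSum]
    · rw [setIntegral_congr_fun (g := fun _ => (0 : ℝ)) (φ j).open_target.measurableSet]
      · simp
      · intro y hy
        simp only [← Finset.mul_sum]
        have h8 : ∑ k, bb (G (φ j)) (u j k) (s j) y = 0 := by
          simp only [hs, bb_eq]
          rw [Finset.sum_comm]
          refine Finset.sum_eq_zero fun a _ => ?_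
          rw [← Finset.sum_mul, ← pd_sum _ fun k _ => diffAt (su j k y hy)]
          have h9 : (fun y => ∑ k, u j k y) = fun _ => 1 := funext fun y => hone j y
          rw [h9, pd_const, zero_mul]
        rw [h8, mul_zero]
    · intro k _
      refine intOn (φ j).open_target (isCompact_supK h j) (supK_subset h j) ?_ ?_
      · intro y hy
        exact (su j j y hy).continuousAt.continuousWithinAt.mul (cb j k y hy)
      · intro y hy hyK
        rw [(hu0 j y hy hyK).eq_of_nhds, zero_mul]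
  unfold mint
  rw [Finset.sum_congr rfl fun k _ => hA k, Finset.sum_neg_distrib, neg_eq_zero,
    Finset.sum_congr rfl fun k _ => hB k,
    Finset.sum_congr rfl fun k _ => Finset.sum_congr rfl fun j _ => hC k j, Finset.sum_comm]
  exact Finset.sum_eq_zero fun j _ => hD j

theorem IsRiemannian.mconf (hG : IsRiemannian n M G) {w : M → ℝ}
    (hw : ContMDiff 𝓘(ℝ, Pt n) 𝓘(ℝ, ℝ) ∞ w) : IsRiemannian n M (CP.mconf w G) where
  smooth φ hφ i j := by
    intro y hy
    have h1 : (fun y => CP.mconf w G φ y i j) =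
        fun y => Real.exp (2 * w (φ.symm y)) * G φ y i j := by
      ext y
      simp [CP.mconf, conf]
    rw [h1]
    have h2 : ContDiffAt ℝ ∞ (fun y => 2 * w (φ.symm y)) y :=
      contDiffAt_const.mul (smooth_co hφ hw hy)
    exact (h2.exp.mul (hG.smoothAt hφ hy i j)).contDiffWithinAt
  posDef φ hφ y hy := (hG.posDef φ hφ y hy).smul (Real.exp_pos _)
  compat φ hφ ψ hψ y hy hyψ i j := by
    have h1 : ∀ (χ : OpenPartialHomeomorph M (Pt n)) z a b, CP.mconf w G χ z a b =
        Real.exp (2 * w (χ.symm z)) * G χ z a b := fun χ z a b => by simp [CP.mconf, conf]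
    simp only [h1, ψ.left_inv hyψ]
    rw [hG.compat φ hφ ψ hψ y hy hyψ i j, Finset.mul_sum]
    refine Finset.sum_congr rfl fun a _ => ?_
    rw [Finset.mul_sum]
    refine Finset.sum_congr rfl fun b _ => ?_
    ring

end partition

end manifold

theorem confInvClosed_lapRicSq (n : ℕ) : ConfInvClosed n lapRicSq := by
  intro M _ _ _ _ _ G hG w hw ι _ φ ρ h
  rw [mint_lapRicSq (hG.mconf hw) h, mint_lapRicSq hG h]

end Pool.Agent.T9h84.CP
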