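import Mathlib

/-!
# Natural forms of Riemannian metrics on `ℝ^n`

Tensor calculus in coordinates: Christoffel symbols, covariant derivatives, the Riemann tensor,
and the natural tensors, which are built from the metric, its inverse, the Riemann tensor and
covariant derivatives.
-/

set_option autoImplicit false

open scoped BigOperators ContDiff Topology

namespace Pool.Agent.T9h84.CP

/-- The points of `ℝ^n`. -/
abbrev Pt (n : ℕ) : Type := Fin n → ℝ

/-- The metrics are given by their matrices of coefficients. -/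
abbrev Met (n : ℕ) : Type := Pt n → Matrix (Fin n) (Fin n) ℝ

variable {n : ℕ}

/-- The partial derivative `∂_i f`. -/
noncomputable def pd (i : Fin n) (f : Pt n → ℝ) : Pt n → ℝ :=
  fun x => fderiv ℝ f x (Pi.single i 1)

/-- `g` is a smooth Riemannian metric on `ℝ^n`. -/
structure IsMetric (g : Met n) : Prop where
  smooth : ∀ i j, ContDiff ℝ ∞ fun x => g x i j
  posDef : ∀ x, (g x).PosDef

/-- The conformal metric `e^{2w} g`. -/
noncomputable def conf (w : Pt n → ℝ) (g : Met n) : Met n := fun x => Real.exp (2 * w x) • g x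

/-- The Christoffel symbol
`Γ^k_{ij} = (1/2) ∑_l g^{kl} (∂_i g_{jl} + ∂_j g_{il} - ∂_l g_{ij})`. -/
noncomputable def chr (g : Met n) (k i j : Fin n) : Pt n → ℝ := fun x =>
  1 / 2 * ∑ l, (g x)⁻¹ k l *
    (pd i (fun y => g y j l) x + pd j (fun y => g y i l) x - pd l (fun y => g y i j) x)

/-- The components of a covariant `k`-tensor field. -/
abbrev Ten (n k : ℕ) : Type := (Fin k → Fin n) → Pt n → ℝ

/-- The covariant derivative `∇ T` of a covariant tensor field; the new index comes first:
`(∇T)_{i a_1 ... a_k} = ∂_i T_{a_1 ... a_k} - ∑_p ∑_l Γ^l_{i a_p} T_{a_1 ... l ... a_k}`. -/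
noncomputable def nab (g : Met n) {k : ℕ} (T : Ten n k) : Ten n (k + 1) := fun a x =>
  pd (a 0) (T (Fin.tail a)) x -
    ∑ p : Fin k, ∑ l, chr g l (a 0) (a p.succ) x * T (Function.update (Fin.tail a) p l) x

/-- The Riemann tensor `R_{ijkl} = ⟨R(∂_i, ∂_j) ∂_k, ∂_l⟩`, that is
`R_{ijkl} = ∑_m g_{lm} (∂_i Γ^m_{jk} - ∂_j Γ^m_{ik} + ∑_p (Γ^m_{ip} Γ^p_{jk} - Γ^m_{jp} Γ^p_{ik}))`. -/
noncomputable def riem (g : Met n) : Ten n 4 := fun a x =>
  ∑ m, g x (a 3) m * (pd (a 0) (chr g m (a 1) (a 2)) x - pd (a 1) (chr g m (a 0) (a 2)) x +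
    ∑ p, (chr g m (a 0) p x * chr g p (a 1) (a 2) x - chr g m (a 1) p x * chr g p (a 0) (a 2) x))

/-- Expressions for natural covariant tensors with `k` indices: everything that can be built
from the metric, its inverse (in contractions), the Riemann tensor and covariant derivatives by
linear combinations, tensor products, permutations of the indices and contractions. For `k = 0`
these are the universal scalar polynomials in the metric, its inverse, the Riemann tensor and its
covariant derivatives. -/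
inductive NatTen : ℕ → Type
  /-- the constant scalar `1` -/
  | one : NatTen 0
  /-- the metric `g_{ij}` -/
  | metric : NatTen 2
  /-- the Riemann tensor `R_{ijkl}` -/
  | riem : NatTen 4
  /-- sums -/
  | add {k : ℕ} : NatTen k → NatTen k → NatTen k
  /-- real multiples -/
  | smul {k : ℕ} : ℝ → NatTen k → NatTen k
  /-- tensor products -/
  | mul {k l : ℕ} : NatTen k → NatTen l → NatTen (k + l)
  /-- permutations of the indices -/
  | perm {k : ℕ} : Equiv.Perm (Fin k) → NatTen k → NatTen k
  /-- the covariant derivative -/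
  | nabla {k : ℕ} : NatTen k → NatTen (k + 1)
  /-- contraction of the first two indices with the inverse metric -/
  | contr {k : ℕ} : NatTen (k + 2) → NatTen k

/-- The value of a natural tensor for the metric `g`. -/
noncomputable def NatTen.eval (g : Met n) : {k : ℕ} → NatTen k → Ten n k
  | _, .one => fun _ _ => 1
  | _, .metric => fun a x => g x (a 0) (a 1)
  | _, .riem => CP.riem g
  | _, .add s t => fun a x => s.eval g a x + t.eval g a x
  | _, .smul c t => fun a x => c * t.eval g a x
  | _, .mul (k := k) (l := l) s t =>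
      fun a x => s.eval g (a ∘ Fin.castAdd l) x * t.eval g (a ∘ Fin.natAdd k) x
  | _, .perm σ t => fun a x => t.eval g (a ∘ σ) x
  | _, .nabla t => nab g (t.eval g)
  | _, .contr t => fun a x => ∑ i, ∑ j, (g x)⁻¹ i j * t.eval g (Fin.cons i (Fin.cons j a)) x

/-- The natural `n`-form `s_g dv_g` of the natural scalar `s`, as a density: the function
`s_g √(det g)`. -/
noncomputable def form (s : NatTen 0) (g : Met n) : Pt n → ℝ := fun x =>
  s.eval g ![] x * √(g x).det

/-! ### The natural form `Δ |Ric|² dv` -/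

/-- The permutation `0 ↦ 0, 1 ↦ 2, 2 ↦ 3, 3 ↦ 1` of the four indices, used for the Ricci
contraction: `(perm sig riem)_{i l j k} = R_{i j k l}`. -/
def sig : Equiv.Perm (Fin 4) where
  toFun := ![0, 2, 3, 1]
  invFun := ![0, 3, 1, 2]
  left_inv := by decide
  right_inv := by decide

/-- The Ricci tensor `Ric_{jk} = g^{il} R_{ijkl}`. -/
def ricT : NatTen 2 := .contr (.perm sig .riem)

/-- The scalar `|Ric|² = g^{ij} g^{kl} Ric_{ki} Ric_{lj}`. -/
def ricSq : NatTen 0 := .contr (.contr (.perm (Equiv.swap 1 2) (.mul ricT ricT)))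

/-- The scalar `Δ |Ric|² = g^{ij} ∇_i ∇_j |Ric|²`. -/
def lapRicSq : NatTen 0 := .contr (.nabla (.nabla ricSq))

/-! ### Conformal invariance and primitives -/

/-- `L` is a local conformal invariant: `L_{ĝ} = L_g` for the metrics `ĝ = e^{2w} g`. -/
def IsLocalInvariant (n : ℕ) (L : NatTen 0) : Prop :=
  ∀ g : Met n, IsMetric g → ∀ w : Pt n → ℝ, ContDiff ℝ ∞ w → ∀ x,
    form L (conf w g) x = form L g x

/-- `Q` is a natural form with the transformation law `Q_{ĝ} = Q_g + P_g w` of the critical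
`Q`-curvature, for some operators `P_g` which are linear (over `ℝ`) on smooth functions. -/
def HasQLaw (n : ℕ) (Q : NatTen 0) : Prop :=
  ∃ P : Met n → (Pt n → ℝ) → Pt n → ℝ,
    (∀ g, IsMetric g → ∀ u v : Pt n → ℝ, ContDiff ℝ ∞ u → ContDiff ℝ ∞ v → ∀ (a b : ℝ) (x : Pt n),
      P g (fun y => a * u y + b * v y) x = a * P g u x + b * P g v x) ∧
    ∀ g, IsMetric g → ∀ w : Pt n → ℝ, ContDiff ℝ ∞ w → ∀ x,
      form Q (conf w g) x = form Q g x + P g w x

/-- `f` is invariant under the translations by `ℤ^n`, that is, `f` is a function on the torus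
`ℝ^n / ℤ^n`. -/
def IsPeriodic {α : Type*} (f : Pt n → α) : Prop :=
  ∀ (m : Fin n → ℤ) (x : Pt n), f (fun i => x i + m i) = f x

/-- The fundamental domain `[0, 1]^n` of the torus. -/
def cube (n : ℕ) : Set (Pt n) := Set.Icc 0 1

/-- The integral of the natural form `s` over the torus `ℝ^n / ℤ^n` is conformally invariant. -/
def ConfInvTorus (n : ℕ) (s : NatTen 0) : Prop :=
  ∀ g : Met n, IsMetric g → IsPeriodic g → ∀ w : Pt n → ℝ, ContDiff ℝ ∞ w → IsPeriodic w →
    ∫ x in cube n, form s (conf w g) x = ∫ x in cube n, form s g x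

/-- The integral of the natural form `s` does not change under compactly supported conformal
changes of any metric on `ℝ^n`. -/
def ConfInvLocal (n : ℕ) (s : NatTen 0) : Prop :=
  ∀ g : Met n, IsMetric g → ∀ w : Pt n → ℝ, ContDiff ℝ ∞ w → HasCompactSupport w →
    MeasureTheory.Integrable (fun x => form s (conf w g) x - form s g x) ∧
    ∫ x, (form s (conf w g) x - form s g x) = 0

/-- The natural form `F` is a conformal primitive of the density `γ` on the torus `ℝ^n / ℤ^n`:
the derivative of `∫ F` along the metrics `e^{2εw} g` at `ε = 0` is `∫ w γ_g`. -/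
def IsPrimitiveTorus (n : ℕ) (F : NatTen 0) (γ : Met n → Pt n → ℝ) : Prop :=
  ∀ g : Met n, IsMetric g → IsPeriodic g → ∀ w : Pt n → ℝ, ContDiff ℝ ∞ w → IsPeriodic w →
    HasDerivAt (fun ε : ℝ => ∫ x in cube n, form F (conf (fun y => ε * w y) g) x)
      (∫ x in cube n, w x * γ g x) 0

/-! ### Closed manifolds -/

open scoped Manifold

/-- A Riemannian metric on a manifold `M` modelled on `ℝ^n`, given by its matrices of coefficients
`G φ : φ.target → ℝ^{n × n}` in the charts `φ` of the atlas; they are smooth, positive definite and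
transform as a covariant 2-tensor under the changes of charts `τ = ψ ∘ φ⁻¹`:
`(G φ)_{ij} = ∑_{a,b} (G ψ)_{ab}(τ) ∂_i τ^a ∂_j τ^b`. -/
structure IsRiemannian (n : ℕ) (M : Type) [TopologicalSpace M] [ChartedSpace (Pt n) M]
    (G : OpenPartialHomeomorph M (Pt n) → Met n) : Prop where
  smooth : ∀ φ ∈ atlas (Pt n) M, ∀ i j, ContDiffOn ℝ ∞ (fun y => G φ y i j) φ.target
  posDef : ∀ φ ∈ atlas (Pt n) M, ∀ y ∈ φ.target, (G φ y).PosDef
  compat : ∀ φ ∈ atlas (Pt n) M, ∀ ψ ∈ atlas (Pt n) M, ∀ y ∈ φ.target, φ.symm y ∈ ψ.source →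
    ∀ i j, G φ y i j = ∑ a, ∑ b, G ψ (ψ (φ.symm y)) a b *
      pd i (fun z => ψ (φ.symm z) a) y * pd j (fun z => ψ (φ.symm z) b) y

/-- The metric `e^{2w} g` on the manifold `M`. -/
noncomputable def mconf {n : ℕ} {M : Type} [TopologicalSpace M] (w : M → ℝ)
    (G : OpenPartialHomeomorph M (Pt n) → Met n) : OpenPartialHomeomorph M (Pt n) → Met n :=
  fun φ => conf (fun y => w (φ.symm y)) (G φ)

/-- A smooth partition of unity `∑_k ρ_k = 1` on `M` with finitely many members, and charts `φ_k`
of the atlas such that the support of `ρ_k` is contained in the domain of `φ_k`. -/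
structure IsPartition (n : ℕ) (M : Type) [TopologicalSpace M] [ChartedSpace (Pt n) M]
    {ι : Type} [Fintype ι] (φ : ι → OpenPartialHomeomorph M (Pt n)) (ρ : ι → M → ℝ) : Prop where
  mem : ∀ k, φ k ∈ atlas (Pt n) M
  smooth : ∀ k, ContMDiff 𝓘(ℝ, Pt n) 𝓘(ℝ, ℝ) ∞ (ρ k)
  supp : ∀ k, tsupport (ρ k) ⊆ (φ k).source
  sum_one : ∀ p, ∑ k, ρ k p = 1

/-- The integral over `M` of the natural form `s` for the metric `G`, computed with a partition of
unity: `∑_k ∫_{φ_k.target} ρ_k(φ_k⁻¹(y)) s_{G φ_k}(y) dy`. -/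
noncomputable def mint {n : ℕ} {M : Type} [TopologicalSpace M] (s : NatTen 0)
    (G : OpenPartialHomeomorph M (Pt n) → Met n) {ι : Type} [Fintype ι]
    (φ : ι → OpenPartialHomeomorph M (Pt n)) (ρ : ι → M → ℝ) : ℝ :=
  ∑ k, ∫ y in (φ k).target, ρ k ((φ k).symm y) * form s (G (φ k)) y

/-- The integral of the natural form `s` over every closed Riemannian `n`-manifold is conformally
invariant. -/
def ConfInvClosed (n : ℕ) (s : NatTen 0) : Prop :=
  ∀ (M : Type) [TopologicalSpace M] [T2Space M] [CompactSpace M] [ChartedSpace (Pt n) M]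
    [IsManifold 𝓘(ℝ, Pt n) ∞ M] (G : OpenPartialHomeomorph M (Pt n) → Met n),
    IsRiemannian n M G → ∀ w : M → ℝ, ContMDiff 𝓘(ℝ, Pt n) 𝓘(ℝ, ℝ) ∞ w →
    ∀ (ι : Type) [Fintype ι] (φ : ι → OpenPartialHomeomorph M (Pt n)) (ρ : ι → M → ℝ),
      IsPartition n M φ ρ → mint s (mconf w G) φ ρ = mint s G φ ρ

end Pool.Agent.T9h84.CP
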