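import Pool.Agent.T9h84.CP.Flat

/-!
# The divergence in coordinates
-/

set_option autoImplicit false

open scoped BigOperators ContDiff Topology
open Filter

namespace Pool.Agent.T9h84.CP

variable {n : ℕ}

theorem pd_prod {ι : Type*} [DecidableEq ι] (s : Finset ι) {f : ι → Pt n → ℝ} {x : Pt n}
    (hf : ∀ a ∈ s, DifferentiableAt ℝ (f a) x) (i : Fin n) :
    pd i (fun y => ∏ a ∈ s, f a y) x = ∑ a ∈ s, (∏ b ∈ s.erase a, f b x) * pd i (f a) x := by
  unfold pd
  rw [fderiv_finsetProd hf]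
  simp

/-- Jacobi's formula. -/
theorem pd_det {A : Met n} {x : Pt n} (hA : ∀ a b, DifferentiableAt ℝ (fun y => A y a b) x)
    (i : Fin n) : pd i (fun y => (A y).det) x =
      ∑ a, ∑ b, (A x).adjugate b a * pd i (fun y => A y a b) x := by
  have h1 : (fun y => (A y).det) = fun y => ∑ σ : Equiv.Perm (Fin n),
      ((Equiv.Perm.sign σ : ℤ) : ℝ) * ∏ k, A y (σ k) k := by
    ext y
    rw [Matrix.det_apply']
  have hd : ∀ σ : Equiv.Perm (Fin n), DifferentiableAt ℝ (fun y => ∏ k, A y (σ k) k) x := by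
    intro σ
    have := HasFDerivAt.finsetProd (u := Finset.univ) (g := fun k y => A y (σ k) k) (x := x)
      fun k _ => (hA (σ k) k).hasFDerivAt
    exact this.differentiableAt
  rw [h1, pd_sum _ fun σ _ => (hd σ).const_mul _]
  have h2 : ∀ σ : Equiv.Perm (Fin n),
      pd i (fun y => ((Equiv.Perm.sign σ : ℤ) : ℝ) * ∏ k, A y (σ k) k) x =
      ∑ k, ((Equiv.Perm.sign σ : ℤ) : ℝ) *
        ((∏ l ∈ Finset.univ.erase k, A x (σ l) l) * pd i (fun y => A y (σ k) k) x) := by
    intro σ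
    rw [pd_const_mul _ (hd σ), pd_prod _ fun k _ => hA (σ k) k, Finset.mul_sum]
  rw [Finset.sum_congr rfl fun σ _ => h2 σ, Finset.sum_comm]
  rw [Finset.sum_comm (f := fun a b => (A x).adjugate b a * pd i (fun y => A y a b) x)]
  refine Finset.sum_congr rfl fun k _ => ?_
  have h3 : ∑ a, (A x).adjugate k a * pd i (fun y => A y a k) x =
      ((A x).updateCol k (fun a => pd i (fun y => A y a k) x)).det := by
    rw [← Matrix.cramer_apply, Matrix.cramer_eq_adjugate_mulVec]
    rfl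
  rw [h3, Matrix.det_apply']
  refine Finset.sum_congr rfl fun σ _ => ?_
  congr 1
  rw [← Finset.mul_prod_erase Finset.univ _ (Finset.mem_univ k)]
  rw [Matrix.updateCol_self, mul_comm]
  congr 1
  refine Finset.prod_congr rfl fun j hj => ?_
  rw [Matrix.updateCol_ne (Finset.ne_of_mem_erase hj)]

/-- smoothness of the entries of the inverse matrix at a point -/
theorem contDiffAt_inv {A : Met n} {x : Pt n} (hA : ∀ a b, ContDiffAt ℝ ∞ (fun y => A y a b) x)
    (h0 : (A x).det ≠ 0) (a b : Fin n) : ContDiffAt ℝ ∞ (fun y => (A y)⁻¹ a b) x :=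
  (JS.matInv (W := ℝ) (G := fun _ => A) (z := (0, x)) (fun i j => JS.of_contDiff (hA i j))
    h0 a b).contDiffAt_right

theorem contDiffAt_det {A : Met n} {x : Pt n} (hA : ∀ a b, ContDiffAt ℝ ∞ (fun y => A y a b) x) :
    ContDiffAt ℝ ∞ (fun y => (A y).det) x :=
  (JS.det (W := ℝ) (G := fun _ => A) (z := (0, x))
    (fun i j => JS.of_contDiff (hA i j))).contDiffAt_right

theorem contDiffAt_eval {g : Met n} {x : Pt n} (hA : ∀ a b, ContDiffAt ℝ ∞ (fun y => g y a b) x)
    (h0 : (g x).det ≠ 0) {k : ℕ} (t : NatTen k) (a : Fin k → Fin n) :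
    ContDiffAt ℝ ∞ (t.eval g a) x :=
  (JS.eval (W := ℝ) (G := fun _ => g) (z := (0, x))
    (fun i j => JS.of_contDiff (hA i j)) h0 t a).contDiffAt_right

theorem contDiffAt_form {g : Met n} {x : Pt n} (hA : ∀ a b, ContDiffAt ℝ ∞ (fun y => g y a b) x)
    (h0 : (g x).det ≠ 0) (s : NatTen 0) : ContDiffAt ℝ ∞ (form s g) x :=
  (JS.form (W := ℝ) (G := fun _ => g) (z := (0, x))
    (fun i j => JS.of_contDiff (hA i j)) h0 s).contDiffAt_right

theorem inv_mul_cancel' {A : Matrix (Fin n) (Fin n) ℝ} (h : A.det ≠ 0) (i j : Fin n) :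
    ∑ k, A⁻¹ i k * A k j = dl i j := by
  have := congrFun (congrFun (Matrix.nonsing_inv_mul A (isUnit_iff_ne_zero.2 h)) i) j
  rw [Matrix.mul_apply, Matrix.one_apply] at this
  exact this

theorem mul_inv_cancel' {A : Matrix (Fin n) (Fin n) ℝ} (h : A.det ≠ 0) (i j : Fin n) :
    ∑ k, A i k * A⁻¹ k j = dl i j := by
  have := congrFun (congrFun (Matrix.mul_nonsing_inv A (isUnit_iff_ne_zero.2 h)) i) j
  rw [Matrix.mul_apply, Matrix.one_apply] at this
  exact this

theorem eventually_det {A : Met n} {x : Pt n} (hA : ∀ a b, ContDiffAt ℝ ∞ (fun y => A y a b) x)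
    (h0 : (A x).det ≠ 0) : ∀ᶠ y in 𝓝 x, (A y).det ≠ 0 :=
  (contDiffAt_det hA).continuousAt.eventually_ne h0

/-- derivative of the inverse matrix -/
theorem pd_inv {A : Met n} {x : Pt n} (hA : ∀ a b, ContDiffAt ℝ ∞ (fun y => A y a b) x)
    (h0 : (A x).det ≠ 0) (i a b : Fin n) : pd i (fun y => (A y)⁻¹ a b) x =
      - ∑ c, ∑ d, (A x)⁻¹ a c * pd i (fun y => A y c d) x * (A x)⁻¹ d b := by
  have hI : ∀ a b, DifferentiableAt ℝ (fun y => (A y)⁻¹ a b) x := fun a b =>
    diffAt (contDiffAt_inv hA h0 a b)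
  have h1 : ∀ d, ∑ c, (pd i (fun y => (A y)⁻¹ a c) x * A x c d +
      (A x)⁻¹ a c * pd i (fun y => A y c d) x) = 0 := by
    intro d
    have e1 : pd i (fun y => ∑ c, (A y)⁻¹ a c * A y c d) x = 0 := by
      rw [pd_congr (h := fun _ => dl a d), pd_const]
      filter_upwards [eventually_det hA h0] with y hy
      exact inv_mul_cancel' hy a d
    rw [pd_sum _ fun c _ => (hI a c).fun_mul (diffAt (hA c d))] at e1
    rw [← e1]
    refine Finset.sum_congr rfl fun c _ => ?_
    rw [pd_mul (hI a c) (diffAt (hA c d))]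
  have h2 : ∑ d, (∑ c, (pd i (fun y => (A y)⁻¹ a c) x * A x c d +
      (A x)⁻¹ a c * pd i (fun y => A y c d) x)) * (A x)⁻¹ d b = 0 := by
    simp only [h1, zero_mul, Finset.sum_const_zero]
  simp only [Finset.sum_add_distrib, add_mul, Finset.sum_mul] at h2
  rw [Finset.sum_comm] at h2
  have h3 : ∑ c, ∑ d, pd i (fun y => (A y)⁻¹ a c) x * A x c d * (A x)⁻¹ d b =
      pd i (fun y => (A y)⁻¹ a b) x := by
    simp only [mul_assoc, ← Finset.mul_sum, mul_inv_cancel' h0]
    simp [dl]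
  rw [h3, Finset.sum_comm] at h2
  linarith

/-- derivative of the volume density -/
theorem pd_sqrt_det {A : Met n} {x : Pt n} (hA : ∀ a b, ContDiffAt ℝ ∞ (fun y => A y a b) x)
    (h0 : 0 < (A x).det) (i : Fin n) : pd i (fun y => √(A y).det) x =
      1 / 2 * √(A x).det * ∑ a, ∑ b, (A x)⁻¹ b a * pd i (fun y => A y a b) x := by
  have hd : DifferentiableAt ℝ (fun y => (A y).det) x := diffAt (contDiffAt_det hA)
  have h1 : pd i (fun y => √(A y).det) x = 1 / (2 * √(A x).det) * pd i (fun y => (A y).det) x := by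
    unfold pd
    rw [fderiv_sqrt hd h0.ne']
    simp
  rw [h1, pd_det (fun a b => diffAt (hA a b))]
  have h2 : ∀ a b, (A x).adjugate b a = (A x).det * (A x)⁻¹ b a := by
    intro a b
    rw [Matrix.inv_def, Matrix.smul_apply, Ring.inverse_eq_inv', smul_eq_mul, ← mul_assoc,
      mul_inv_cancel₀ h0.ne', one_mul]
  simp only [h2, mul_assoc, ← Finset.mul_sum]
  have h3 : √(A x).det * √(A x).det = (A x).det := Real.mul_self_sqrt h0.le
  have h4 : √(A x).det ≠ 0 := by positivity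
  field_simp
  rw [pow_two, h3]

theorem div_alg (B : Fin n → Fin n → ℝ) (hB : ∀ i j, B i j = B j i)
    (dg : Fin n → Fin n → Fin n → ℝ) (V : Fin n → ℝ)
    (dV : Fin n → Fin n → ℝ) (D : ℝ) :
    (∑ i, ∑ j, B i j * (dV i j - ∑ l, (1 / 2 * ∑ m, B l m * (dg i j m + dg j i m - dg m i j)) *
        V l)) * D =
      ∑ i, ((1 / 2 * D * ∑ a, ∑ b, B b a * dg i a b) * (∑ j, B i j * V j) +
        D * ∑ j, ((- ∑ c, ∑ d, B i c * dg i c d * B d j) * V j + B i j * dV i j)) := by
  set X := ∑ i, ∑ j, ∑ l, ∑ m, B i j * B l m * dg i j m * V l with hXd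
  set Y := ∑ i, ∑ j, ∑ l, ∑ m, B i j * B l m * dg m i j * V l with hYd
  have hX' : ∑ i, ∑ j, ∑ l, ∑ m, B i j * B l m * dg j i m * V l = X := by
    rw [hXd, Finset.sum_comm]
    refine Finset.sum_congr rfl fun i _ => Finset.sum_congr rfl fun j _ =>
      Finset.sum_congr rfl fun l _ => Finset.sum_congr rfl fun m _ => ?_
    rw [hB i j]
  have h0 : ∀ i j, B i j * (dV i j - ∑ l, (1 / 2 * ∑ m, B l m *
      (dg i j m + dg j i m - dg m i j)) * V l) = B i j * dV i j - ∑ l, ∑ m,
        (1 / 2 * (B i j * B l m * dg i j m * V l) + 1 / 2 * (B i j * B l m * dg j i m * V l)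
        - 1 / 2 * (B i j * B l m * dg m i j * V l)) := by
    intro i j
    rw [mul_sub, Finset.mul_sum]
    congr 1
    refine Finset.sum_congr rfl fun l _ => ?_
    rw [Finset.mul_sum, Finset.sum_mul, Finset.mul_sum]
    refine Finset.sum_congr rfl fun m _ => ?_
    ring
  have h1 : ∑ i, ∑ j, B i j * (dV i j - ∑ l, (1 / 2 * ∑ m, B l m *
      (dg i j m + dg j i m - dg m i j)) * V l) =
      ∑ i, ∑ j, B i j * dV i j - (1 / 2 * X + 1 / 2 * X - 1 / 2 * Y) := by
    simp only [h0]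
    simp only [Finset.sum_sub_distrib, Finset.sum_add_distrib, ← Finset.mul_sum]
    rw [hX']
  have h2 : ∑ i, (1 / 2 * D * ∑ a, ∑ b, B b a * dg i a b) * (∑ j, B i j * V j) =
      1 / 2 * D * Y := by
    rw [hYd]
    simp only [mul_assoc, ← Finset.mul_sum]
    congr 2
    simp only [Finset.sum_mul]
    rw [Finset.sum_comm]
    refine Finset.sum_congr rfl fun a _ => ?_
    rw [Finset.sum_comm]
    refine Finset.sum_congr rfl fun b _ => ?_
    simp only [Finset.mul_sum]
    rw [Finset.sum_comm]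
    refine Finset.sum_congr rfl fun j _ => ?_
    refine Finset.sum_congr rfl fun i _ => ?_
    rw [hB b a, hB i j]
    ring
  have h3 : ∑ i, D * ∑ j, ((- ∑ c, ∑ d, B i c * dg i c d * B d j) * V j + B i j * dV i j) =
      D * (∑ i, ∑ j, B i j * dV i j - X) := by
    rw [← Finset.mul_sum]
    congr 1
    simp only [Finset.sum_add_distrib, neg_mul, Finset.sum_neg_distrib]
    rw [hXd, sub_eq_add_neg, add_comm]
    congr 2
    refine Finset.sum_congr rfl fun i _ => ?_
    simp only [Finset.sum_mul]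
    rw [Finset.sum_comm]
    refine Finset.sum_congr rfl fun a _ => ?_
    refine Finset.sum_congr rfl fun b _ => ?_
    refine Finset.sum_congr rfl fun c _ => ?_
    rw [hB c b]
    ring
  rw [h1, Finset.sum_add_distrib, h2, h3]
  ring

theorem nab_one (g : Met n) (V : Ten n 1) (i j : Fin n) (x : Pt n) :
    nab g V ![i, j] x = pd i (V ![j]) x - ∑ l, chr g l i j x * V ![l] x := by
  unfold nab
  have h1 : Fin.tail ![i, j] = ![j] := rfl
  have h2 : ∀ l, Function.update (Fin.tail ![i, j]) (0 : Fin 1) l = ![l] := by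
    intro l
    ext a
    fin_cases a
    simp
  rw [Fin.sum_univ_one]
  simp only [h2]
  rfl

theorem inv_symm {A : Matrix (Fin n) (Fin n) ℝ} (hA : ∀ i j, A i j = A j i) (i j : Fin n) :
    A⁻¹ i j = A⁻¹ j i := by
  have h : A.transpose = A := by
    ext i j
    exact hA j i
  have h2 : (A⁻¹).transpose = A⁻¹ := by rw [Matrix.transpose_nonsing_inv, h]
  exact congrFun (congrFun h2.symm i) j

/-- The divergence formula. -/
theorem form_div_at (V : NatTen 1) {g : Met n} {x : Pt n}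
    (hA : ∀ a b, ContDiffAt ℝ ∞ (fun y => g y a b) x) (hsym : ∀ i j, g x i j = g x j i)
    (hdet : 0 < (g x).det) :
    form (.contr (.nabla V)) g x =
      ∑ i, pd i (fun y => √(g y).det * ∑ j, (g y)⁻¹ i j * V.eval g ![j] y) x := by
  have hI : ∀ a b, DifferentiableAt ℝ (fun y => (g y)⁻¹ a b) x := fun a b =>
    diffAt (contDiffAt_inv hA hdet.ne' a b)
  have hV : ∀ j, DifferentiableAt ℝ (V.eval g ![j]) x := fun j =>
    diffAt (contDiffAt_eval hA hdet.ne' V _)
  have hD : DifferentiableAt ℝ (fun y => √(g y).det) x :=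
    diffAt ((contDiffAt_det hA).sqrt hdet.ne')
  have h1 : ∀ i, pd i (fun y => √(g y).det * ∑ j, (g y)⁻¹ i j * V.eval g ![j] y) x =
      (1 / 2 * √(g x).det * ∑ a, ∑ b, (g x)⁻¹ b a * pd i (fun y => g y a b) x) *
        (∑ j, (g x)⁻¹ i j * V.eval g ![j] x) +
      √(g x).det * ∑ j, ((- ∑ c, ∑ d, (g x)⁻¹ i c * pd i (fun y => g y c d) x * (g x)⁻¹ d j) *
        V.eval g ![j] x + (g x)⁻¹ i j * pd i (V.eval g ![j]) x) := by
    intro i
    have hs : DifferentiableAt ℝ (fun y => ∑ j, (g y)⁻¹ i j * V.eval g ![j] y) x :=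
      DifferentiableAt.fun_sum fun j _ => (hI i j).fun_mul (hV j)
    rw [pd_mul hD hs, pd_sqrt_det hA hdet, pd_sum _ fun j _ => (hI i j).fun_mul (hV j)]
    congr 2
    refine Finset.sum_congr rfl fun j _ => ?_
    rw [pd_mul (hI i j) (hV j), pd_inv hA hdet.ne']
  rw [Finset.sum_congr rfl fun i _ => h1 i]
  rw [← div_alg (fun i j => (g x)⁻¹ i j) (fun i j => inv_symm hsym i j)
    (fun i a b => pd i (fun y => g y a b) x) (fun j => V.eval g ![j] x)
    (fun i j => pd i (V.eval g ![j]) x) (√(g x).det)]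
  unfold form
  congr 1
  change ∑ i, ∑ j, (g x)⁻¹ i j * nab g (V.eval g) ![i, j] x = _
  simp only [nab_one]
  rfl

theorem IsMetric.symm {g : Met n} (hg : IsMetric g) (x : Pt n) (i j : Fin n) :
    g x i j = g x j i := by
  have := (hg.posDef x).1.apply i j
  simpa using this.symm

theorem IsMetric.det_pos {g : Met n} (hg : IsMetric g) (x : Pt n) : 0 < (g x).det :=
  (hg.posDef x).det_pos

theorem form_div (V : NatTen 1) {g : Met n} (hg : IsMetric g) (x : Pt n) :
    form (.contr (.nabla V)) g x =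
      ∑ i, pd i (fun y => √(g y).det * ∑ j, (g y)⁻¹ i j * V.eval g ![j] y) x :=
  form_div_at V (fun a b => (hg.smooth a b).contDiffAt) (hg.symm x) (hg.det_pos x)

end Pool.Agent.T9h84.CP
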