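import Pool.Agent.T9h84.CP.Smooth

/-!
# Conformally flat metrics
-/

set_option autoImplicit false

open scoped BigOperators ContDiff Topology
open Filter

namespace Pool.Agent.T9h84.CP

variable {n : ℕ}

/-! ### Rules for partial derivatives -/

theorem pd_add {f h : Pt n → ℝ} {x : Pt n} (hf : DifferentiableAt ℝ f x)
    (hh : DifferentiableAt ℝ h x) (i : Fin n) :
    pd i (fun y => f y + h y) x = pd i f x + pd i h x := by
  unfold pd
  rw [fderiv_fun_add hf hh]
  rfl

theorem pd_sub {f h : Pt n → ℝ} {x : Pt n} (hf : DifferentiableAt ℝ f x)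
    (hh : DifferentiableAt ℝ h x) (i : Fin n) :
    pd i (fun y => f y - h y) x = pd i f x - pd i h x := by
  unfold pd
  rw [fderiv_fun_sub hf hh]
  rfl

theorem pd_mul {f h : Pt n → ℝ} {x : Pt n} (hf : DifferentiableAt ℝ f x)
    (hh : DifferentiableAt ℝ h x) (i : Fin n) :
    pd i (fun y => f y * h y) x = pd i f x * h x + f x * pd i h x := by
  unfold pd
  rw [fderiv_fun_mul hf hh]
  simp
  ring

theorem pd_const (c : ℝ) (i : Fin n) (x : Pt n) : pd i (fun _ => c) x = 0 := by
  simp [pd]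

theorem pd_const_mul {f : Pt n → ℝ} {x : Pt n} (c : ℝ) (hf : DifferentiableAt ℝ f x)
    (i : Fin n) : pd i (fun y => c * f y) x = c * pd i f x := by
  rw [pd_mul (differentiableAt_const c) hf, pd_const]
  ring

theorem pd_sum {ι : Type*} (s : Finset ι) {f : ι → Pt n → ℝ} {x : Pt n}
    (hf : ∀ a ∈ s, DifferentiableAt ℝ (f a) x) (i : Fin n) :
    pd i (fun y => ∑ a ∈ s, f a y) x = ∑ a ∈ s, pd i (f a) x := by
  unfold pd
  rw [fderiv_fun_sum hf]
  simp

theorem pd_exp {f : Pt n → ℝ} {x : Pt n} (hf : DifferentiableAt ℝ f x) (i : Fin n) :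
    pd i (fun y => Real.exp (f y)) x = Real.exp (f x) * pd i f x := by
  unfold pd
  rw [fderiv_exp hf]
  simp

theorem pd_comm {f : Pt n → ℝ} {x : Pt n} (hf : ContDiffAt ℝ ∞ f x) (i j : Fin n) :
    pd i (pd j f) x = pd j (pd i f) x := dir_comm hf _ _

theorem contDiffAt_pd {f : Pt n → ℝ} {x : Pt n} (hf : ContDiffAt ℝ ∞ f x) (i : Fin n) :
    ContDiffAt ℝ ∞ (pd i f) x := contDiffAt_dir hf _

theorem diffAt_pd {f : Pt n → ℝ} {x : Pt n} (hf : ContDiffAt ℝ ∞ f x) (i : Fin n) :
    DifferentiableAt ℝ (pd i f) x := (contDiffAt_pd hf i).differentiableAt (by simp)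

theorem diffAt {f : Pt n → ℝ} {x : Pt n} (hf : ContDiffAt ℝ ∞ f x) :
    DifferentiableAt ℝ f x := hf.differentiableAt (by simp)

/-! ### Conformally flat metrics -/

/-- The Kronecker symbol. -/
def dl (i j : Fin n) : ℝ := if i = j then 1 else 0

/-- The flat metric. -/
def flat : Met n := fun _ => 1

theorem conf_flat_apply (v : Pt n → ℝ) (x : Pt n) (i j : Fin n) :
    conf v flat x i j = dl i j * Real.exp (2 * v x) := by
  simp [conf, flat, Matrix.one_apply, dl]

theorem det_conf_flat (v : Pt n → ℝ) (x : Pt n) :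
    (conf v flat x).det = Real.exp (2 * v x) ^ n := by
  simp [conf, flat]

theorem inv_conf_flat (v : Pt n → ℝ) (x : Pt n) (i j : Fin n) :
    (conf v flat x)⁻¹ i j = dl i j * Real.exp (-(2 * v x)) := by
  have h : (conf v flat x)⁻¹ = Real.exp (-(2 * v x)) • (1 : Matrix (Fin n) (Fin n) ℝ) := by
    apply Matrix.inv_eq_right_inv
    rw [conf, flat, Matrix.smul_mul, Matrix.mul_smul, one_mul, smul_smul, ← Real.exp_add]
    simp
  rw [h]
  simp [Matrix.one_apply, dl]

theorem pd_conf_flat {v : Pt n → ℝ} {x : Pt n} (hv : ContDiffAt ℝ ∞ v x) (i j l : Fin n) :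
    pd i (fun y => conf v flat y j l) x = dl j l * (Real.exp (2 * v x) * (2 * pd i v x)) := by
  have : (fun y => conf v flat y j l) = fun y => dl j l * Real.exp (2 * v y) := by
    ext y; rw [conf_flat_apply]
  have hd : DifferentiableAt ℝ (fun y => 2 * v y) x := (diffAt hv).const_mul 2
  rw [this, pd_const_mul _ hd.exp, pd_exp hd, pd_const_mul _ (diffAt hv)]

theorem sum_dl (f : Fin n → ℝ) (k : Fin n) : ∑ l, dl k l * f l = f k := by
  simp [dl]

theorem sum_dl' (f : Fin n → ℝ) (k : Fin n) : ∑ l, dl l k * f l = f k := by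
  simp [dl]

theorem chr_conf_flat {v : Pt n → ℝ} {x : Pt n} (hv : ContDiffAt ℝ ∞ v x) (k i j : Fin n) :
    chr (conf v flat) k i j x = dl k i * pd j v x + dl k j * pd i v x - dl i j * pd k v x := by
  unfold chr
  simp only [inv_conf_flat, pd_conf_flat hv, mul_assoc, sum_dl]
  have he : Real.exp (-(2 * v x)) * Real.exp (2 * v x) = 1 := by
    rw [← Real.exp_add]; simp
  have e1 : dl j k = dl k j := by simp [dl, eq_comm]
  have e2 : dl i k = dl k i := by simp [dl, eq_comm]
  rw [e1, e2]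
  linear_combination (dl k j * pd i v x + dl k i * pd j v x - dl i j * pd k v x) * he

theorem eventually_smooth {f : Pt n → ℝ} {x : Pt n} {U : Set (Pt n)} (hU : IsOpen U) (hx : x ∈ U)
    (hf : ∀ y ∈ U, ContDiffAt ℝ ∞ f y) : ∀ᶠ y in 𝓝 x, ContDiffAt ℝ ∞ f y := by
  filter_upwards [hU.mem_nhds hx] with y hy using hf y hy

theorem pd_congr {f h : Pt n → ℝ} {x : Pt n} (hfh : f =ᶠ[𝓝 x] h) (i : Fin n) :
    pd i f x = pd i h x := by
  unfold pd
  rw [hfh.fderiv_eq]

theorem pd_chr_conf_flat {v : Pt n → ℝ} {x : Pt n} (hv : ContDiff ℝ ∞ v) (m k i j : Fin n) :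
    pd m (chr (conf v flat) k i j) x =
      dl k i * pd m (pd j v) x + dl k j * pd m (pd i v) x - dl i j * pd m (pd k v) x := by
  have h1 : chr (conf v flat) k i j = fun y =>
      dl k i * pd j v y + dl k j * pd i v y - dl i j * pd k v y := by
    ext y
    exact chr_conf_flat hv.contDiffAt k i j
  have hd : ∀ j, DifferentiableAt ℝ (pd j v) x := fun j => diffAt_pd hv.contDiffAt j
  have h2 : DifferentiableAt ℝ (fun y => dl k i * pd j v y + dl k j * pd i v y) x := by
    have := hd j
    have := hd i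
    fun_prop
  rw [h1, pd_sub h2 ((hd k).const_mul _),
    pd_add ((hd j).const_mul _) ((hd i).const_mul _), pd_const_mul _ (hd j),
    pd_const_mul _ (hd i), pd_const_mul _ (hd k)]

/-- The Ricci tensor as a function of the Christoffel symbols. -/
noncomputable def ricF (g : Met n) (j k : Fin n) : Pt n → ℝ := fun x =>
  ∑ i, (pd i (chr g i j k) x - pd j (chr g i i k) x +
    ∑ p, (chr g i i p x * chr g p j k x - chr g i j p x * chr g p i k x))

theorem ric_alg (a : Fin n → ℝ) (H : Fin n → Fin n → ℝ) (hH : ∀ i j, H i j = H j i)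
    (j k : Fin n) :
    ∑ i, (dl i j * H i k + dl i k * H i j - dl j k * H i i -
        (dl i i * H j k + dl i k * H j i - dl i k * H j i) +
      ∑ p, ((dl i i * a p + dl i p * a i - dl i p * a i) *
          (dl p j * a k + dl p k * a j - dl j k * a p) -
        (dl i j * a p + dl i p * a j - dl j p * a i) *
          (dl p i * a k + dl p k * a i - dl i k * a p))) =
      -((n : ℝ) - 2) * (H j k - a j * a k)
        - dl j k * ((∑ i, H i i) + ((n : ℝ) - 2) * ∑ i, a i ^ 2) := by
  simp only [dl, mul_add, add_mul, mul_sub, sub_mul, Finset.sum_add_distrib,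
    Finset.sum_sub_distrib, ite_mul, mul_ite, one_mul, zero_mul, mul_zero,
    Finset.sum_ite_eq, Finset.sum_ite_eq', Finset.mem_univ, if_true, Finset.sum_const, Finset.card_univ, Fintype.card_fin, nsmul_eq_mul]
  by_cases hjk : j = k
  · subst hjk
    simp [Finset.sum_add_distrib, pow_two, Finset.mul_sum]
    simp only [← Finset.mul_sum]
    ring
  · have : k ≠ j := fun h => hjk h.symm
    simp [hjk, this, hH k j]
    ring

theorem ricF_conf_flat {v : Pt n → ℝ} {x : Pt n} (hv : ContDiff ℝ ∞ v) (j k : Fin n) :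
    ricF (conf v flat) j k x =
      -((n : ℝ) - 2) * (pd j (pd k v) x - pd j v x * pd k v x)
        - dl j k * ((∑ i, pd i (pd i v) x) + ((n : ℝ) - 2) * ∑ i, pd i v x ^ 2) := by
  unfold ricF
  simp only [pd_chr_conf_flat hv, chr_conf_flat hv.contDiffAt]
  exact ric_alg (fun i => pd i v x) (fun i j => pd i (pd j v) x)
    (fun i j => pd_comm hv.contDiffAt i j) j k

end Pool.Agent.T9h84.CP
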