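import Pool.Agent.T9h84.CP.Var

/-!
# The form `Δ |Ric|² dv`
-/

set_option autoImplicit false

open scoped BigOperators ContDiff Topology
open Filter MeasureTheory

namespace Pool.Agent.T9h84.CP

variable {n : ℕ}

theorem eval_contr (g : Met n) {k : ℕ} (t : NatTen (k + 2)) (a : Fin k → Fin n) (x : Pt n) :
    (NatTen.contr t).eval g a x =
      ∑ i, ∑ j, (g x)⁻¹ i j * t.eval g (Fin.cons i (Fin.cons j a)) x := rfl

theorem eval_perm (g : Met n) {k : ℕ} (σ : Equiv.Perm (Fin k)) (t : NatTen k)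
    (a : Fin k → Fin n) (x : Pt n) : (NatTen.perm σ t).eval g a x = t.eval g (a ∘ σ) x := rfl

theorem eval_riem (g : Met n) (a : Fin 4 → Fin n) (x : Pt n) :
    NatTen.riem.eval g a x = riem g a x := rfl

theorem eval_mul (g : Met n) {k l : ℕ} (s : NatTen k) (t : NatTen l) (a : Fin (k + l) → Fin n)
    (x : Pt n) : (NatTen.mul s t).eval g a x =
      s.eval g (a ∘ Fin.castAdd l) x * t.eval g (a ∘ Fin.natAdd k) x := rfl

theorem sum_inv_mul {A : Matrix (Fin n) (Fin n) ℝ} (h : A.det ≠ 0) (i : Fin n)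
    (K : Fin n → ℝ) : ∑ l, A⁻¹ i l * ∑ m, A l m * K m = K i := by
  simp only [Finset.mul_sum]
  rw [Finset.sum_comm]
  simp only [← mul_assoc, ← Finset.sum_mul, inv_mul_cancel' h]
  exact sum_dl _ i

theorem ricT_eval {g : Met n} {x : Pt n} (h0 : (g x).det ≠ 0) (j k : Fin n) :
    ricT.eval g ![j, k] x = ricF g j k x := by
  have h1 : ∀ i l : Fin n, (Fin.cons i (Fin.cons l ![j, k]) : Fin (2 + 2) → Fin n) ∘ sig =
      ![i, j, k, l] := by
    intro i l
    ext a
    fin_cases a <;> rfl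
  unfold ricT
  rw [eval_contr]
  simp only [eval_perm, h1, eval_riem]
  unfold riem ricF
  refine Finset.sum_congr rfl fun i _ => ?_
  exact sum_inv_mul h0 i fun m => pd i (chr g m j k) x - pd j (chr g m i k) x +
    ∑ p, (chr g m i p x * chr g p j k x - chr g m j p x * chr g p i k x)

theorem ricSq_eval {g : Met n} {x : Pt n} (h0 : (g x).det ≠ 0) (a : Fin 0 → Fin n) :
    ricSq.eval g a x = ∑ i, ∑ j, (g x)⁻¹ i j * ∑ k, ∑ l, (g x)⁻¹ k l *
      (ricF g k i x * ricF g l j x) := by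
  have h1 : ∀ i j k l : Fin n,
      ((Fin.cons k (Fin.cons l (Fin.cons i (Fin.cons j a))) : Fin (2 + 2) → Fin n) ∘
        (Equiv.swap 1 2 : Equiv.Perm (Fin (2 + 2)))) ∘ Fin.castAdd 2 = ![k, i] := by
    intro i j k l
    ext b
    fin_cases b <;> rfl
  have h2 : ∀ i j k l : Fin n,
      ((Fin.cons k (Fin.cons l (Fin.cons i (Fin.cons j a))) : Fin (2 + 2) → Fin n) ∘
        (Equiv.swap 1 2 : Equiv.Perm (Fin (2 + 2)))) ∘ Fin.natAdd 2 = ![l, j] := by
    intro i j k l
    ext b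
    fin_cases b <;> rfl
  unfold ricSq
  rw [eval_contr]
  refine Finset.sum_congr rfl fun i _ => Finset.sum_congr rfl fun j _ => ?_
  rw [eval_contr]
  congr 1
  refine Finset.sum_congr rfl fun k _ => Finset.sum_congr rfl fun l _ => ?_
  rw [eval_perm, eval_mul]
  rw [h1, h2, ricT_eval h0, ricT_eval h0]

theorem nabla_eval_zero (g : Met n) (s : NatTen 0) (j : Fin n) (x : Pt n) :
    (NatTen.nabla s).eval g ![j] x = pd j (s.eval g ![]) x := by
  change nab g (s.eval g) ![j] x = _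
  unfold nab
  rw [Finset.univ_eq_empty, Finset.sum_empty, sub_zero]
  rfl

/-- The Laplacian of a natural scalar as a divergence. -/
theorem form_lap_at (s : NatTen 0) {g : Met n} {x : Pt n}
    (hA : ∀ a b, ContDiffAt ℝ ∞ (fun y => g y a b) x) (hsym : ∀ i j, g x i j = g x j i)
    (hdet : 0 < (g x).det) :
    form (.contr (.nabla (.nabla s))) g x =
      ∑ i, pd i (fun y => √(g y).det * ∑ j, (g y)⁻¹ i j * pd j (s.eval g ![]) y) x := by
  rw [form_div_at _ hA hsym hdet]
  simp only [nabla_eval_zero]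

/-! ### The value for conformally flat metrics -/

/-- The Ricci tensor of `e^{2v} δ`. -/
noncomputable def rho (v : Pt n → ℝ) (j k : Fin n) : Pt n → ℝ := fun x =>
  -((n : ℝ) - 2) * (pd j (pd k v) x - pd j v x * pd k v x)
        - dl j k * ((∑ i, pd i (pd i v) x) + ((n : ℝ) - 2) * ∑ i, pd i v x ^ 2)

theorem det_conf_flat_pos (v : Pt n → ℝ) (x : Pt n) : 0 < (conf v flat x).det := by
  rw [det_conf_flat]; positivity

theorem ricSq_conf_flat {v : Pt n → ℝ} (hv : ContDiff ℝ ∞ v) (x : Pt n) :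
    ricSq.eval (conf v flat) ![] x = Real.exp (-(2 * v x)) ^ 2 * ∑ i, ∑ k, rho v k i x ^ 2 := by
  rw [ricSq_eval (det_conf_flat_pos v x).ne']
  simp only [inv_conf_flat, ricF_conf_flat hv, mul_assoc, sum_dl]
  simp only [← Finset.mul_sum]
  rw [pow_two (Real.exp _), mul_assoc]
  simp only [← pow_two]
  rfl

end Pool.Agent.T9h84.CP
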