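import Pool.Agent.T9h84.CP.Pos

/-!
# No primitive on the torus
-/

set_option autoImplicit false

open scoped BigOperators ContDiff Topology
open Filter MeasureTheory

namespace Pool.Agent.T9h84.CP

variable {n : ℕ}

theorem isMetric_flat : IsMetric (flat : Met n) where
  smooth _ _ := contDiff_const
  posDef _ := Matrix.PosDef.one

theorem isPeriodic_flat : IsPeriodic (flat : Met n) := fun _ _ => rfl

theorem isPeriodic_comb {w : Fin 3 → Pt n → ℝ} (hp : ∀ a, IsPeriodic (w a)) (p : Fin 3 → ℝ) :
    IsPeriodic (comb w p) := by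
  intro m x
  unfold comb
  refine Finset.sum_congr rfl fun a _ => ?_
  rw [hp a m x]

/-- `dp` of a function which is affine in the parameter -/
theorem dp_affine (r0 : Pt n → ℝ) (r : Fin 3 → Pt n → ℝ)
    (h : ∀ z, JS (fun (p : Fin 3 → ℝ) x => r0 x + ∑ a, p a * r a x) z) (u : Fin 3 → ℝ) :
    dp u (fun (p : Fin 3 → ℝ) x => r0 x + ∑ a, p a * r a x) = fun _ x => ∑ a, u a * r a x := by
  funext p x
  rw [dp_eq_deriv h]
  have h1 : (fun t : ℝ => r0 x + ∑ a, (p + t • u) a * r a x) = fun t =>
      (r0 x + ∑ a, p a * r a x) + t * ∑ a, u a * r a x := by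
    ext t
    simp only [Pi.add_apply, Pi.smul_apply, smul_eq_mul, add_mul, Finset.sum_add_distrib,
      Finset.mul_sum, mul_assoc]
    ring
  rw [h1]
  have h2 : HasDerivAt (fun t : ℝ => (r0 x + ∑ a, p a * r a x) + t * ∑ a, u a * r a x)
      (1 * ∑ a, u a * r a x) 0 :=
    ((hasDerivAt_id (0 : ℝ)).mul_const _).const_add _
  rw [h2.deriv, one_mul]

theorem dp_const (r : Pt n → ℝ) (u : Fin 3 → ℝ) :
    dp u (fun (_ : Fin 3 → ℝ) x => r x) = fun _ _ => 0 := by
  funext p x
  simp [dp]

/-- The key identity: if a combination of `Δ|Ric|² dv`, a `Q`-curvature and a local invariant has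
a conformal primitive on the torus, then the second variation at the flat metric is symmetric. -/
theorem symm_of_primitive {s Q L F : NatTen 0} (hQ : HasQLaw n Q) (hL : IsLocalInvariant n L)
    (c : ℝ) (hF : IsPrimitiveTorus n F fun g x => form s g x - c * form Q g x - form L g x)
    {w : Fin 3 → Pt n → ℝ} (hw : ∀ a, ContDiff ℝ ∞ (w a)) (hp : ∀ a, IsPeriodic (w a))
    (a b e : Fin 3) :
    ∫ x in cube n, w a x * dp (ee e) (dp (ee b) (fun p => form s (fam w p))) 0 x =
      ∫ x in cube n, w b x * dp (ee e) (dp (ee a) (fun p => form s (fam w p))) 0 x := by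
  obtain ⟨P, hlin, hlaw⟩ := hQ
  set γ : (Fin 3 → ℝ) → Pt n → ℝ := fun p x =>
    form s (fam w p) x - c * form Q (fam w p) x - form L (fam w p) x with hγ
  have hJ : ∀ (s : NatTen 0) z, JS (fun p => form s (fam w p)) z := fun s z => JS_form hw s z
  have hJγ : ∀ z, JS γ z := fun z => ((hJ s z).sub ((JS.const c).mul (hJ Q z))).sub (hJ L z)
  have hfam : ∀ p, IsMetric (fam w p) ∧ IsPeriodic (fam w p) := fun p =>
    ⟨isMetric_flat.conf (contDiff_comb hw p), isPeriodic_flat.conf (isPeriodic_comb hp p)⟩
  have hder : ∀ (a : Fin 3) p, HasDerivAt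
      (fun t : ℝ => ∫ x in cube n, form F (fam w (p + t • ee a)) x)
      (∫ x in cube n, w a x * γ p x) 0 := by
    intro a p
    have := hF (fam w p) (hfam p).1 (hfam p).2 (w a) (hw a) (hp a)
    simp only [conf_fam] at this
    exact this
  have key := closed_second (hJ F) hJγ isCompact_Icc (hw a) (hw b) (hder a) (hder b) (ee e) 0
  -- the contributions of `Q` and `L` vanish
  have hQf : (fun p => form Q (fam w p)) = fun p x => form Q flat x + ∑ a, p a * P flat (w a) x := by
    funext p x
    rw [fam, hlaw flat isMetric_flat _ (contDiff_comb hw p)]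
    congr 1
    have e1 : comb w p = fun y => 1 * (fun y => p 0 * w 0 y + p 1 * w 1 y) y + p 2 * w 2 y := by
      ext y
      simp only [comb, Fin.sum_univ_three]
      ring
    rw [e1, hlin flat isMetric_flat _ _ ((contDiff_const.mul (hw 0)).add (contDiff_const.mul (hw 1)))
      (hw 2), hlin flat isMetric_flat _ _ (hw 0) (hw 1), Fin.sum_univ_three]
    ring
  have hLf : (fun p => form L (fam w p)) = fun _ x => form L flat x := by
    funext p x
    rw [fam, hL flat isMetric_flat _ (contDiff_comb hw p)]
  have hdd : ∀ (u v : Fin 3 → ℝ) (x : Pt n), dp u (dp v γ) 0 x =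
      dp u (dp v (fun p => form s (fam w p))) 0 x := by
    intro u v x
    have h1 : dp v γ = fun p x => dp v (fun p => form s (fam w p)) p x +
        (-c) * ∑ a, v a * P flat (w a) x := by
      funext p x
      have e1 : γ = fun p x => (form s (fam w p) x + (-c) * form Q (fam w p) x) +
          (-1) * form L (fam w p) x := by
        funext p x
        simp only [hγ]
        ring
      have jQ : JS (fun p x => (-c) * form Q (fam w p) x) (p, x) := (JS.const _).mul (hJ Q _)
      have jL : JS (fun p x => (-1) * form L (fam w p) x) (p, x) := (JS.const _).mul (hJ L _)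
      have e2 := dp_add (z := (p, x)) ((hJ s _).add jQ) jL v
      have e3 := dp_add (z := (p, x)) (hJ s _) jQ v
      have e4 := dp_mul (z := (p, x)) (f := fun _ _ => (-c)) (JS.const _) (hJ Q _) v
      have e5 := dp_mul (z := (p, x)) (f := fun _ _ => (-1)) (JS.const _) (hJ L _) v
      simp only [dp_const (fun _ => -c), dp_const (fun _ => (-1 : ℝ)), zero_mul, zero_add]
        at e2 e3 e4 e5
      have e6 : dp v (fun p => form L (fam w p)) p x = 0 := by
        rw [hLf, dp_const]
      have e7 : dp v (fun p => form Q (fam w p)) p x = ∑ a, v a * P flat (w a) x := by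
        have hJQ : ∀ z, JS (fun p => form Q (fam w p)) z := hJ Q
        rw [hQf] at hJQ ⊢
        rw [dp_affine _ _ hJQ]
      rw [e1, e2, e3, e4, e5, e6, e7]
      ring
    rw [h1]
    have h2 := dp_add (z := ((0 : Fin 3 → ℝ), x)) (f := dp v (fun p => form s (fam w p)))
      (h := fun _ x => (-c) * ∑ a, v a * P flat (w a) x) ((hJ s _).dp v) (by
        have hJQ : JS (dp v (fun p => form Q (fam w p))) ((0 : Fin 3 → ℝ), x) := (hJ Q _).dp v
        have hJQ' : ∀ z, JS (fun p => form Q (fam w p)) z := hJ Q
        rw [hQf] at hJQ hJQ'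
        rw [dp_affine _ _ hJQ'] at hJQ
        exact (JS.const _).mul hJQ) u
    simp only at h2
    rw [h2, dp_const]
    simp
  simp only [hdd] at key
  exact key

end Pool.Agent.T9h84.CP
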