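import Pool.Agent.T9h84.CP.Torus

/-!
# The integral of a natural divergence is conformally invariant
-/

set_option autoImplicit false

open scoped BigOperators ContDiff Topology
open Filter MeasureTheory

namespace Pool.Agent.T9h84.CP

variable {n : ℕ}

theorem IsMetric.conf {g : Met n} (hg : IsMetric g) {w : Pt n → ℝ} (hw : ContDiff ℝ ∞ w) :
    IsMetric (CP.conf w g) where
  smooth i j := by
    have : (fun x => CP.conf w g x i j) = fun x => Real.exp (2 * w x) * g x i j := by
      ext x
      simp [CP.conf]
    rw [this]
    exact (Real.contDiff_exp.comp (contDiff_const.mul hw)).mul (hg.smooth i j)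
  posDef x := (hg.posDef x).smul (Real.exp_pos _)

/-- The vector density of the natural covector field `V`. -/
noncomputable def vdens (V : NatTen 1) (g : Met n) (i : Fin n) : Pt n → ℝ := fun y =>
  √(g y).det * ∑ j, (g y)⁻¹ i j * V.eval g ![j] y

theorem contDiff_vdens (V : NatTen 1) {g : Met n} (hg : IsMetric g) (i : Fin n) :
    ContDiff ℝ ∞ (vdens V g i) := by
  rw [contDiff_iff_contDiffAt]
  intro x
  have hA : ∀ a b, ContDiffAt ℝ ∞ (fun y => g y a b) x := fun a b => (hg.smooth a b).contDiffAt
  have hd := (hg.det_pos x).ne'
  exact ((contDiffAt_det hA).sqrt hd).mul (ContDiffAt.sum fun j _ =>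
    (contDiffAt_inv hA hd i j).mul (contDiffAt_eval hA hd V _))

theorem contDiff_form (s : NatTen 0) {g : Met n} (hg : IsMetric g) :
    ContDiff ℝ ∞ (form s g) := by
  rw [contDiff_iff_contDiffAt]
  exact fun x => contDiffAt_form (fun a b => (hg.smooth a b).contDiffAt) (hg.det_pos x).ne' s

theorem IsPeriodic.eval {g : Met n} (hg : IsPeriodic g) {k : ℕ} (t : NatTen k)
    (a : Fin k → Fin n) : IsPeriodic (t.eval g a) := by
  intro m x
  have h1 : (fun y : Pt n => g (y + fun i => (m i : ℝ))) = g := funext fun y => hg m y
  have h2 := eval_translate g (fun i => (m i : ℝ)) t a x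
  rw [h1] at h2
  exact h2.symm

theorem IsPeriodic.vdens {g : Met n} (hg : IsPeriodic g) (V : NatTen 1) (i : Fin n) :
    IsPeriodic (vdens V g i) := by
  intro m x
  unfold CP.vdens
  simp only [hg m x, hg.eval V _ m x]

theorem IsPeriodic.conf {g : Met n} (hg : IsPeriodic g) {w : Pt n → ℝ} (hw : IsPeriodic w) :
    IsPeriodic (CP.conf w g) := by
  intro m x
  unfold CP.conf
  rw [hg m x, hw m x]

theorem integral_div_torus (V : NatTen 1) {g : Met n} (hg : IsMetric g) (hp : IsPeriodic g) :
    ∫ x in cube n, form (.contr (.nabla V)) g x = 0 := by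
  cases n with
  | zero =>
    have h : ∀ x, form (.contr (.nabla V)) g x = 0 := by
      intro x
      rw [form_div V hg]
      simp
    simp [h]
  | succ m =>
    have h : form (.contr (.nabla V)) g = fun x => ∑ i, pd i (vdens V g i) x :=
      funext fun x => form_div V hg x
    rw [h]
    refine integral_div_box (contDiff_vdens V hg) zero_le_one fun i y => ?_
    have h1 := hp.vdens V i (Pi.single i 1) (i.insertNth (0 : ℝ) y)
    have h2 : (fun j => (i.insertNth (0 : ℝ) y : Pt (m + 1)) j +
        ((Pi.single i (1 : ℤ) : Fin (m + 1) → ℤ) j : ℝ)) = i.insertNth (1 : ℝ) y := by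
      ext j
      refine Fin.succAboveCases i ?_ (fun j => ?_) j
      · simp
      · simp
    rw [h2] at h1
    exact h1

/-- Natural divergences have conformally invariant integrals, on the torus. -/
theorem confInvTorus_div (n : ℕ) (V : NatTen 1) : ConfInvTorus n (.contr (.nabla V)) := by
  intro g hg hp w hw hwp
  rw [integral_div_torus V (hg.conf hw) (hp.conf hwp), integral_div_torus V hg hp]

/-- Natural divergences have conformally invariant integrals, compactly supported version. -/
theorem confInvLocal_div (n : ℕ) (V : NatTen 1) : ConfInvLocal n (.contr (.nabla V)) := by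
  intro g hg w hw hws
  have hw1 := hg.conf hw
  have hloc : ∀ x, x ∉ tsupport w → CP.conf w g =ᶠ[𝓝 x] g := by
    intro x hx
    filter_upwards [(isClosed_tsupport w).isOpen_compl.mem_nhds hx] with y hy
    simp [CP.conf, image_eq_zero_of_notMem_tsupport hy]
  have hzero : ∀ x, x ∉ tsupport w →
      form (.contr (.nabla V)) (CP.conf w g) x - form (.contr (.nabla V)) g x = 0 := by
    intro x hx
    unfold form
    rw [(eval_congr _ _ x (hloc x hx)).eq_of_nhds, (hloc x hx).eq_of_nhds, sub_self]
  have hcont : Continuous fun x =>
      form (.contr (.nabla V)) (CP.conf w g) x - form (.contr (.nabla V)) g x :=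
    (contDiff_form _ hw1).continuous.sub (contDiff_form _ hg).continuous
  have hsupp : HasCompactSupport fun x =>
      form (.contr (.nabla V)) (CP.conf w g) x - form (.contr (.nabla V)) g x :=
    HasCompactSupport.intro hws fun x hx => hzero x hx
  refine ⟨hcont.integrable_of_hasCompactSupport hsupp, ?_⟩
  cases n with
  | zero =>
    have h : ∀ (g : Met 0), IsMetric g → ∀ x, form (.contr (.nabla V)) g x = 0 := by
      intro g hg x
      rw [form_div V hg]
      simp
    simp [h _ hg, h _ hw1]
  | succ m =>
    obtain ⟨R, hR⟩ := hws.isBounded.subset_closedBall (0 : Pt (m + 1))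
    set R' : ℝ := max R 0 + 1 with hR'
    have hR0 : 0 < R' := by positivity
    set X : Fin (m + 1) → Pt (m + 1) → ℝ := fun i x => vdens V (CP.conf w g) i x - vdens V g i x
      with hX
    have hXs : ∀ i, ContDiff ℝ ∞ (X i) := fun i =>
      (contDiff_vdens V hw1 i).sub (contDiff_vdens V hg i)
    have hX0 : ∀ i x, x ∉ tsupport w → X i x = 0 := by
      intro i x hx
      simp only [hX]
      unfold vdens
      rw [(hloc x hx).eq_of_nhds]
      simp only [fun j => (eval_congr V ![j] x (hloc x hx)).eq_of_nhds]
      ring
    have hout : ∀ x : Pt (m + 1), R' ≤ ‖x‖ → x ∉ tsupport w := by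
      intro x hx h
      have := hR h
      rw [mem_closedBall_zero_iff] at this
      have h2 : R ≤ max R 0 := le_max_left _ _
      linarith
    have hbox := integral_div_box hXs (a := fun _ => -R') (b := fun _ => R')
      (fun _ => by linarith) (fun i y => by
        have e1 : X i (i.insertNth R' y) = 0 := hX0 i _ (hout _ (by
          have := norm_le_pi_norm (i.insertNth R' y : Pt (m + 1)) i
          simp only [Fin.insertNth_apply_same, Real.norm_eq_abs, abs_of_pos hR0] at this
          exact this))
        have e2 : X i (i.insertNth (-R') y) = 0 := hX0 i _ (hout _ (by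
          have := norm_le_pi_norm (i.insertNth (-R') y : Pt (m + 1)) i
          simp only [Fin.insertNth_apply_same, Real.norm_eq_abs, abs_neg, abs_of_pos hR0] at this
          exact this))
        rw [e1, e2])
    have hdiff : ∀ x, form (.contr (.nabla V)) (CP.conf w g) x - form (.contr (.nabla V)) g x =
        ∑ i, pd i (X i) x := by
      intro x
      rw [form_div V hw1, form_div V hg, ← Finset.sum_sub_distrib]
      refine Finset.sum_congr rfl fun i _ => ?_
      exact (pd_sub (diffAt (contDiff_vdens V hw1 i).contDiffAt)
        (diffAt (contDiff_vdens V hg i).contDiffAt) i).symm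
    simp only [← hdiff] at hbox
    rw [← hbox]
    refine (setIntegral_eq_integral_of_forall_compl_eq_zero fun x hx => hzero x fun h => hx ?_).symm
    have h2 := hR h
    rw [mem_closedBall_zero_iff] at h2
    have h3 : R ≤ max R 0 := le_max_left _ _
    have h4 : ∀ i, |x i| ≤ R' := fun i => (norm_le_pi_norm x i).trans (by linarith)
    exact ⟨fun i => (abs_le.1 (h4 i)).1, fun i => (abs_le.1 (h4 i)).2⟩

end Pool.Agent.T9h84.CP
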