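import Pool.Agent.T9h84.CP.Lap

/-!
# The second variation of `Δ |Ric|² dv` at the flat metric
-/

set_option autoImplicit false

open scoped BigOperators ContDiff Topology
open Filter MeasureTheory

namespace Pool.Agent.T9h84.CP

variable {n : ℕ}

/-- The function `∑_a p_a w_a`. -/
noncomputable def comb (w : Fin 3 → Pt n → ℝ) (p : Fin 3 → ℝ) : Pt n → ℝ :=
  fun x => ∑ a, p a * w a x

/-- The family of metrics `e^{2 ∑_a p_a w_a} δ`. -/
noncomputable def fam (w : Fin 3 → Pt n → ℝ) (p : Fin 3 → ℝ) : Met n := conf (comb w p) flat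

/-- The basis vectors of the parameter space. -/
def ee (a : Fin 3) : Fin 3 → ℝ := Pi.single a 1

theorem comb_line (w : Fin 3 → Pt n → ℝ) (p : Fin 3 → ℝ) (t : ℝ) (a : Fin 3) :
    comb w (p + t • ee a) = fun x => comb w p x + t * w a x := by
  ext x
  simp only [comb, Pi.add_apply, Pi.smul_apply, smul_eq_mul, add_mul, Finset.sum_add_distrib]
  congr 1
  rw [Finset.sum_eq_single a]
  · simp [ee]
  · intro b _ hb
    simp [ee, hb]
  · simp

theorem conf_conf (u v : Pt n → ℝ) (g : Met n) :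
    conf u (conf v g) = conf (fun x => v x + u x) g := by
  funext x
  simp only [conf, smul_smul, ← Real.exp_add]
  congr 2
  ring

theorem conf_fam (w : Fin 3 → Pt n → ℝ) (p : Fin 3 → ℝ) (t : ℝ) (a : Fin 3) :
    conf (fun x => t * w a x) (fam w p) = fam w (p + t • ee a) := by
  rw [fam, fam, conf_conf, comb_line]

variable {w : Fin 3 → Pt n → ℝ} (hw : ∀ a, ContDiff ℝ ∞ (w a))

theorem JS_param (a : Fin 3) (z : (Fin 3 → ℝ) × Pt n) :
    JS (fun (p : Fin 3 → ℝ) (_ : Pt n) => p a) z := by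
  unfold JS
  fun_prop

include hw

theorem JS_comb (z : (Fin 3 → ℝ) × Pt n) : JS (comb w) z :=
  JS.sum _ fun a _ => (JS_param a z).mul (JS.of_contDiff (hw a).contDiffAt)

theorem contDiff_comb (p : Fin 3 → ℝ) : ContDiff ℝ ∞ (comb w p) := by
  unfold comb
  exact ContDiff.sum fun a _ => contDiff_const.mul (hw a)

theorem JS_fam (z : (Fin 3 → ℝ) × Pt n) (i j : Fin n) : JS (fun p x => fam w p x i j) z := by
  have : (fun p x => fam w p x i j) = fun p x => dl i j * Real.exp (2 * comb w p x) := by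
    funext p x
    rw [fam, conf_flat_apply]
  rw [this]
  exact (JS.const _).mul ((JS.const _).mul (JS_comb hw z)).exp

omit hw in
theorem det_fam (p : Fin 3 → ℝ) (x : Pt n) : 0 < (fam w p x).det := det_conf_flat_pos _ _

theorem JS_form (s : NatTen 0) (z : (Fin 3 → ℝ) × Pt n) : JS (fun p => form s (fam w p)) z :=
  JS.form (JS_fam hw z) (det_fam _ _).ne' s

theorem JS_rho (j k : Fin n) (z : (Fin 3 → ℝ) × Pt n) : JS (fun p => rho (comb w p) j k) z := by
  have h1 : ∀ j k, JS (fun p => pd j (pd k (comb w p))) z := fun j k =>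
    ((JS_comb hw z).pd k).pd j
  have h2 : ∀ j, JS (fun p => pd j (comb w p)) z := fun j => (JS_comb hw z).pd j
  unfold rho
  refine ((JS.const _).mul ((h1 j k).sub ((h2 j).mul (h2 k)))).sub ((JS.const _).mul
    ((JS.sum _ fun i _ => h1 i i).add ((JS.const _).mul (JS.sum _ fun i _ => (h2 i).pow 2))))

omit hw in
theorem comb_zero : comb w 0 = fun _ => 0 := by
  ext x
  simp [comb]

omit hw in
theorem pd_zero (j : Fin n) (x : Pt n) : pd j (fun _ : Pt n => (0 : ℝ)) x = 0 := pd_const 0 j x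

omit hw in
theorem rho_zero (j k : Fin n) (x : Pt n) : rho (comb w 0) j k x = 0 := by
  have h : ∀ j : Fin n, pd j (fun _ : Pt n => (0 : ℝ)) = fun _ => 0 := fun j => by
    ext x; exact pd_zero j x
  simp only [rho, comb_zero, h]
  simp

omit hw in
/-- the linearisation of the Ricci tensor -/
noncomputable def lrho (v : Pt n → ℝ) (j k : Fin n) : Pt n → ℝ := fun x =>
  -((n : ℝ) - 2) * pd j (pd k v) x - dl j k * ∑ i, pd i (pd i v) x

theorem dp_rho (b : Fin 3) (j k : Fin n) (x : Pt n) :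
    dp (ee b) (fun p => rho (comb w p) j k) 0 x = lrho (w b) j k x := by
  rw [dp_eq_deriv (fun z => JS_rho hw j k z)]
  have hc : ∀ t : ℝ, comb w (0 + t • ee b) = fun x => t * w b x := by
    intro t
    rw [comb_line, comb_zero]
    simp
  have h1 : ∀ (t : ℝ) (j : Fin n), pd j (fun x => t * w b x) = fun x => t * pd j (w b) x := by
    intro t j
    ext y
    exact pd_const_mul t (diffAt (hw b).contDiffAt) j
  have h2 : ∀ (t : ℝ) (j k : Fin n) (x : Pt n), pd k (fun x => t * pd j (w b) x) x =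
      t * pd k (pd j (w b)) x := by
    intro t j k x
    exact pd_const_mul t (diffAt_pd (hw b).contDiffAt j) k
  have h3 : (fun t : ℝ => rho (comb w (0 + t • ee b)) j k x) = fun t =>
      t * lrho (w b) j k x + t ^ 2 * (((n : ℝ) - 2) * (pd j (w b) x * pd k (w b) x) -
        dl j k * (((n : ℝ) - 2) * ∑ i, pd i (w b) x ^ 2)) := by
    ext t
    simp only [hc, rho, h1, h2, lrho, mul_pow, ← Finset.mul_sum]
    ring
  rw [h3]
  set L := lrho (w b) j k x
  set M := (((n : ℝ) - 2) * (pd j (w b) x * pd k (w b) x) -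
        dl j k * (((n : ℝ) - 2) * ∑ i, pd i (w b) x ^ 2))
  have h4 : HasDerivAt (fun t : ℝ => t * L + t ^ 2 * M) (1 * L + ((2 : ℕ) * 0 ^ (2 - 1)) * M) 0 :=
    ((hasDerivAt_id (0 : ℝ)).mul_const L).add ((hasDerivAt_pow 2 (0 : ℝ)).mul_const M)
  rw [h4.deriv]
  simp

/-- The bilinear form given by the second derivative of `|Ric|²`. -/
noncomputable def bil (u v : Pt n → ℝ) : Pt n → ℝ := fun y =>
  ∑ i, ∑ k, 2 * (lrho u k i y * lrho v k i y)

omit hw in
/-- the sum of the squares of the components of the Ricci tensor -/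
noncomputable def qq (w : Fin 3 → Pt n → ℝ) : (Fin 3 → ℝ) → Pt n → ℝ := fun p y =>
  ∑ i, ∑ k, rho (comb w p) k i y * rho (comb w p) k i y

omit hw in
/-- the factor of `qq` -/
noncomputable def cc (w : Fin 3 → Pt n → ℝ) : (Fin 3 → ℝ) → Pt n → ℝ := fun p y =>
  Real.exp (-(2 * comb w p y)) ^ 2

theorem ricSq_fam : (fun p => ricSq.eval (fam w p) ![]) = fun p y => cc w p y * qq w p y := by
  funext p y
  rw [fam, ricSq_conf_flat (contDiff_comb hw p)]
  simp only [cc, qq, pow_two]

theorem JS_cc (z : (Fin 3 → ℝ) × Pt n) : JS (cc w) z :=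
  (((JS.const 2).mul (JS_comb hw z)).neg.exp).pow 2

theorem JS_rr (i k : Fin n) (z : (Fin 3 → ℝ) × Pt n) :
    JS (fun p y => rho (comb w p) k i y * rho (comb w p) k i y) z :=
  (JS_rho hw k i z).mul (JS_rho hw k i z)

theorem JS_qq (z : (Fin 3 → ℝ) × Pt n) : JS (qq w) z :=
  JS.sum _ fun i _ => JS.sum _ fun k _ => JS_rr hw i k z

omit hw in
theorem qq_zero (y : Pt n) : qq w 0 y = 0 := by simp [qq, rho_zero]

theorem dp_qq (u : Fin 3 → ℝ) (y : Pt n) : dp u (qq w) 0 y = 0 := by
  have h := dp_sum (z := (0, y)) Finset.univ (f := fun i p y => ∑ k, rho (comb w p) k i y *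
    rho (comb w p) k i y) (fun i _ => JS.sum _ fun k _ => JS_rr hw i k _) u
  refine Eq.trans h ?_
  refine Finset.sum_eq_zero fun i _ => ?_
  rw [dp_sum (z := (0, y)) _ fun k _ => JS_rr hw i k _]
  refine Finset.sum_eq_zero fun k _ => ?_
  have := dp_mul (z := (0, y)) (JS_rho hw k i _) (JS_rho hw k i _) u
  simp only at this
  rw [this, rho_zero]
  simp

theorem dp_dp_qq (b c : Fin 3) (y : Pt n) :
    dp (ee c) (dp (ee b) (qq w)) 0 y = bil (w b) (w c) y := by
  have h := dp_dp_sum Finset.univ (f := fun i p y => ∑ k, rho (comb w p) k i y *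
    rho (comb w p) k i y) (fun i z => JS.sum _ fun k _ => JS_rr hw i k z) (ee c) (ee b) 0 y
  refine Eq.trans h ?_
  refine Finset.sum_congr rfl fun i _ => ?_
  rw [dp_dp_sum _ fun k z => JS_rr hw i k z]
  refine Finset.sum_congr rfl fun k _ => ?_
  rw [dp_dp_mul (JS_rho hw k i) (JS_rho hw k i), rho_zero, dp_rho hw, dp_rho hw]
  ring

theorem ricSq_zero (y : Pt n) : ricSq.eval (fam w 0) ![] y = 0 := by
  have := congrFun (congrFun (ricSq_fam hw) 0) y
  simp only [qq_zero, mul_zero] at this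
  exact this

theorem dp_ricSq (u : Fin 3 → ℝ) (y : Pt n) :
    dp u (fun p => ricSq.eval (fam w p) ![]) 0 y = 0 := by
  rw [ricSq_fam hw]
  have := dp_mul (z := (0, y)) (JS_cc hw _) (JS_qq hw _) u
  simp only at this
  rw [this, qq_zero, dp_qq hw]
  simp

theorem dp_dp_ricSq (b c : Fin 3) (y : Pt n) :
    dp (ee c) (dp (ee b) (fun p => ricSq.eval (fam w p) ![])) 0 y = bil (w b) (w c) y := by
  rw [ricSq_fam hw, dp_dp_mul (JS_cc hw) (JS_qq hw), qq_zero, dp_qq hw, dp_qq hw, dp_dp_qq hw]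
  have hC0 : cc w 0 y = 1 := by simp [cc, comb_zero]
  rw [hC0]
  ring

theorem dp_dp_lapRicSq (b c : Fin 3) (x : Pt n) :
    dp (ee c) (dp (ee b) (fun p => form lapRicSq (fam w p))) 0 x =
      ∑ i, pd i (pd i (bil (w b) (w c))) x := by
  set h : (Fin 3 → ℝ) → Pt n → ℝ := fun p => ricSq.eval (fam w p) ![] with hh
  set A : (Fin 3 → ℝ) → Pt n → ℝ := fun p y => √(fam w p y).det *
    Real.exp (-(2 * comb w p y)) with hA
  have hJh : ∀ z, JS h z := fun z => JS.eval (JS_fam hw z) (det_fam _ _).ne' _ _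
  have hJA : ∀ z, JS A z := fun z => ((JS.det (JS_fam hw z)).sqrt (det_fam _ _).ne').mul
    ((JS.const 2).mul (JS_comb hw z)).neg.exp
  have hJB : ∀ i z, JS (fun p => pd i (h p)) z := fun i z => (hJh z).pd i
  have hJAB : ∀ i z, JS (fun p y => A p y * pd i (h p) y) z := fun i z =>
    (hJA z).mul (hJB i z)
  have h1 : (fun p => form lapRicSq (fam w p)) = fun p x =>
      ∑ i, pd i (fun y => A p y * pd i (h p) y) x := by
    funext p x
    rw [lapRicSq, form_lap_at ricSq (x := x)]
    · refine Finset.sum_congr rfl fun i _ => ?_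
      congr 1
      ext y
      simp only [fam, inv_conf_flat, mul_assoc, sum_dl, hA, hh]
    · intro a b
      exact (JS_fam hw (p, x) a b).contDiffAt_right
    · intro i j
      rw [fam, conf_flat_apply, conf_flat_apply]
      simp [dl, eq_comm]
    · exact det_fam _ _
  rw [h1, dp_dp_sum _ fun i z => (hJAB i z).pd i]
  refine Finset.sum_congr rfl fun i _ => ?_
  rw [dp_dp_pd (hJAB i)]
  congr 1
  funext y
  rw [dp_dp_mul hJA (hJB i), dp_dp_pd hJh]
  have e0 : h 0 = fun _ => 0 := by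
    funext y
    exact ricSq_zero hw y
  have e1 : ∀ u, dp u h 0 = fun _ => 0 := fun u => by
    funext y
    exact dp_ricSq hw u y
  have e2 : ∀ u, dp u (fun p => pd i (h p)) 0 y = 0 := by
    intro u
    have := (hJh (0, y)).dp_pd u i
    simp only at this
    rw [this, e1]
    exact pd_zero i y
  have e3 : dp (ee c) (dp (ee b) h) 0 = bil (w b) (w c) := by
    funext y
    exact dp_dp_ricSq hw b c y
  have e4 : A 0 y = 1 := by
    simp [hA, fam, det_conf_flat, comb_zero]
  rw [e0, e2, e2, e3, e4, pd_zero]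
  ring

end Pool.Agent.T9h84.CP
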