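import Pool.Agent.T9h84.CP.Defs

/-!
# Smooth families
-/

set_option autoImplicit false

open scoped BigOperators ContDiff Topology
open Filter

namespace Pool.Agent.T9h84.CP

variable {n : ℕ} {W : Type*} [NormedAddCommGroup W] [NormedSpace ℝ W]

/-- Joint smoothness of a family of functions at a point. -/
def JS (f : W → Pt n → ℝ) (z : W × Pt n) : Prop :=
  ContDiffAt ℝ ∞ (fun y : W × Pt n => f y.1 y.2) z

/-- The directional derivative in the parameter. -/
noncomputable def dp (u : W) (f : W → Pt n → ℝ) : W → Pt n → ℝ :=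
  fun p x => fderiv ℝ (fun q => f q x) p u

variable {f h : W → Pt n → ℝ} {z : W × Pt n}

theorem JS.congr (hf : JS f z) (hfh : (fun y : W × Pt n => h y.1 y.2) =ᶠ[𝓝 z]
    fun y : W × Pt n => f y.1 y.2) : JS h z :=
  ContDiffAt.congr_of_eventuallyEq hf hfh

theorem JS.const (c : ℝ) : JS (fun (_ : W) (_ : Pt n) => c) z := contDiffAt_const

theorem JS.add (hf : JS f z) (hh : JS h z) : JS (fun p x => f p x + h p x) z :=
  ContDiffAt.add hf hh

theorem JS.sub (hf : JS f z) (hh : JS h z) : JS (fun p x => f p x - h p x) z :=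
  ContDiffAt.sub hf hh

theorem JS.neg (hf : JS f z) : JS (fun p x => - f p x) z :=
  ContDiffAt.neg hf

theorem JS.mul (hf : JS f z) (hh : JS h z) : JS (fun p x => f p x * h p x) z :=
  ContDiffAt.mul hf hh

theorem JS.pow (hf : JS f z) (m : ℕ) : JS (fun p x => f p x ^ m) z :=
  ContDiffAt.pow hf m

theorem JS.inv (hf : JS f z) (h0 : f z.1 z.2 ≠ 0) : JS (fun p x => (f p x)⁻¹) z :=
  ContDiffAt.inv hf h0

theorem JS.exp (hf : JS f z) : JS (fun p x => Real.exp (f p x)) z :=
  ContDiffAt.exp hf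

theorem JS.sqrt (hf : JS f z) (h0 : f z.1 z.2 ≠ 0) : JS (fun p x => √(f p x)) z :=
  ContDiffAt.sqrt hf h0

theorem JS.sum {ι : Type*} (s : Finset ι) {f : ι → W → Pt n → ℝ} (hf : ∀ i ∈ s, JS (f i) z) :
    JS (fun p x => ∑ i ∈ s, f i p x) z :=
  ContDiffAt.sum hf

theorem JS.prod {ι : Type*} (s : Finset ι) {f : ι → W → Pt n → ℝ} (hf : ∀ i ∈ s, JS (f i) z) :
    JS (fun p x => ∏ i ∈ s, f i p x) z :=
  contDiffAt_prod hf

/-- A function of the point only. -/
theorem JS.of_contDiff {f : Pt n → ℝ} (hf : ContDiffAt ℝ ∞ f z.2) :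
    JS (fun (_ : W) x => f x) z :=
  ContDiffAt.comp z hf contDiffAt_snd

theorem JS.eventually_diff (hf : JS f z) :
    ∀ᶠ y in 𝓝 z, DifferentiableAt ℝ (fun y : W × Pt n => f y.1 y.2) y := by
  have h1 : ContDiffAt ℝ 1 (fun y : W × Pt n => f y.1 y.2) z := ContDiffAt.of_le hf (by simp)
  filter_upwards [h1.eventually (by simp)] with y hy
  exact hy.differentiableAt (by simp)

theorem pd_eq_of_diff {y : W × Pt n} (hy : DifferentiableAt ℝ (fun y : W × Pt n => f y.1 y.2) y)
    (i : Fin n) : pd i (f y.1) y.2 =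
      fderiv ℝ (fun y : W × Pt n => f y.1 y.2) y (0, Pi.single i 1) := by
  have h1 : HasFDerivAt (fun x : Pt n => (y.1, x)) (ContinuousLinearMap.inr ℝ W (Pt n)) y.2 :=
    hasFDerivAt_prodMk_right y.1 y.2
  have h2 : HasFDerivAt (f y.1) ((fderiv ℝ (fun y : W × Pt n => f y.1 y.2) y).comp
      (ContinuousLinearMap.inr ℝ W (Pt n))) y.2 :=
    HasFDerivAt.comp (g := fun y : W × Pt n => f y.1 y.2) y.2 hy.hasFDerivAt h1
  rw [pd, h2.fderiv]
  simp

theorem dp_eq_of_diff {y : W × Pt n} (hy : DifferentiableAt ℝ (fun y : W × Pt n => f y.1 y.2) y)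
    (u : W) : dp u f y.1 y.2 =
      fderiv ℝ (fun y : W × Pt n => f y.1 y.2) y (u, 0) := by
  have h1 : HasFDerivAt (fun x : W => (x, y.2)) (ContinuousLinearMap.inl ℝ W (Pt n)) y.1 :=
    hasFDerivAt_prodMk_left y.1 y.2
  have h2 : HasFDerivAt (fun q => f q y.2) ((fderiv ℝ (fun y : W × Pt n => f y.1 y.2) y).comp
      (ContinuousLinearMap.inl ℝ W (Pt n))) y.1 :=
    HasFDerivAt.comp (g := fun y : W × Pt n => f y.1 y.2) y.1 hy.hasFDerivAt h1
  rw [dp, h2.fderiv]
  simp

theorem JS.eventually_pd (hf : JS f z) (i : Fin n) :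
    (fun y : W × Pt n => pd i (f y.1) y.2) =ᶠ[𝓝 z]
      fun y => fderiv ℝ (fun y : W × Pt n => f y.1 y.2) y (0, Pi.single i 1) := by
  filter_upwards [hf.eventually_diff] with y hy
  exact pd_eq_of_diff hy i

theorem JS.eventually_dp (hf : JS f z) (u : W) :
    (fun y : W × Pt n => dp u f y.1 y.2) =ᶠ[𝓝 z]
      fun y => fderiv ℝ (fun y : W × Pt n => f y.1 y.2) y (u, 0) := by
  filter_upwards [hf.eventually_diff] with y hy
  exact dp_eq_of_diff hy u

theorem contDiffAt_dir {V : Type*} [NormedAddCommGroup V] [NormedSpace ℝ V] {F : V → ℝ} {y : V}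
    (hF : ContDiffAt ℝ ∞ F y) (v : V) : ContDiffAt ℝ ∞ (fun y => fderiv ℝ F y v) y :=
  (hF.fderiv_right (m := ∞) (by simp)).clm_apply contDiffAt_const

theorem JS.pd (hf : JS f z) (i : Fin n) : JS (fun p => pd i (f p)) z :=
  (contDiffAt_dir hf _).congr_of_eventuallyEq (hf.eventually_pd i)

theorem JS.dp (hf : JS f z) (u : W) : JS (dp u f) z :=
  (contDiffAt_dir hf _).congr_of_eventuallyEq (hf.eventually_dp u)

theorem dir_comm {V : Type*} [NormedAddCommGroup V] [NormedSpace ℝ V] {F : V → ℝ} {y : V}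
    (hF : ContDiffAt ℝ ∞ F y) (u v : V) :
    fderiv ℝ (fun y => fderiv ℝ F y v) y u = fderiv ℝ (fun y => fderiv ℝ F y u) y v := by
  have hsymm : IsSymmSndFDerivAt ℝ F y :=
    hF.isSymmSndFDerivAt (by
      rw [minSmoothness_of_isRCLikeNormedField]
      exact WithTop.coe_le_coe.2 le_top)
  have hd : DifferentiableAt ℝ (fderiv ℝ F) y :=
    (hF.fderiv_right (m := ∞) (by simp)).differentiableAt (by simp)
  have e : ∀ v u : V, fderiv ℝ (fun y => fderiv ℝ F y v) y u = fderiv ℝ (fderiv ℝ F) y u v := by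
    intro v u
    rw [fderiv_clm_apply hd (differentiableAt_const v)]
    simp
  rw [e, e]
  exact hsymm u v

theorem JS.dp_pd (hf : JS f z) (u : W) (i : Fin n) :
    CP.dp u (fun p => CP.pd i (f p)) z.1 z.2 = CP.pd i (CP.dp u f z.1) z.2 := by
  have h1 : (CP.dp u (fun p => CP.pd i (f p)) z.1 z.2) =
      fderiv ℝ (fun y : W × Pt n => CP.pd i (f y.1) y.2) z (u, 0) :=
    dp_eq_of_diff (f := fun p => CP.pd i (f p)) ((hf.pd i).differentiableAt (by simp)) u
  have h2 : CP.pd i (CP.dp u f z.1) z.2 =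
      fderiv ℝ (fun y : W × Pt n => CP.dp u f y.1 y.2) z (0, Pi.single i 1) :=
    pd_eq_of_diff (f := CP.dp u f) ((hf.dp u).differentiableAt (by simp)) i
  rw [h1, h2, (hf.eventually_pd i).fderiv_eq, (hf.eventually_dp u).fderiv_eq]
  exact dir_comm hf _ _

theorem JS.dp_dp (hf : JS f z) (u v : W) :
    CP.dp u (CP.dp v f) z.1 z.2 = CP.dp v (CP.dp u f) z.1 z.2 := by
  have h1 : ∀ u v : W, (CP.dp u (CP.dp v f) z.1 z.2) =
      fderiv ℝ (fun y : W × Pt n => CP.dp v f y.1 y.2) z (u, 0) := fun u v =>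
    dp_eq_of_diff (f := CP.dp v f) ((hf.dp v).differentiableAt (by simp)) u
  rw [h1, h1, (hf.eventually_dp u).fderiv_eq, (hf.eventually_dp v).fderiv_eq]
  exact dir_comm hf _ _

theorem JS.differentiableAt_left (hf : JS f z) : DifferentiableAt ℝ (fun q => f q z.2) z.1 := by
  have h1 : HasFDerivAt (fun x : W => (x, z.2)) (ContinuousLinearMap.inl ℝ W (Pt n)) z.1 :=
    hasFDerivAt_prodMk_left z.1 z.2
  have hd : DifferentiableAt ℝ (fun y : W × Pt n => f y.1 y.2) z :=
    ContDiffAt.differentiableAt hf (by simp)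
  exact (HasFDerivAt.comp (g := fun y : W × Pt n => f y.1 y.2) z.1
    (f := fun x : W => (x, z.2)) hd.hasFDerivAt h1).differentiableAt

theorem JS.contDiffAt_right (hf : JS f z) : ContDiffAt ℝ ∞ (f z.1) z.2 := by
  have h1 : ContDiffAt ℝ ∞ (fun x : Pt n => (z.1, x)) z.2 := by fun_prop
  have h2 : ContDiffAt ℝ ∞ (fun y : W × Pt n => f y.1 y.2) ((fun x : Pt n => (z.1, x)) z.2) := hf
  exact h2.comp z.2 h1

theorem JS.differentiableAt_right (hf : JS f z) : DifferentiableAt ℝ (f z.1) z.2 :=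
  hf.contDiffAt_right.differentiableAt (by simp)

/-- Product rule in the parameter. -/
theorem dp_mul (hf : JS f z) (hh : JS h z) (u : W) :
    CP.dp u (fun p x => f p x * h p x) z.1 z.2 =
      CP.dp u f z.1 z.2 * h z.1 z.2 + f z.1 z.2 * CP.dp u h z.1 z.2 := by
  unfold CP.dp
  rw [fderiv_fun_mul hf.differentiableAt_left hh.differentiableAt_left]
  simp
  ring

theorem dp_add (hf : JS f z) (hh : JS h z) (u : W) :
    CP.dp u (fun p x => f p x + h p x) z.1 z.2 = CP.dp u f z.1 z.2 + CP.dp u h z.1 z.2 := by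
  unfold CP.dp
  rw [fderiv_fun_add hf.differentiableAt_left hh.differentiableAt_left]
  simp

theorem dp_sum {ι : Type*} (s : Finset ι) {f : ι → W → Pt n → ℝ} (hf : ∀ i ∈ s, JS (f i) z)
    (u : W) : CP.dp u (fun p x => ∑ i ∈ s, f i p x) z.1 z.2 = ∑ i ∈ s, CP.dp u (f i) z.1 z.2 := by
  unfold CP.dp
  rw [fderiv_fun_sum fun i hi => (hf i hi).differentiableAt_left]
  simp

/-! ### Determinants and inverse matrices -/

theorem JS.det {G : W → Met n} (hG : ∀ i j, JS (fun p x => G p x i j) z) :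
    JS (fun p x => (G p x).det) z := by
  have : (fun (p : W) (x : Pt n) => (G p x).det) = fun p x => ∑ σ : Equiv.Perm (Fin n),
      ((Equiv.Perm.sign σ : ℤ) : ℝ) * ∏ i, G p x (σ i) i := by
    ext p x
    rw [Matrix.det_apply']
  rw [this]
  exact JS.sum _ fun σ _ => (JS.const _).mul (JS.prod _ fun i _ => hG _ _)

theorem JS.adjugate {G : W → Met n} (hG : ∀ i j, JS (fun p x => G p x i j) z) (i j : Fin n) :
    JS (fun p x => (G p x).adjugate i j) z := by
  simp only [Matrix.adjugate_apply]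
  refine JS.det (G := fun p x => (G p x).updateRow j (Pi.single i 1)) fun a b => ?_
  by_cases ha : a = j
  · subst ha
    simp only [Matrix.updateRow_self]
    exact JS.const _
  · simp only [Matrix.updateRow_ne ha]
    exact hG a b

theorem JS.matInv {G : W → Met n} (hG : ∀ i j, JS (fun p x => G p x i j) z)
    (h0 : (G z.1 z.2).det ≠ 0) (i j : Fin n) : JS (fun p x => (G p x)⁻¹ i j) z := by
  have : (fun (p : W) (x : Pt n) => (G p x)⁻¹ i j) =
      fun p x => ((G p x).det)⁻¹ * (G p x).adjugate i j := by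
    ext p x
    rw [Matrix.inv_def, Matrix.smul_apply, Ring.inverse_eq_inv', smul_eq_mul]
  rw [this]
  exact ((JS.det hG).inv h0).mul (JS.adjugate hG i j)

/-! ### Tensors -/

section tensors

variable {G : W → Met n} (hG : ∀ i j, JS (fun p x => G p x i j) z) (h0 : (G z.1 z.2).det ≠ 0)

include hG h0

theorem JS.chr (k i j : Fin n) : JS (fun p => CP.chr (G p) k i j) z := by
  unfold CP.chr
  refine (JS.const _).mul (JS.sum _ fun l _ => (JS.matInv hG h0 k l).mul ?_)
  exact (((hG j l).pd i).add ((hG i l).pd j)).sub ((hG i j).pd l)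

theorem JS.nab {k : ℕ} {T : W → Ten n k} (hT : ∀ a, JS (fun p => T p a) z) (a) :
    JS (fun p => CP.nab (G p) (T p) a) z := by
  unfold CP.nab
  refine ((hT _).pd _).sub (JS.sum _ fun p _ => JS.sum _ fun l _ => ?_)
  exact (JS.chr hG h0 _ _ _).mul (hT _)

theorem JS.riem (a) : JS (fun p => CP.riem (G p) a) z := by
  unfold CP.riem
  refine JS.sum _ fun m _ => (hG _ _).mul ((((JS.chr hG h0 _ _ _).pd _).sub
    ((JS.chr hG h0 _ _ _).pd _)).add (JS.sum _ fun p _ => ?_))
  exact ((JS.chr hG h0 _ _ _).mul (JS.chr hG h0 _ _ _)).sub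
    ((JS.chr hG h0 _ _ _).mul (JS.chr hG h0 _ _ _))

theorem JS.eval {k : ℕ} (t : NatTen k) : ∀ a, JS (fun p => t.eval (G p) a) z := by
  induction t with
  | one => intro a; exact JS.const _
  | metric => intro a; exact hG _ _
  | riem => intro a; exact JS.riem hG h0 a
  | add s t hs ht => intro a; exact (hs a).add (ht a)
  | smul c t ht => intro a; exact (JS.const c).mul (ht a)
  | mul s t hs ht => intro a; exact (hs _).mul (ht _)
  | perm σ t ht => intro a; exact ht _
  | nabla t ht => intro a; exact JS.nab hG h0 ht a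
  | contr t ht =>
    intro a
    exact JS.sum _ fun i _ => JS.sum _ fun j _ => (JS.matInv hG h0 i j).mul (ht _)

theorem JS.form (s : NatTen 0) : JS (fun p => CP.form s (G p)) z :=
  (JS.eval hG h0 s _).mul ((JS.det hG).sqrt h0)

end tensors

end Pool.Agent.T9h84.CP
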