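import Pool.Agent.T9h84.CP.Lap

/-!
# The behaviour of `|Ric|²` under changes of coordinates
-/

set_option autoImplicit false

open scoped BigOperators ContDiff Topology
open Filter MeasureTheory

namespace Pool.Agent.T9h84.CP

variable {n : ℕ}

/-- The Jacobian matrix `∂_i τ^a`. -/
noncomputable def jac (τ : Pt n → Pt n) (a i : Fin n) : Pt n → ℝ := pd i (fun z => τ z a)

theorem pd_comp {τ : Pt n → Pt n} {f : Pt n → ℝ} {y : Pt n} (hτ : DifferentiableAt ℝ τ y)
    (hf : DifferentiableAt ℝ f (τ y)) (i : Fin n) :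
    pd i (fun z => f (τ z)) y = ∑ c, pd c f (τ y) * jac τ c i y := by
  have h1 : ∀ c, jac τ c i y = fderiv ℝ τ y (Pi.single i 1) c := by
    intro c
    unfold jac pd
    have h := (hasFDerivAt_pi'.1 hτ.hasFDerivAt) c
    rw [h.fderiv]
    rfl
  have h2 : pd i (fun z => f (τ z)) y = fderiv ℝ f (τ y) (fderiv ℝ τ y (Pi.single i 1)) := by
    unfold pd
    rw [show (fun z => f (τ z)) = f ∘ τ from rfl, fderiv_comp y hf hτ]
    rfl
  rw [h2]
  set v := fderiv ℝ τ y (Pi.single i 1)
  have h3 : v = ∑ c, v c • (Pi.single c (1 : ℝ) : Pt n) := by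
    ext d
    simp [Finset.sum_apply, Pi.single_apply]
  rw [h3, map_sum]
  refine Finset.sum_congr rfl fun c _ => ?_
  rw [map_smul, smul_eq_mul, h1, mul_comm]
  rfl

/-- The setting: `τ` is a change of coordinates on the open set `U`, and `g'` is the metric `g` in
the new coordinates. -/
structure Change (U : Set (Pt n)) (τ : Pt n → Pt n) (g' g : Met n) : Prop where
  isOpen : IsOpen U
  smooth : ∀ y ∈ U, ContDiffAt ℝ ∞ τ y
  metric_smooth : ∀ y ∈ U, ∀ a b, ContDiffAt ℝ ∞ (fun z => g z a b) (τ y)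
  symm : ∀ y ∈ U, ∀ᶠ z in 𝓝 (τ y), ∀ a b, g z a b = g z b a
  det : ∀ y ∈ U, (g (τ y)).det ≠ 0
  jac_det : ∀ y ∈ U, (Matrix.of fun a i => jac τ a i y).det ≠ 0
  eq : ∀ y ∈ U, ∀ i j, g' y i j = ∑ a, ∑ b, g (τ y) a b * jac τ a i y * jac τ b j y

variable {U : Set (Pt n)} {τ : Pt n → Pt n} {g' g : Met n}

theorem smooth_coord (hτ : ∀ y ∈ U, ContDiffAt ℝ ∞ τ y) {y : Pt n} (hy : y ∈ U) (a : Fin n) :
    ContDiffAt ℝ ∞ (fun z => τ z a) y :=
  (contDiffAt_pi.1 (hτ y hy)) a

theorem smooth_jac (hτ : ∀ y ∈ U, ContDiffAt ℝ ∞ τ y) {y : Pt n} (hy : y ∈ U) (a i : Fin n) :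
    ContDiffAt ℝ ∞ (jac τ a i) y := contDiffAt_pd (smooth_coord hτ hy a) i

theorem jac_symm (hτ : ∀ y ∈ U, ContDiffAt ℝ ∞ τ y) {y : Pt n} (hy : y ∈ U) (a i j : Fin n) :
    pd i (jac τ a j) y = pd j (jac τ a i) y := pd_comm (smooth_coord hτ hy a) i j

theorem eventually_mem (hU : IsOpen U) {y : Pt n} (hy : y ∈ U) : ∀ᶠ z in 𝓝 y, z ∈ U :=
  hU.mem_nhds hy

/-- derivative of the new metric -/
theorem Change.pd_metric (h : Change U τ g' g) {y : Pt n} (hy : y ∈ U) (i j l : Fin n) :
    pd i (fun z => g' z j l) y = ∑ a, ∑ b, ((∑ c, pd c (fun z => g z a b) (τ y) * jac τ c i y) *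
      jac τ a j y * jac τ b l y + g (τ y) a b * pd i (jac τ a j) y * jac τ b l y +
      g (τ y) a b * jac τ a j y * pd i (jac τ b l) y) := by
  have h1 : (fun z => g' z j l) =ᶠ[𝓝 y] fun z =>
      ∑ a, ∑ b, g (τ z) a b * jac τ a j z * jac τ b l z := by
    filter_upwards [eventually_mem h.isOpen hy] with z hz using h.eq z hz j l
  have dg : ∀ a b, DifferentiableAt ℝ (fun z => g (τ z) a b) y := fun a b =>
    DifferentiableAt.comp y (g := fun z => g z a b) (diffAt (h.metric_smooth y hy a b))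
      ((h.smooth y hy).differentiableAt (by simp))
  have dj : ∀ a i, DifferentiableAt ℝ (jac τ a i) y := fun a i => diffAt (smooth_jac h.smooth hy a i)
  have d1 : ∀ a b, DifferentiableAt ℝ (fun z => g (τ z) a b * jac τ a j z) y := fun a b =>
    (dg a b).fun_mul (dj a j)
  have d2 : ∀ a b, DifferentiableAt ℝ (fun z => g (τ z) a b * jac τ a j z * jac τ b l z) y :=
    fun a b => (d1 a b).fun_mul (dj b l)
  rw [pd_congr h1, pd_sum _ fun a _ => DifferentiableAt.fun_sum fun b _ => d2 a b]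
  refine Finset.sum_congr rfl fun a _ => ?_
  rw [pd_sum _ fun b _ => d2 a b]
  refine Finset.sum_congr rfl fun b _ => ?_
  rw [pd_mul (d1 a b) (dj b l), pd_mul (dg a b) (dj a j),
    pd_comp (f := fun z => g z a b) ((h.smooth y hy).differentiableAt (by simp))
      (diffAt (h.metric_smooth y hy a b))]
  ring

theorem first_kind (g : Fin n → Fin n → ℝ) (hg : ∀ a b, g a b = g b a)
    (G H : Fin n → Fin n → Fin n → ℝ) (hH : ∀ a i j, H a i j = H a j i)
    (J : Fin n → Fin n → ℝ) (D : Fin n → Fin n → Fin n → ℝ)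
    (hD : ∀ i j l, D i j l = ∑ a, ∑ b, ((∑ c, G c a b * J c i) * J a j * J b l +
      g a b * H a i j * J b l + g a b * J a j * H b i l)) (i j l : Fin n) :
    1 / 2 * (D i j l + D j i l - D l i j) =
      ∑ d, J d l * ((∑ a, ∑ b, 1 / 2 * (G a b d + G b a d - G d a b) * J a i * J b j) +
        ∑ a, g a d * H a i j) := by
  set T : Fin n → Fin n → Fin n → ℝ := fun i j l =>
    ∑ a, ∑ b, ∑ c, G c a b * J c i * J a j * J b l with hT
  set P : Fin n → Fin n → Fin n → ℝ := fun i j l => ∑ a, ∑ b, g a b * H a i j * J b l with hP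
  have h1 : ∀ i j l, D i j l = T i j l + P i j l + P i l j := by
    intro i j l
    rw [hD]
    simp only [hT, hP, Finset.sum_add_distrib, Finset.sum_mul]
    congr 1
    rw [Finset.sum_comm]
    refine Finset.sum_congr rfl fun a _ => Finset.sum_congr rfl fun b _ => ?_
    rw [hg b a]
    ring
  have hP' : ∀ i j l, P i j l = P j i l := by
    intro i j l
    simp only [hP]
    refine Finset.sum_congr rfl fun a _ => Finset.sum_congr rfl fun b _ => ?_
    rw [hH a i j]
  rw [h1, h1, h1, hP' j i l, hP' l i j, hP' l j i]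
  have e1 : T i j l = ∑ d, ∑ a, ∑ b, J d l * (G a b d * J a i * J b j) := by
    simp only [hT]
    rw [Finset.sum_comm]
    refine Finset.sum_congr rfl fun d _ => ?_
    rw [Finset.sum_comm]
    refine Finset.sum_congr rfl fun a _ => Finset.sum_congr rfl fun b _ => ?_
    ring
  have e2 : T j i l = ∑ d, ∑ a, ∑ b, J d l * (G b a d * J a i * J b j) := by
    simp only [hT]
    rw [Finset.sum_comm]
    refine Finset.sum_congr rfl fun d _ => ?_
    refine Finset.sum_congr rfl fun a _ => Finset.sum_congr rfl fun b _ => ?_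
    ring
  have e3 : T l i j = ∑ d, ∑ a, ∑ b, J d l * (G d a b * J a i * J b j) := by
    simp only [hT]
    have : ∀ a : Fin n, ∑ b, ∑ c, G c a b * J c l * J a i * J b j =
        ∑ c, ∑ b, G c a b * J c l * J a i * J b j := fun a => Finset.sum_comm
    simp only [this]
    rw [Finset.sum_comm]
    refine Finset.sum_congr rfl fun d _ => ?_
    refine Finset.sum_congr rfl fun a _ => Finset.sum_congr rfl fun b _ => ?_
    ring
  have e4 : P i j l = ∑ d, ∑ a, J d l * (g a d * H a i j) := by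
    simp only [hP]
    rw [Finset.sum_comm]
    refine Finset.sum_congr rfl fun a _ => Finset.sum_congr rfl fun b _ => ?_
    ring
  have e5 : ∑ d, J d l * ((∑ a, ∑ b, 1 / 2 * (G a b d + G b a d - G d a b) * J a i * J b j) +
        ∑ a, g a d * H a i j) = 1 / 2 * (T i j l + T j i l - T l i j) + P i j l := by
    rw [e1, e2, e3, e4]
    simp only [mul_add, mul_sub, Finset.mul_sum, ← Finset.sum_add_distrib,
      ← Finset.sum_sub_distrib]
    refine Finset.sum_congr rfl fun d _ => ?_
    refine Finset.sum_congr rfl fun a _ => ?_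
    congr 1
    refine Finset.sum_congr rfl fun b _ => ?_
    ring
  rw [e5]
  ring

theorem Change.matrix_eq (h : Change U τ g' g) {y : Pt n} (hy : y ∈ U) :
    g' y = (Matrix.of fun a i => jac τ a i y).transpose * g (τ y) *
      (Matrix.of fun a i => jac τ a i y) := by
  ext i j
  rw [h.eq y hy i j, Matrix.mul_apply]
  simp only [Matrix.mul_apply, Matrix.transpose_apply, Matrix.of_apply, Finset.sum_mul]
  rw [Finset.sum_comm]
  refine Finset.sum_congr rfl fun a _ => Finset.sum_congr rfl fun b _ => ?_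
  ring

theorem Change.det_ne (h : Change U τ g' g) {y : Pt n} (hy : y ∈ U) : (g' y).det ≠ 0 := by
  rw [h.matrix_eq hy, Matrix.det_mul, Matrix.det_mul, Matrix.det_transpose]
  exact mul_ne_zero (mul_ne_zero (h.jac_det y hy) (h.det y hy)) (h.jac_det y hy)

theorem Change.inv_eq (h : Change U τ g' g) {y : Pt n} (hy : y ∈ U) :
    (Matrix.of fun a i => jac τ a i y) * (g' y)⁻¹ *
      (Matrix.of fun a i => jac τ a i y).transpose = (g (τ y))⁻¹ := by
  have hJ := isUnit_iff_ne_zero.2 (h.jac_det y hy)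
  have hJt : IsUnit (Matrix.of fun a i => jac τ a i y).transpose.det := by
    rw [Matrix.det_transpose]; exact hJ
  set J : Matrix (Fin n) (Fin n) ℝ := Matrix.of fun a i => jac τ a i y
  rw [h.matrix_eq hy, Matrix.mul_inv_rev, Matrix.mul_inv_rev]
  rw [← Matrix.mul_assoc, Matrix.mul_nonsing_inv J hJ, Matrix.one_mul, Matrix.mul_assoc,
    Matrix.nonsing_inv_mul _ hJt, Matrix.mul_one]

/-- The transformation law of the Christoffel symbols. -/
theorem Change.chr (h : Change U τ g' g) {y : Pt n} (hy : y ∈ U) (c i j : Fin n) :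
    ∑ k, jac τ c k y * CP.chr g' k i j y =
      (∑ a, ∑ b, CP.chr g c a b (τ y) * jac τ a i y * jac τ b j y) + pd i (jac τ c j) y := by
  set v : Fin n → ℝ := fun d => (∑ a, ∑ b, 1 / 2 * (pd a (fun z => g z b d) (τ y) +
    pd b (fun z => g z a d) (τ y) - pd d (fun z => g z a b) (τ y)) * jac τ a i y * jac τ b j y) +
    ∑ a, g (τ y) a d * pd i (jac τ a j) y with hv
  have hsym : ∀ a b, g (τ y) a b = g (τ y) b a := (h.symm y hy).self_of_nhds
  have hG : ∀ c a b, pd c (fun z => g z a b) (τ y) = pd c (fun z => g z b a) (τ y) := by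
    intro c a b
    refine pd_congr ?_ c
    filter_upwards [h.symm y hy] with z hz using hz a b
  have h1 : ∀ l, 1 / 2 * (pd i (fun z => g' z j l) y + pd j (fun z => g' z i l) y -
      pd l (fun z => g' z i j) y) = ∑ d, jac τ d l y * v d := by
    intro l
    exact first_kind (g (τ y)) hsym (fun c a b => pd c (fun z => g z a b) (τ y))
      (fun a i j => pd i (jac τ a j) y) (fun a i j => jac_symm h.smooth hy a i j)
      (fun a i => jac τ a i y) (fun i j l => pd i (fun z => g' z j l) y)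
      (fun i j l => h.pd_metric hy i j l) i j l
  have h2 : ∀ k, CP.chr g' k i j y = ∑ l, (g' y)⁻¹ k l * ∑ d, jac τ d l y * v d := by
    intro k
    unfold CP.chr
    rw [Finset.mul_sum]
    refine Finset.sum_congr rfl fun l _ => ?_
    rw [← h1]
    ring
  have h3 : ∀ d, ∑ k, ∑ l, jac τ c k y * (g' y)⁻¹ k l * jac τ d l y = (g (τ y))⁻¹ c d := by
    intro d
    rw [← h.inv_eq hy, Matrix.mul_apply]
    simp only [Matrix.mul_apply, Matrix.transpose_apply, Matrix.of_apply, Finset.sum_mul]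
    rw [Finset.sum_comm]
  have h4 : ∑ k, jac τ c k y * CP.chr g' k i j y = ∑ d, (g (τ y))⁻¹ c d * v d := by
    simp only [h2, ← h3, Finset.mul_sum, Finset.sum_mul]
    have e1 : ∀ k : Fin n, ∑ l, ∑ d, jac τ c k y * ((g' y)⁻¹ k l * (jac τ d l y * v d)) =
        ∑ d, ∑ l, jac τ c k y * ((g' y)⁻¹ k l * (jac τ d l y * v d)) := fun k => Finset.sum_comm
    simp only [e1]
    rw [Finset.sum_comm]
    refine Finset.sum_congr rfl fun d _ => Finset.sum_congr rfl fun k _ =>
      Finset.sum_congr rfl fun l _ => ?_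
    ring
  rw [h4]
  have h5 : ∑ d, (g (τ y))⁻¹ c d * ∑ a, g (τ y) a d * pd i (jac τ a j) y =
      pd i (jac τ c j) y := by
    have : ∀ d, ∑ a, g (τ y) a d * pd i (jac τ a j) y = ∑ a, g (τ y) d a * pd i (jac τ a j) y :=
      fun d => Finset.sum_congr rfl fun a _ => by rw [hsym a d]
    simp only [this]
    exact sum_inv_mul (h.det y hy) c _
  have h6 : ∑ d, (g (τ y))⁻¹ c d * (∑ a, ∑ b, 1 / 2 * (pd a (fun z => g z b d) (τ y) +
      pd b (fun z => g z a d) (τ y) - pd d (fun z => g z a b) (τ y)) * jac τ a i y *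
        jac τ b j y) = ∑ a, ∑ b, CP.chr g c a b (τ y) * jac τ a i y * jac τ b j y := by
    simp only [Finset.mul_sum]
    rw [Finset.sum_comm]
    refine Finset.sum_congr rfl fun a _ => ?_
    rw [Finset.sum_comm]
    refine Finset.sum_congr rfl fun b _ => ?_
    unfold CP.chr
    simp only [Finset.mul_sum, Finset.sum_mul]
    refine Finset.sum_congr rfl fun d _ => ?_
    ring
  simp only [hv, mul_add, Finset.sum_add_distrib, h5, h6]

end Pool.Agent.T9h84.CP
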