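import Pool.Agent.T9h84.CP.Neg

/-!
# The test functions
-/

set_option autoImplicit false

open scoped BigOperators ContDiff Topology
open Filter MeasureTheory

namespace Pool.Agent.T9h84.CP

/-- `cos (2π x_j)` -/
noncomputable def co (j : Fin 6) : Pt 6 → ℝ := fun x => Real.cos (2 * Real.pi * x j)

/-- `sin (2π x_j)` -/
noncomputable def si (j : Fin 6) : Pt 6 → ℝ := fun x => Real.sin (2 * Real.pi * x j)

theorem contDiff_co (j : Fin 6) : ContDiff ℝ ∞ (co j) := by
  unfold co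
  exact Real.contDiff_cos.comp (contDiff_const.mul (contDiff_apply ℝ ℝ j))

theorem contDiff_si (j : Fin 6) : ContDiff ℝ ∞ (si j) := by
  unfold si
  exact Real.contDiff_sin.comp (contDiff_const.mul (contDiff_apply ℝ ℝ j))

theorem periodic_co (j : Fin 6) : IsPeriodic (co j) := by
  intro m x
  unfold co
  rw [mul_add, mul_comm (2 * Real.pi) (m j : ℝ)]
  exact Real.cos_add_int_mul_two_pi _ _

theorem hasFDerivAt_coord (j : Fin 6) (x : Pt 6) :
    HasFDerivAt (fun x : Pt 6 => 2 * Real.pi * x j)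
      ((2 * Real.pi) • (ContinuousLinearMap.proj j : Pt 6 →L[ℝ] ℝ)) x := by
  exact (ContinuousLinearMap.hasFDerivAt
    (ContinuousLinearMap.proj j : Pt 6 →L[ℝ] ℝ)).const_mul (2 * Real.pi)

theorem pd_co (i j : Fin 6) : pd i (co j) = fun x => dl j i * (-(2 * Real.pi) * si j x) := by
  ext x
  unfold pd co
  have h : HasFDerivAt (fun x : Pt 6 => Real.cos (2 * Real.pi * x j)) _ x :=
    (Real.hasDerivAt_cos _).comp_hasFDerivAt x (hasFDerivAt_coord j x)
  rw [h.fderiv]
  simp only [si, dl, _root_.smul_apply, ContinuousLinearMap.proj_apply,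
    smul_eq_mul, Pi.single_apply]
  split_ifs <;> ring

theorem pd_si (i j : Fin 6) : pd i (si j) = fun x => dl j i * ((2 * Real.pi) * co j x) := by
  ext x
  unfold pd si
  have h : HasFDerivAt (fun x : Pt 6 => Real.sin (2 * Real.pi * x j)) _ x :=
    (Real.hasDerivAt_sin _).comp_hasFDerivAt x (hasFDerivAt_coord j x)
  rw [h.fderiv]
  simp only [co, dl, _root_.smul_apply, ContinuousLinearMap.proj_apply,
    smul_eq_mul, Pi.single_apply]
  split_ifs <;> ring

/-- the test functions -/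
noncomputable def tw : Fin 3 → Pt 6 → ℝ := ![fun x => co 0 x * co 1 x, co 1, co 0]

theorem contDiff_tw (a : Fin 3) : ContDiff ℝ ∞ (tw a) := by
  fin_cases a
  · exact (contDiff_co 0).mul (contDiff_co 1)
  · exact contDiff_co 1
  · exact contDiff_co 0

theorem periodic_tw (a : Fin 3) : IsPeriodic (tw a) := by
  fin_cases a
  · intro m x
    change co 0 _ * co 1 _ = co 0 _ * co 1 _
    rw [periodic_co 0 m x, periodic_co 1 m x]
  · exact periodic_co 1
  · exact periodic_co 0

theorem dco (j : Fin 6) (x : Pt 6) : DifferentiableAt ℝ (co j) x :=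
  (contDiff_co j).contDiffAt.differentiableAt (by simp)

theorem dsi (j : Fin 6) (x : Pt 6) : DifferentiableAt ℝ (si j) x :=
  (contDiff_si j).contDiffAt.differentiableAt (by simp)

theorem pd_pd_co (i k j : Fin 6) : pd i (pd k (co j)) = fun x =>
    dl j i * dl j k * (-(2 * Real.pi) ^ 2 * co j x) := by
  ext x
  rw [pd_co]
  have h : (fun x => dl j k * (-(2 * Real.pi) * si j x)) = fun x =>
      (dl j k * (-(2 * Real.pi))) * si j x := by ext x; ring
  rw [h, pd_const_mul _ (dsi j x), pd_si]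
  ring

theorem lrho_co (j i k : Fin 6) : lrho (co j) k i = fun x =>
    (2 * Real.pi) ^ 2 * co j x * (4 * (dl j k * dl j i) + dl k i) := by
  ext x
  unfold lrho
  simp only [pd_pd_co, mul_assoc]
  have : ∑ i : Fin 6, dl j i * (dl j i * (-(2 * Real.pi) ^ 2 * co j x)) =
      -(2 * Real.pi) ^ 2 * co j x := by
    rw [sum_dl]
    simp [dl]
  rw [this]
  push_cast
  ring

/-- products of test functions -/
theorem pd_mul' {f h : Pt 6 → ℝ} (hf : ContDiff ℝ ∞ f) (hh : ContDiff ℝ ∞ h) (i : Fin 6) :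
    pd i (fun y => f y * h y) = fun x => pd i f x * h x + f x * pd i h x := by
  ext x
  exact pd_mul (diffAt hf.contDiffAt) (diffAt hh.contDiffAt) i

theorem pd_pd_mul {f h : Pt 6 → ℝ} (hf : ContDiff ℝ ∞ f) (hh : ContDiff ℝ ∞ h) (i k : Fin 6)
    (x : Pt 6) : pd i (pd k (fun y => f y * h y)) x = pd i (pd k f) x * h x +
      pd k f x * pd i h x + pd i f x * pd k h x + f x * pd i (pd k h) x := by
  have hpf : ContDiffAt ℝ ∞ (pd k f) x := contDiffAt_pd hf.contDiffAt k
  have hph : ContDiffAt ℝ ∞ (pd k h) x := contDiffAt_pd hh.contDiffAt k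
  rw [pd_mul' hf hh, pd_add ((diffAt hpf).fun_mul (diffAt hh.contDiffAt))
    ((diffAt hf.contDiffAt).fun_mul (diffAt hph)),
    pd_mul (diffAt hpf) (diffAt hh.contDiffAt), pd_mul (diffAt hf.contDiffAt) (diffAt hph)]
  ring

theorem lrho_coco (i k : Fin 6) : lrho (fun x => co 0 x * co 1 x) k i = fun x =>
    (2 * Real.pi) ^ 2 * (co 0 x * co 1 x * (4 * (dl 0 k * dl 0 i + dl 1 k * dl 1 i) + 2 * dl k i)
      - si 0 x * si 1 x * (4 * (dl 0 k * dl 1 i + dl 1 k * dl 0 i))) := by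
  ext x
  unfold lrho
  simp only [pd_pd_mul (contDiff_co 0) (contDiff_co 1), pd_pd_co]
  simp only [pd_co]
  have : ∑ i : Fin 6, (dl 0 i * dl 0 i * (-(2 * Real.pi) ^ 2 * co 0 x) * co 1 x +
      dl 0 i * (-(2 * Real.pi) * si 0 x) * (dl 1 i * (-(2 * Real.pi) * si 1 x)) +
      dl 0 i * (-(2 * Real.pi) * si 0 x) * (dl 1 i * (-(2 * Real.pi) * si 1 x)) +
      co 0 x * (dl 1 i * dl 1 i * (-(2 * Real.pi) ^ 2 * co 1 x))) =
      -2 * (2 * Real.pi) ^ 2 * (co 0 x * co 1 x) := by
    simp only [Fin.sum_univ_succ, dl]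
    simp
    ring
  rw [this]
  push_cast
  ring

theorem bil_20 : bil (co 0) (co 1) = fun y =>
    (28 * ((2 * Real.pi) ^ 2) ^ 2) * (co 0 y * co 1 y) := by
  ext y
  unfold bil
  simp only [lrho_co]
  simp only [Fin.sum_univ_succ, dl]
  simp
  ring

theorem bil_10 : bil (fun x => co 0 x * co 1 x) (co 1) = fun y =>
    (88 * ((2 * Real.pi) ^ 2) ^ 2) * (co 0 y * (co 1 y * co 1 y)) := by
  ext y
  unfold bil
  simp only [lrho_co, lrho_coco]
  simp only [Fin.sum_univ_succ, dl]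
  simp
  ring

theorem lap_bil_20 (x : Pt 6) : ∑ i, pd i (pd i (bil (co 0) (co 1))) x =
    -(56 * ((2 * Real.pi) ^ 2) ^ 3) * (co 0 x * co 1 x) := by
  have hc : ContDiff ℝ ∞ fun y => co 0 y * co 1 y := (contDiff_co 0).mul (contDiff_co 1)
  have h1 : ∀ i, pd i (bil (co 0) (co 1)) = fun y =>
      (28 * ((2 * Real.pi) ^ 2) ^ 2) * pd i (fun y => co 0 y * co 1 y) y := by
    intro i
    rw [bil_20]
    ext y
    exact pd_const_mul _ (diffAt hc.contDiffAt) i
  have h2 : ∀ i, pd i (pd i (bil (co 0) (co 1))) x =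
      (28 * ((2 * Real.pi) ^ 2) ^ 2) * pd i (pd i (fun y => co 0 y * co 1 y)) x := by
    intro i
    rw [h1]
    exact pd_const_mul _ (diffAt_pd hc.contDiffAt i) i
  simp only [h2, pd_pd_mul (contDiff_co 0) (contDiff_co 1), pd_pd_co]
  simp only [pd_co]
  simp only [Fin.sum_univ_succ, dl]
  simp
  ring

theorem lap_bil_10 (x : Pt 6) :
    ∑ i, pd i (pd i (bil (fun x => co 0 x * co 1 x) (co 1))) x =
    -(88 * ((2 * Real.pi) ^ 2) ^ 3) * (co 0 x * (co 1 x * co 1 x) +
      2 * (co 0 x * (co 1 x * co 1 x - si 1 x * si 1 x))) := by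
  have hcc : ContDiff ℝ ∞ fun y => co 1 y * co 1 y := (contDiff_co 1).mul (contDiff_co 1)
  have hc : ContDiff ℝ ∞ fun y => co 0 y * (co 1 y * co 1 y) := (contDiff_co 0).mul hcc
  have h1 : ∀ i, pd i (bil (fun x => co 0 x * co 1 x) (co 1)) = fun y =>
      (88 * ((2 * Real.pi) ^ 2) ^ 2) * pd i (fun y => co 0 y * (co 1 y * co 1 y)) y := by
    intro i
    rw [bil_10]
    ext y
    exact pd_const_mul _ (diffAt hc.contDiffAt) i
  have h2 : ∀ i, pd i (pd i (bil (fun x => co 0 x * co 1 x) (co 1))) x =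
      (88 * ((2 * Real.pi) ^ 2) ^ 2) * pd i (pd i (fun y => co 0 y * (co 1 y * co 1 y))) x := by
    intro i
    rw [h1]
    exact pd_const_mul _ (diffAt_pd hc.contDiffAt i) i
  simp only [h2, pd_pd_mul (contDiff_co 0) hcc, pd_pd_co]
  simp only [pd_pd_mul (contDiff_co 1) (contDiff_co 1)]
  simp only [pd_mul' (contDiff_co 1) (contDiff_co 1), pd_pd_co]
  simp only [pd_co]
  simp only [Fin.sum_univ_succ, dl]
  simp
  ring

/-! ### Integrals over the cube -/

theorem integral_cube_prod (f : Fin 6 → ℝ → ℝ) :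
    ∫ x in cube 6, ∏ i, f i (x i) = ∏ i, ∫ t in Set.Icc (0 : ℝ) 1, f i t := by
  have h : (volume : Measure (Pt 6)).restrict (cube 6) =
      Measure.pi fun _ => (volume : Measure ℝ).restrict (Set.Icc 0 1) := by
    rw [cube, ← Set.pi_univ_Icc, volume_pi, Measure.restrict_pi_pi]
    rfl
  rw [h]
  exact integral_fintype_prod_eq_prod f

theorem int_cos_sq : ∫ t in Set.Icc (0 : ℝ) 1, Real.cos (2 * Real.pi * t) ^ 2 = 1 / 2 := by
  rw [integral_Icc_eq_integral_Ioc, ← intervalIntegral.integral_of_le zero_le_one]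
  have h := intervalIntegral.integral_comp_mul_left (fun t => Real.cos t ^ 2) (a := 0) (b := 1)
    (c := 2 * Real.pi) (by positivity)
  rw [h, mul_zero, mul_one, integral_cos_sq]
  simp
  field_simp

theorem int_cos_two : ∫ t in Set.Icc (0 : ℝ) 1,
    (Real.cos (2 * Real.pi * t) ^ 2 - Real.sin (2 * Real.pi * t) ^ 2) = 0 := by
  rw [integral_Icc_eq_integral_Ioc, ← intervalIntegral.integral_of_le zero_le_one]
  have h := intervalIntegral.integral_comp_mul_left (fun t => Real.cos t ^ 2 - Real.sin t ^ 2)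
    (a := 0) (b := 1) (c := 2 * Real.pi) (by positivity)
  rw [h, mul_zero, mul_one, integral_cos_sq_sub_sin_sq]
  simp

theorem integral_cube_one (f g : ℝ → ℝ) :
    ∫ x in cube 6, f (x 0) * g (x 1) =
      (∫ t in Set.Icc (0 : ℝ) 1, f t) * ∫ t in Set.Icc (0 : ℝ) 1, g t := by
  have h := integral_cube_prod ![f, g, fun _ => 1, fun _ => 1, fun _ => 1, fun _ => 1]
  simp only [Fin.prod_univ_succ] at h
  simpa using h

theorem int_c2c2 : ∫ x in cube 6, Real.cos (2 * Real.pi * x 0) ^ 2 *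
    Real.cos (2 * Real.pi * x 1) ^ 2 = 1 / 4 := by
  have h := integral_cube_one (fun t => Real.cos (2 * Real.pi * t) ^ 2)
    (fun t => Real.cos (2 * Real.pi * t) ^ 2)
  rw [h, int_cos_sq]
  norm_num

theorem int_c2d : ∫ x in cube 6, Real.cos (2 * Real.pi * x 0) ^ 2 *
    (Real.cos (2 * Real.pi * x 1) ^ 2 - Real.sin (2 * Real.pi * x 1) ^ 2) = 0 := by
  have h := integral_cube_one (fun t => Real.cos (2 * Real.pi * t) ^ 2)
    (fun t => Real.cos (2 * Real.pi * t) ^ 2 - Real.sin (2 * Real.pi * t) ^ 2)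
  rw [h, int_cos_two, mul_zero]

theorem int_lhs : ∫ x in cube 6, tw 0 x *
    dp (ee 1) (dp (ee 2) (fun p => form lapRicSq (fam tw p))) 0 x =
      -(14 * ((2 * Real.pi) ^ 2) ^ 3) := by
  have h : ∀ x, tw 0 x * dp (ee 1) (dp (ee 2) (fun p => form lapRicSq (fam tw p))) 0 x =
      (-(56 * ((2 * Real.pi) ^ 2) ^ 3)) * ((fun t => Real.cos (2 * Real.pi * t) ^ 2) (x 0) *
        (fun t => Real.cos (2 * Real.pi * t) ^ 2) (x 1)) := by
    intro x
    rw [dp_dp_lapRicSq contDiff_tw]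
    change (co 0 x * co 1 x) * ∑ i, pd i (pd i (bil (co 0) (co 1))) x = _
    rw [lap_bil_20]
    unfold co
    ring
  simp only [h]
  rw [integral_const_mul, int_c2c2]
  ring

theorem int_rhs : ∫ x in cube 6, tw 2 x *
    dp (ee 1) (dp (ee 0) (fun p => form lapRicSq (fam tw p))) 0 x =
      -(22 * ((2 * Real.pi) ^ 2) ^ 3) := by
  have h : ∀ x, tw 2 x * dp (ee 1) (dp (ee 0) (fun p => form lapRicSq (fam tw p))) 0 x =
      (-(88 * ((2 * Real.pi) ^ 2) ^ 3)) * ((fun t => Real.cos (2 * Real.pi * t) ^ 2) (x 0) *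
        (fun t => Real.cos (2 * Real.pi * t) ^ 2) (x 1)) +
      (-(176 * ((2 * Real.pi) ^ 2) ^ 3)) * ((fun t => Real.cos (2 * Real.pi * t) ^ 2) (x 0) *
        (fun t => Real.cos (2 * Real.pi * t) ^ 2 - Real.sin (2 * Real.pi * t) ^ 2) (x 1)) := by
    intro x
    rw [dp_dp_lapRicSq contDiff_tw]
    change co 0 x * ∑ i, pd i (pd i (bil (fun x => co 0 x * co 1 x) (co 1))) x = _
    rw [lap_bil_10]
    unfold co si
    ring
  simp only [h]
  have hc : ∀ f g : ℝ → ℝ, Continuous f → Continuous g → ∀ c : ℝ,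
      Integrable (fun x : Pt 6 => c * (f (x 0) * g (x 1))) (volume.restrict (cube 6)) := by
    intro f g hf hg c
    have : Continuous fun x : Pt 6 => c * (f (x 0) * g (x 1)) := by fun_prop
    exact this.continuousOn.integrableOn_compact isCompact_Icc
  have hc1 : Continuous fun t : ℝ => Real.cos (2 * Real.pi * t) ^ 2 := by fun_prop
  have hc2 : Continuous fun t : ℝ =>
    Real.cos (2 * Real.pi * t) ^ 2 - Real.sin (2 * Real.pi * t) ^ 2 := by fun_prop
  rw [integral_add (hc _ _ hc1 hc1 _) (hc _ _ hc1 hc2 _), integral_const_mul, integral_const_mul,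
    int_c2c2, int_c2d]
  ring

/-- There is no primitive on the torus `T^6`. -/
theorem no_primitive {Q L : NatTen 0} (hQ : HasQLaw 6 Q) (hL : IsLocalInvariant 6 L) (c : ℝ)
    (F : NatTen 0) : ¬ IsPrimitiveTorus 6 F
      fun g x => form lapRicSq g x - c * form Q g x - form L g x := by
  intro hF
  have h := symm_of_primitive hQ hL c hF contDiff_tw periodic_tw 0 2 1
  rw [int_lhs, int_rhs] at h
  have : 0 < ((2 * Real.pi) ^ 2) ^ 3 := by positivity
  linarith

end Pool.Agent.T9h84.CP
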