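import Pool.Agent.T9h84.CP.Second

/-!
# Integrals of divergences
-/

set_option autoImplicit false

open scoped BigOperators ContDiff Topology
open Filter MeasureTheory

namespace Pool.Agent.T9h84.CP

variable {n : ℕ}

/-! ### Translations -/

theorem pd_translate (f : Pt n → ℝ) (c : Pt n) (i : Fin n) (x : Pt n) :
    pd i (fun y => f (y + c)) x = pd i f (x + c) := by
  unfold pd
  rw [fderiv_comp_add_right]

theorem chr_translate (g : Met n) (c : Pt n) (k i j : Fin n) (x : Pt n) :
    chr (fun y => g (y + c)) k i j x = chr g k i j (x + c) := by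
  have h : ∀ i a b, pd i (fun y => g (y + c) a b) x = pd i (fun y => g y a b) (x + c) :=
    fun i a b => pd_translate (fun y => g y a b) c i x
  unfold chr
  simp only [h]

theorem eval_translate (g : Met n) (c : Pt n) {k : ℕ} (t : NatTen k) :
    ∀ (a : Fin k → Fin n) (x : Pt n), t.eval (fun y => g (y + c)) a x = t.eval g a (x + c) := by
  induction t with
  | one => intro a x; rfl
  | metric => intro a x; rfl
  | riem =>
    intro a x
    change riem _ a x = riem g a (x + c)
    have h : ∀ k i j, chr (fun y => g (y + c)) k i j = fun x => chr g k i j (x + c) :=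
      fun k i j => funext fun x => chr_translate g c k i j x
    unfold riem
    simp only [h, pd_translate]
  | add s t hs ht => intro a x; simp only [NatTen.eval, hs, ht]
  | smul c t ht => intro a x; simp only [NatTen.eval, ht]
  | mul s t hs ht => intro a x; simp only [NatTen.eval, hs, ht]
  | perm σ t ht => intro a x; simp only [NatTen.eval, ht]
  | nabla t ht =>
    intro a x
    change nab _ _ a x = nab g (t.eval g) a (x + c)
    unfold nab
    have h : ∀ a, t.eval (fun y => g (y + c)) a = fun x => t.eval g a (x + c) :=
      fun a => funext fun x => ht a x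
    simp only [h, chr_translate, pd_translate]
  | contr t ht => intro a x; simp only [NatTen.eval, ht]

/-- locality -/
theorem chr_congr {g g' : Met n} {x : Pt n} (h : g =ᶠ[𝓝 x] g') (k i j : Fin n) :
    chr g k i j =ᶠ[𝓝 x] chr g' k i j := by
  filter_upwards [h.eventuallyEq_nhds] with y hy
  have h1 : ∀ i a b, pd i (fun z => g z a b) y = pd i (fun z => g' z a b) y := by
    intro i a b
    refine pd_congr ?_ i
    filter_upwards [hy] with z hz
    rw [hz]
  unfold chr
  simp only [h1, hy.eq_of_nhds]

theorem eval_congr {g g' : Met n} {k : ℕ} (t : NatTen k) :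
    ∀ (a : Fin k → Fin n) (x : Pt n), g =ᶠ[𝓝 x] g' → t.eval g a =ᶠ[𝓝 x] t.eval g' a := by
  induction t with
  | one => intro a x _; exact EventuallyEq.rfl
  | metric =>
    intro a x h
    filter_upwards [h] with y hy
    change g y _ _ = g' y _ _
    rw [hy]
  | riem =>
    intro a x h
    filter_upwards [h.eventuallyEq_nhds] with y hy
    change riem g a y = riem g' a y
    unfold riem
    have h1 : ∀ m k i j, pd m (chr g k i j) y = pd m (chr g' k i j) y := fun m k i j =>
      pd_congr (chr_congr hy k i j) m
    have h2 : ∀ k i j, chr g k i j y = chr g' k i j y := fun k i j =>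
      (chr_congr hy k i j).eq_of_nhds
    simp only [h1, h2, hy.eq_of_nhds]
  | add s t hs ht =>
    intro a x h
    filter_upwards [hs a x h, ht a x h] with y h1 h2
    simp only [NatTen.eval, h1, h2]
  | smul c t ht =>
    intro a x h
    filter_upwards [ht a x h] with y h1
    simp only [NatTen.eval, h1]
  | mul s t hs ht =>
    intro a x h
    filter_upwards [hs (a ∘ Fin.castAdd _) x h, ht (a ∘ Fin.natAdd _) x h] with y h1 h2
    simp only [NatTen.eval, h1, h2]
  | perm σ t ht =>
    intro a x h
    exact ht _ x h
  | nabla t ht =>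
    intro a x h
    filter_upwards [h.eventuallyEq_nhds] with y hy
    change nab g (t.eval g) a y = nab g' (t.eval g') a y
    unfold nab
    have h1 : ∀ m a, pd m (t.eval g a) y = pd m (t.eval g' a) y := fun m a =>
      pd_congr (ht a y hy) m
    have h2 : ∀ k i j, chr g k i j y = chr g' k i j y := fun k i j =>
      (chr_congr hy k i j).eq_of_nhds
    have h3 : ∀ a, t.eval g a y = t.eval g' a y := fun a => (ht a y hy).eq_of_nhds
    simp only [h1, h2, h3]
  | contr t ht =>
    intro a x h
    have h1 : ∀ᶠ y in 𝓝 x, ∀ b, t.eval g b y = t.eval g' b y :=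
      eventually_all.2 fun b => ht b x h
    filter_upwards [h, h1] with y hy h2
    simp only [NatTen.eval, hy, h2]

/-! ### The divergence theorem on a box -/

theorem integral_div_box {m : ℕ} {X : Fin (m + 1) → Pt (m + 1) → ℝ}
    (hX : ∀ i, ContDiff ℝ ∞ (X i)) {a b : Pt (m + 1)} (hab : a ≤ b)
    (hface : ∀ i (y : Fin m → ℝ), X i (i.insertNth (b i) y) = X i (i.insertNth (a i) y)) :
    ∫ x in Set.Icc a b, ∑ i, pd i (X i) x = 0 := by
  have hc : Continuous fun x => ∑ i, pd i (X i) x :=
    continuous_finsetSum _ fun i _ => continuous_iff_continuousAt.2 fun x =>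
      (contDiffAt_pd (hX i).contDiffAt i).continuousAt
  have h := integral_divergence_of_hasFDerivAt_off_countable' a b hab X
    (fun i x => fderiv ℝ (X i) x) ∅ Set.countable_empty
    (fun i => (hX i).continuous.continuousOn)
    (fun x _ i => ((hX i).contDiffAt.differentiableAt (by simp)).hasFDerivAt)
    (hc.continuousOn.integrableOn_compact isCompact_Icc)
  unfold pd
  rw [h]
  refine Finset.sum_eq_zero fun i _ => ?_
  rw [sub_eq_zero]
  refine integral_congr_ae (ae_of_all _ fun y => ?_)
  exact hface i y

end Pool.Agent.T9h84.CP
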