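import Pool.Agent.T9h84.CP.Div

/-!
# Integrals of families and the closedness condition
-/

set_option autoImplicit false

open scoped BigOperators ContDiff Topology
open Filter MeasureTheory

namespace Pool.Agent.T9h84.CP

variable {n : ℕ} {W : Type*} [NormedAddCommGroup W] [NormedSpace ℝ W]

theorem continuous_of_JS {f : W → Pt n → ℝ} (hf : ∀ z, JS f z) :
    Continuous fun y : W × Pt n => f y.1 y.2 :=
  continuous_iff_continuousAt.2 fun z => ContDiffAt.continuousAt (hf z)

theorem hasDerivAt_line {f : W → Pt n → ℝ} (hf : ∀ z, JS f z) (p u : W) (x : Pt n) (t : ℝ) :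
    HasDerivAt (fun t : ℝ => f (p + t • u) x) (dp u f (p + t • u) x) t := by
  have h1 : HasDerivAt (fun t : ℝ => p + t • u) u t := by
    simpa using ((hasDerivAt_id t).smul_const u).const_add p
  have h2 : DifferentiableAt ℝ (fun q => f q x) (p + t • u) :=
    (hf (p + t • u, x)).differentiableAt_left
  exact h2.hasFDerivAt.comp_hasDerivAt t h1

theorem hasDerivAt_integral {f : W → Pt n → ℝ} (hf : ∀ z, JS f z) {K : Set (Pt n)}
    (hK : IsCompact K) (p u : W) :
    HasDerivAt (fun t : ℝ => ∫ x in K, f (p + t • u) x) (∫ x in K, dp u f p x) 0 := by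
  have hc : Continuous fun y : ℝ × Pt n => f (p + y.1 • u) y.2 :=
    (continuous_of_JS hf).comp
      ((continuous_const.add (continuous_fst.smul continuous_const)).prodMk continuous_snd)
  have hc' : Continuous fun y : ℝ × Pt n => dp u f (p + y.1 • u) y.2 :=
    (continuous_of_JS fun z => (hf z).dp u).comp
      ((continuous_const.add (continuous_fst.smul continuous_const)).prodMk continuous_snd)
  have hKc : IsCompact (Metric.closedBall (0 : ℝ) 1 ×ˢ K) := (isCompact_closedBall _ _).prod hK
  obtain ⟨C, hC⟩ := hKc.exists_bound_of_continuousOn hc'.continuousOn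
  have hint : ∀ t : ℝ, Integrable (fun x => f (p + t • u) x) (volume.restrict K) := fun t =>
    (hc.comp (continuous_const.prodMk continuous_id)).continuousOn.integrableOn_compact hK
  have key := hasDerivAt_integral_of_dominated_loc_of_deriv_le (μ := volume.restrict K)
    (s := Metric.ball (0 : ℝ) 1) (x₀ := (0 : ℝ)) (F := fun t x => f (p + t • u) x)
    (F' := fun t x => dp u f (p + t • u) x) (bound := fun _ => C)
    (Metric.ball_mem_nhds _ one_pos) (Eventually.of_forall fun t => (hint t).aestronglyMeasurable)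
    (hint 0)
    ((hc'.comp (continuous_const.prodMk continuous_id)).aestronglyMeasurable)
    ((ae_restrict_iff' hK.measurableSet).2 (ae_of_all _ fun x hx t ht =>
      hC (t, x) ⟨Metric.ball_subset_closedBall ht, hx⟩))
    (integrable_const_iff.2 (Or.inr ⟨by
      rw [Measure.restrict_apply_univ]; exact hK.measure_lt_top⟩))
    (ae_of_all _ fun x t _ => hasDerivAt_line hf p u x t)
  have h2 := key.2
  simpa using h2

/-- If two one-parameter derivatives of the integral of `f` are given by `γ`, then the parameter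
derivatives of `γ` are symmetric. -/
theorem closed_of_primitive {f γ : W → Pt n → ℝ} (hf : ∀ z, JS f z) (hγ : ∀ z, JS γ z)
    {K : Set (Pt n)} (hK : IsCompact K) {a b : W} {wa wb : Pt n → ℝ}
    (hwa : ContDiff ℝ ∞ wa) (hwb : ContDiff ℝ ∞ wb)
    (ha : ∀ p, HasDerivAt (fun t : ℝ => ∫ x in K, f (p + t • a) x)
      (∫ x in K, wa x * γ p x) 0)
    (hb : ∀ p, HasDerivAt (fun t : ℝ => ∫ x in K, f (p + t • b) x)
      (∫ x in K, wb x * γ p x) 0) (p : W) :
    ∫ x in K, wa x * dp b γ p x = ∫ x in K, wb x * dp a γ p x := by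
  have key : ∀ (a b : W) (wa : Pt n → ℝ), ContDiff ℝ ∞ wa →
      (∀ p, HasDerivAt (fun t : ℝ => ∫ x in K, f (p + t • a) x)
        (∫ x in K, wa x * γ p x) 0) →
      ∫ x in K, dp b (dp a f) p x = ∫ x in K, wa x * dp b γ p x := by
    intro a b wa hwa ha
    have h1 : ∀ p, ∫ x in K, dp a f p x = ∫ x in K, wa x * γ p x := fun p =>
      (hasDerivAt_integral hf hK p a).unique (ha p)
    have h2 := hasDerivAt_integral (fun z => (hf z).dp a) hK p b
    have hJ : ∀ z, JS (fun (q : W) x => wa x * γ q x) z := fun z =>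
      (JS.of_contDiff hwa.contDiffAt).mul (hγ z)
    have h3 := hasDerivAt_integral hJ hK p b
    simp only [h1] at h2
    rw [h2.unique h3]
    refine setIntegral_congr_fun hK.measurableSet fun x _ => ?_
    have h4 := dp_mul (z := (p, x)) (f := fun (_ : W) x => wa x) (h := γ)
      (JS.of_contDiff hwa.contDiffAt) (hγ _) b
    have h5 : dp b (fun (_ : W) x => wa x) p x = 0 := by simp [dp]
    simp only [h5, zero_mul, zero_add] at h4
    exact h4
  rw [← key a b wa hwa ha, ← key b a wb hwb hb]
  refine setIntegral_congr_fun hK.measurableSet fun x _ => ?_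
  exact (hf (p, x)).dp_dp b a

theorem closed_second {f γ : W → Pt n → ℝ} (hf : ∀ z, JS f z) (hγ : ∀ z, JS γ z)
    {K : Set (Pt n)} (hK : IsCompact K) {a b : W} {wa wb : Pt n → ℝ}
    (hwa : ContDiff ℝ ∞ wa) (hwb : ContDiff ℝ ∞ wb)
    (ha : ∀ p, HasDerivAt (fun t : ℝ => ∫ x in K, f (p + t • a) x)
      (∫ x in K, wa x * γ p x) 0)
    (hb : ∀ p, HasDerivAt (fun t : ℝ => ∫ x in K, f (p + t • b) x)
      (∫ x in K, wb x * γ p x) 0) (c p : W) :
    ∫ x in K, wa x * dp c (dp b γ) p x = ∫ x in K, wb x * dp c (dp a γ) p x := by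
  have key : ∀ (b : W) (wa : Pt n → ℝ), ContDiff ℝ ∞ wa →
      HasDerivAt (fun t : ℝ => ∫ x in K, wa x * dp b γ (p + t • c) x)
        (∫ x in K, wa x * dp c (dp b γ) p x) 0 := by
    intro b wa hwa
    have hJ : ∀ z, JS (fun (q : W) x => wa x * dp b γ q x) z := fun z =>
      (JS.of_contDiff hwa.contDiffAt).mul ((hγ z).dp b)
    have h3 := hasDerivAt_integral hJ hK p c
    have h6 : ∫ x in K, dp c (fun (q : W) x => wa x * dp b γ q x) p x =
        ∫ x in K, wa x * dp c (dp b γ) p x := by
      refine setIntegral_congr_fun hK.measurableSet fun x _ => ?_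
      have h4 := dp_mul (z := (p, x)) (f := fun (_ : W) x => wa x) (h := dp b γ)
        (JS.of_contDiff hwa.contDiffAt) ((hγ _).dp b) c
      have h5 : dp c (fun (_ : W) x => wa x) p x = 0 := by simp [dp]
      simp only [h5, zero_mul, zero_add] at h4
      exact h4
    rw [← h6]
    exact h3
  have h1 := key b wa hwa
  have h2 := key a wb hwb
  have h3 : (fun t : ℝ => ∫ x in K, wa x * dp b γ (p + t • c) x) =
      fun t : ℝ => ∫ x in K, wb x * dp a γ (p + t • c) x := by
    ext t
    exact closed_of_primitive hf hγ hK hwa hwb ha hb _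
  rw [h3] at h1
  exact h1.unique h2

/-! ### Second derivatives of products -/

theorem dp_dp_mul {f h : W → Pt n → ℝ} (hf : ∀ z, JS f z) (hh : ∀ z, JS h z) (u v p : W)
    (x : Pt n) : dp u (dp v (fun p x => f p x * h p x)) p x =
      dp u (dp v f) p x * h p x + dp v f p x * dp u h p x + dp u f p x * dp v h p x +
        f p x * dp u (dp v h) p x := by
  have h1 : dp v (fun p x => f p x * h p x) = fun p x => dp v f p x * h p x + f p x * dp v h p x := by
    funext p x
    exact dp_mul (hf (p, x)) (hh (p, x)) v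
  rw [h1]
  have h2 := dp_add (z := (p, x)) (f := fun p x => dp v f p x * h p x)
    (h := fun p x => f p x * dp v h p x) (((hf _).dp v).mul (hh _)) ((hf _).mul ((hh _).dp v)) u
  simp only at h2
  rw [h2]
  have h3 := dp_mul (z := (p, x)) (f := dp v f) (h := h) ((hf _).dp v) (hh _) u
  have h4 := dp_mul (z := (p, x)) (f := f) (h := dp v h) (hf _) ((hh _).dp v) u
  simp only at h3 h4
  rw [h3, h4]
  ring

theorem dp_dp_sum {ι : Type*} (s : Finset ι) {f : ι → W → Pt n → ℝ} (hf : ∀ i, ∀ z, JS (f i) z)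
    (u v p : W) (x : Pt n) : dp u (dp v (fun p x => ∑ i ∈ s, f i p x)) p x =
      ∑ i ∈ s, dp u (dp v (f i)) p x := by
  have h1 : dp v (fun p x => ∑ i ∈ s, f i p x) = fun p x => ∑ i ∈ s, dp v (f i) p x := by
    funext p x
    exact dp_sum s (z := (p, x)) (fun i _ => hf i _) v
  rw [h1]
  exact dp_sum s (z := (p, x)) (f := fun i => dp v (f i)) (fun i _ => (hf i _).dp v) u

theorem dp_dp_pd {f : W → Pt n → ℝ} (hf : ∀ z, JS f z) (u v p : W) (x : Pt n) (i : Fin n) :
    dp u (dp v (fun p => pd i (f p))) p x = pd i (dp u (dp v f) p) x := by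
  have h1 : dp v (fun p => pd i (f p)) = fun p => pd i (dp v f p) := by
    funext p x
    exact (hf (p, x)).dp_pd v i
  rw [h1]
  exact JS.dp_pd (z := (p, x)) ((hf _).dp v) u i

theorem dp_eq_deriv {f : W → Pt n → ℝ} (hf : ∀ z, JS f z) (p u : W) (x : Pt n) :
    dp u f p x = deriv (fun t : ℝ => f (p + t • u) x) 0 := by
  have := (hasDerivAt_line hf p u x 0).deriv
  rw [this]
  simp

end Pool.Agent.T9h84.CP
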