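import Pool.Agent.T9h84.CP.Test

/-!
# Scaling
-/

set_option autoImplicit false

open scoped BigOperators ContDiff Topology
open Filter MeasureTheory

namespace Pool.Agent.T9h84.CP

variable {n : ℕ}

/-- constant multiple of a metric -/
noncomputable def scl (r : ℝ) (g : Met n) : Met n := fun x => r • g x

/-- homogeneity of a natural tensor under constant scaling -/
def HasWeight (n : ℕ) {k : ℕ} (t : NatTen k) (m : ℤ) : Prop :=
  ∀ g : Met n, IsMetric g → ∀ r : ℝ, 0 < r → ∀ a x, t.eval (scl r g) a x = r ^ m * t.eval g a x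

theorem IsMetric.scl {g : Met n} (hg : IsMetric g) {r : ℝ} (hr : 0 < r) :
    IsMetric (CP.scl r g) where
  smooth i j := contDiff_const.mul (hg.smooth i j)
  posDef x := (hg.posDef x).smul hr

theorem inv_scl {g : Met n} (hg : IsMetric g) {r : ℝ} (hr : 0 < r) (x : Pt n) (i j : Fin n) :
    (scl r g x)⁻¹ i j = r⁻¹ * (g x)⁻¹ i j := by
  have h : (scl r g x)⁻¹ = r⁻¹ • (g x)⁻¹ := by
    apply Matrix.inv_eq_right_inv
    rw [scl, Matrix.smul_mul, Matrix.mul_smul, smul_smul, mul_inv_cancel₀ hr.ne', one_smul,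
      Matrix.mul_nonsing_inv _ (isUnit_iff_ne_zero.2 (hg.det_pos x).ne')]
  rw [h]
  rfl

theorem chr_scl {g : Met n} (hg : IsMetric g) {r : ℝ} (hr : 0 < r) (k i j : Fin n) :
    chr (scl r g) k i j = chr g k i j := by
  ext x
  have h : ∀ i a b, pd i (fun y => scl r g y a b) x = r * pd i (fun y => g y a b) x :=
    fun i a b => pd_const_mul r (diffAt (hg.smooth a b).contDiffAt) i
  unfold chr
  simp only [h, inv_scl hg hr]
  congr 1
  refine Finset.sum_congr rfl fun l _ => ?_
  field_simp

theorem weight_riem : HasWeight n .riem 1 := by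
  intro g hg r hr a x
  change riem _ a x = r ^ (1 : ℤ) * riem g a x
  unfold riem
  simp only [chr_scl hg hr, scl, Matrix.smul_apply, smul_eq_mul, mul_assoc, ← Finset.mul_sum,
    zpow_one]

theorem weight_mul {k l : ℕ} {s : NatTen k} {t : NatTen l} {m m' : ℤ} (hs : HasWeight n s m)
    (ht : HasWeight n t m') : HasWeight n (.mul s t) (m + m') := by
  intro g hg r hr a x
  rw [eval_mul, eval_mul, hs g hg r hr, ht g hg r hr, zpow_add₀ hr.ne']
  ring

theorem weight_perm {k : ℕ} {t : NatTen k} {m : ℤ} (σ : Equiv.Perm (Fin k))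
    (ht : HasWeight n t m) : HasWeight n (.perm σ t) m := by
  intro g hg r hr a x
  rw [eval_perm, eval_perm, ht g hg r hr]

theorem weight_contr {k : ℕ} {t : NatTen (k + 2)} {m : ℤ}
    (ht : HasWeight n t m) : HasWeight n (.contr t) (m - 1) := by
  intro g hg r hr a x
  rw [eval_contr, eval_contr]
  simp only [ht g hg r hr, inv_scl hg hr, Finset.mul_sum]
  refine Finset.sum_congr rfl fun i _ => Finset.sum_congr rfl fun j _ => ?_
  rw [zpow_sub₀ hr.ne', zpow_one]
  field_simp

theorem weight_nabla {k : ℕ} {t : NatTen k} {m : ℤ}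
    (ht : HasWeight n t m) : HasWeight n (.nabla t) m := by
  intro g hg r hr a x
  change nab _ _ a x = r ^ m * nab g (t.eval g) a x
  have h1 : ∀ a, t.eval (scl r g) a = fun x => r ^ m * t.eval g a x :=
    fun a => funext fun x => ht g hg r hr a x
  have h2 : ∀ i a, pd i (fun x => r ^ m * t.eval g a x) x = r ^ m * pd i (t.eval g a) x := by
    intro i a
    exact pd_const_mul _ (diffAt (contDiffAt_eval (fun a b => (hg.smooth a b).contDiffAt)
      (hg.det_pos x).ne' t a)) i
  unfold nab
  simp only [h1, h2, chr_scl hg hr, mul_sub, Finset.mul_sum]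
  congr 1
  refine Finset.sum_congr rfl fun p _ => Finset.sum_congr rfl fun l _ => ?_
  ring

theorem weight_lapRicSq : HasWeight n lapRicSq (-3) := by
  have h1 : HasWeight n ricT (1 - 1) := weight_contr (weight_perm sig weight_riem)
  have h2 : HasWeight n ricSq (1 - 1 + (1 - 1) - 1 - 1) :=
    weight_contr (weight_contr (weight_perm (Equiv.swap 1 2) (weight_mul h1 h1)))
  have h3 : HasWeight n lapRicSq (1 - 1 + (1 - 1) - 1 - 1 - 1) :=
    weight_contr (weight_nabla (weight_nabla h2))
  exact h3

/-- In dimension `6` the form `Δ |Ric|² dv` is invariant under constant scaling. -/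
theorem form_scl (g : Met 6) (hg : IsMetric g) (r : ℝ) (hr : 0 < r) (x : Pt 6) :
    form lapRicSq (fun y => r • g y) x = form lapRicSq g x := by
  have h1 : lapRicSq.eval (fun y => r • g y) ![] x = r ^ (-3 : ℤ) * lapRicSq.eval g ![] x :=
    weight_lapRicSq g hg r hr ![] x
  have h2 : √(r • g x).det = r ^ 3 * √(g x).det := by
    rw [Matrix.det_smul, Fintype.card_fin, Real.sqrt_mul (by positivity)]
    congr 1
    rw [show r ^ 6 = (r ^ 3) ^ 2 by ring]
    exact Real.sqrt_sq (by positivity)
  unfold form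
  rw [h1, h2]
  have h3 : r ^ (-3 : ℤ) * r ^ 3 = 1 := by
    rw [zpow_neg]
    exact inv_mul_cancel₀ (by positivity)
  linear_combination (lapRicSq.eval g ![] x * √(g x).det) * h3

end Pool.Agent.T9h84.CP
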